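import Pool.Agent.helper34.Cay.Family

/-!
# Existence of the function field and of dominant equivariant maps
-/

namespace Pool.Agent.helper34.Cay

open MvPolynomial

section FF

variable {k n : Type*} [Field k] [Fintype n] [DecidableEq n]

/-- rescaling a column -/
def resc (i0 : n) {A : Type*} [CommRing A] (M : Matrix n n A) (u : A) : Matrix n n A :=
  M * Matrix.diagonal fun i => if i = i0 then u else 1

lemma det_resc (i0 : n) {A : Type*} [CommRing A] (M : Matrix n n A) (u : A) :
    (resc i0 M u).det = M.det * u := by
  unfold resc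
  rw [Matrix.det_mul, Matrix.det_diagonal, Finset.prod_ite_eq' Finset.univ i0 (fun _ => u),
    if_pos (Finset.mem_univ _)]

lemma resc_one (i0 : n) {A : Type*} [CommRing A] (M : Matrix n n A) : resc i0 M 1 = M := by
  unfold resc
  have : (fun i : n => if i = i0 then (1 : A) else 1) = fun _ => 1 := by
    funext i
    split_ifs <;> rfl
  rw [this, Matrix.diagonal_one, Matrix.mul_one]

lemma resc_map (i0 : n) {A B : Type*} [CommRing A] [Algebra k A] [CommRing B] [Algebra k B]
    (f : A →ₐ[k] B) (M : Matrix n n A) (u : A) :
    (resc i0 M u).map f = resc i0 (M.map f) (f u) := by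
  unfold resc
  rw [Matrix.map_mul]
  congr 1
  ext a b
  rw [Matrix.map_apply, Matrix.diagonal_apply, Matrix.diagonal_apply]
  split_ifs
  · rfl
  · exact map_one f
  · exact map_zero f

lemma aeval_det {A : Type*} [CommRing A] [Algebra k A] (M : Matrix n n A) :
    aeval (ent M) (gm k n).det = M.det := by
  rw [AlgHom.map_det, AlgHom.mapMatrix_apply, gm_map]

lemma det_gm_ne : (gm k n).det ≠ 0 := by
  intro h
  have h1 := aeval_det (k := k) (1 : Matrix n n k)
  rw [h, map_zero, Matrix.det_one] at h1
  exact zero_ne_one h1

/-- the generic matrix in the localisation -/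
noncomputable def gL (k n : Type*) [Field k] [Fintype n] [DecidableEq n] :
    Matrix n n (EU (gm k n).det) :=
  (gm k n).map (algebraMap (MvPolynomial (n × n) k) (EU (gm k n).det))

/-- value of a polynomial at the rescaled generic matrix -/
noncomputable def rL (i0 : n) (P : MvPolynomial (n × n) k) : EU (gm k n).det :=
  aeval (ent (resc i0 (gL k n) (IsLocalization.Away.invSelf (gm k n).det))) P

lemma lft_rL (i0 : n) {B : Type*} [Field B] [Algebra k B] (M : Matrix n n B)
    (hw : IsUnit (aeval (ent M) (gm k n).det : B)) (P : MvPolynomial (n × n) k) :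
    lft (ent M) hw (rL i0 P) = aeval (ent (resc i0 M M.det⁻¹)) P := by
  unfold rL
  rw [← ent_map, resc_map]
  have h1 : (gL k n).map (lft (ent M) hw) = M := by
    ext i j
    show lft (ent M) hw (algebraMap _ _ (gm k n i j)) = M i j
    rw [lft_algebraMap]
    exact congrFun (congrFun (gm_map M) i) j
  have h2 : lft (ent M) hw (IsLocalization.Away.invSelf (gm k n).det) = M.det⁻¹ := by
    have h3 := congrArg (lft (ent M) hw)
      (IsLocalization.Away.mul_invSelf (S := EU (gm k n).det) (gm k n).det)
    rw [map_mul, lft_algebraMap, map_one, aeval_det] at h3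
    exact eq_inv_of_mul_eq_one_right h3
  rw [h1, h2]

lemma resc_rel [IsAlgClosed k] [CharZero k] (i0 : n) {B : Type*} [Field B] [Algebra k B]
    (M : Matrix n n B)
    (hinj : Function.Injective (aeval (ent M) : MvPolynomial (n × n) k →ₐ[k] B))
    (P : MvPolynomial (n × n) k) :
    aeval (ent (resc i0 M M.det⁻¹)) P = 0 ↔
      ∀ g : Matrix.SpecialLinearGroup n k, aeval (ent g.1) P = 0 := by
  have hw : IsUnit (aeval (ent M) (gm k n).det : B) := by
    rw [isUnit_iff_ne_zero]
    exact (map_ne_zero_iff _ hinj).2 det_gm_ne
  rw [← lft_rL i0 M hw P]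
  constructor
  · intro h g
    have hR := eq_zero_of_inj (ent M) hw hinj h
    have hg : IsUnit (aeval (ent g.1) (gm k n).det : k) := by
      rw [aeval_det, g.2]; exact isUnit_one
    have h1 := lft_rL i0 g.1 hg P
    rw [g.2, inv_one, resc_one] at h1
    rw [← h1, hR, map_zero]
  · intro h
    have hR : rL i0 P = 0 := by
      apply eq_zero_of_points det_gm_ne
      intro v hv
      have hv' : v = ent (Matrix.of fun i j => v (i, j)) := rfl
      have hv2 : IsUnit (aeval (ent (Matrix.of fun i j => v (i, j))) (gm k n).det : k) := hv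
      have h1 := lft_rL i0 (Matrix.of fun i j => v (i, j)) hv2 P
      have hd : (Matrix.of fun i j => v (i, j)).det ≠ 0 := by
        rw [← aeval_det (k := k)]
        exact hv2.ne_zero
      have h2 := h ⟨resc i0 (Matrix.of fun i j => v (i, j)) (Matrix.of fun i j => v (i, j)).det⁻¹,
        by rw [det_resc, mul_inv_cancel₀ hd]⟩
      rw [h2] at h1
      exact h1
    rw [hR, map_zero]

end FF

universe u v

/-- The function field of `SL_n` exists. -/
theorem exists_functionField (k : Type u) (n : Type v) [Field k] [IsAlgClosed k] [CharZero k]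
    [Fintype n] [DecidableEq n] [Nonempty n] :
    ∃ (K : Type (max u v)) (_ : Field K) (_ : Algebra k K) (X : Matrix n n K),
      IsFunctionFieldSL k X := by
  let B := FractionRing (MvPolynomial (n × n) k)
  let i0 : n := Classical.arbitrary n
  let M : Matrix n n B := (gm k n).map (algebraMap (MvPolynomial (n × n) k) B)
  have hinj : Function.Injective (aeval (ent M) : MvPolynomial (n × n) k →ₐ[k] B) := by
    have h1 : (aeval (ent M) : MvPolynomial (n × n) k →ₐ[k] B) =
        IsScalarTower.toAlgHom k (MvPolynomial (n × n) k) B := by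
      apply MvPolynomial.algHom_ext
      intro p
      rw [aeval_X]
      rfl
    rw [h1]
    exact IsFractionRing.injective (MvPolynomial (n × n) k) B
  let X₀ : Matrix n n B := resc i0 M M.det⁻¹
  let K := IntermediateField.adjoin k (Set.range (ent X₀))
  let X : Matrix n n K := Matrix.of fun i j =>
    ⟨X₀ i j, IntermediateField.subset_adjoin k _ ⟨(i, j), rfl⟩⟩
  have hXmap : X.map (K.val) = X₀ := rfl
  refine ⟨K, inferInstance, inferInstance, X, ?_, ?_⟩
  · -- generation
    have h1 : IntermediateField.map K.val
        (IntermediateField.adjoin k (Set.range fun ij : n × n => X ij.1 ij.2)) = K := by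
      rw [IntermediateField.adjoin_map, ← Set.range_comp]
      rfl
    apply IntermediateField.map_injective K.val
    rw [h1]
    ext x
    constructor
    · intro hx
      exact ⟨⟨x, hx⟩, trivial, rfl⟩
    · rintro ⟨y, -, rfl⟩
      exact y.2
  · intro P
    show aeval (ent X) P = 0 ↔ ∀ g : Matrix.SpecialLinearGroup n k, aeval (ent g.1) P = 0
    rw [← resc_rel i0 M hinj P]
    have h1 := ent_map (K.val) X P
    rw [hXmap] at h1
    rw [h1]
    constructor
    · intro h
      rw [h, map_zero]
    · intro h
      exact (map_eq_zero_iff _ K.val.injective).1 h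

/-- A dominant equivariant map exists. -/
theorem exists_dominant {k K n : Type*} [Field k] [IsAlgClosed k] [CharZero k] [Field K]
    [Algebra k K] [Fintype n] [DecidableEq n] [Nonempty n] {X : Matrix n n K}
    (hX : IsFunctionFieldSL k X) : ∃ F : Matrix n n K, IsDominantEquivariant k X F := by
  have hcardK : (algebraMap k K (Fintype.card n : k)) ≠ 0 :=
    (map_ne_zero_iff _ (algebraMap k K).injective).2 (Nat.cast_ne_zero.2 Fintype.card_ne_zero)
  have hcard : (Fintype.card n : k) ≠ 0 := Nat.cast_ne_zero.2 Fintype.card_ne_zero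
  refine ⟨X - (algebraMap k K ((Fintype.card n : k)⁻¹) * X.trace) • (1 : Matrix n n K), ?_, ?_, ?_⟩
  · rw [Matrix.trace_sub, Matrix.trace_smul, Matrix.trace_one, smul_eq_mul, map_inv₀]
    rw [map_natCast] at hcardK ⊢
    field_simp
    ring
  · intro g θ hθ
    have hinv : (g⁻¹).1.map (algebraMap k K) * g.1.map (algebraMap k K) = 1 := by
      rw [← Matrix.map_mul]
      have : (g⁻¹).1 * g.1 = 1 := by
        have : g⁻¹ * g = 1 := by group
        exact congrArg Subtype.val this
      rw [this, Matrix.map_one _ (map_zero _) (map_one _)]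
    have hinv' : g.1.map (algebraMap k K) * (g⁻¹).1.map (algebraMap k K) = 1 := by
      rw [← Matrix.map_mul]
      have : g.1 * (g⁻¹).1 = 1 := by
        have : g * g⁻¹ = 1 := by group
        exact congrArg Subtype.val this
      rw [this, Matrix.map_one _ (map_zero _) (map_one _)]
    have htr : θ X.trace = X.trace := by
      have h1 : θ X.trace = (X.map θ).trace := by
        unfold Matrix.trace
        rw [map_sum]
        rfl
      rw [h1, hθ, Matrix.trace_mul_comm, ← Matrix.mul_assoc, hinv, Matrix.one_mul]
    have h2 : (X - (algebraMap k K ((Fintype.card n : k)⁻¹) * X.trace) • (1 : Matrix n n K)).map θ =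
        X.map θ - (algebraMap k K ((Fintype.card n : k)⁻¹) * X.trace) • (1 : Matrix n n K) := by
      ext1 i j
      show θ (X i j - (algebraMap k K ((Fintype.card n : k)⁻¹) * X.trace) *
        (1 : Matrix n n K) i j) = θ (X i j) - (algebraMap k K ((Fintype.card n : k)⁻¹) * X.trace) *
        (1 : Matrix n n K) i j
      rw [map_sub, map_mul, map_mul, AlgHom.commutes, htr]
      congr 2
      rw [Matrix.one_apply]
      split_ifs
      · exact map_one θ
      · exact map_zero θ
    rw [h2, hθ, Matrix.mul_sub, Matrix.sub_mul, Matrix.mul_smul, Matrix.smul_mul, Matrix.mul_one,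
      hinv']
  · intro P hP Y hY
    have h1 : aeval (ent X) (tz k n P) = 0 := by
      rw [aeval_tz]
      exact hP
    rw [hX.rel'] at h1
    -- choose the scalar
    have hdeg : ((-Y).charpoly - 1).degree ≠ 0 := by
      have h2 : (-Y).charpoly.degree = Fintype.card n := Matrix.charpoly_degree_eq_dim _
      have h3 : (1 : Polynomial k).degree < (-Y).charpoly.degree := by
        rw [h2, Polynomial.degree_one]
        exact_mod_cast Fintype.card_pos
      rw [Polynomial.degree_sub_eq_left_of_degree_lt h3, h2]
      exact_mod_cast Fintype.card_ne_zero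
    obtain ⟨c, hc⟩ := IsAlgClosed.exists_root _ hdeg
    rw [Polynomial.IsRoot.def, Polynomial.eval_sub, Polynomial.eval_one, sub_eq_zero,
      Matrix.eval_charpoly, sub_neg_eq_add] at hc
    have h2 := h1 ⟨Matrix.scalar n c + Y, hc⟩
    rw [aeval_tz] at h2
    have h3 : (Matrix.scalar n c + Y) - (algebraMap k k ((Fintype.card n : k)⁻¹) *
        (Matrix.scalar n c + Y).trace) • (1 : Matrix n n k) = Y := by
      have h4 : (Matrix.scalar n c : Matrix n n k) = c • (1 : Matrix n n k) := by
        rw [Matrix.scalar_apply, Matrix.smul_one_eq_diagonal]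
      rw [h4, Matrix.trace_add, Matrix.trace_smul, Matrix.trace_one, hY, add_zero, smul_eq_mul]
      have h5 : algebraMap k k ((Fintype.card n : k)⁻¹) * (c * (Fintype.card n : k)) = c := by
        show (Fintype.card n : k)⁻¹ * _ = _
        field_simp
      rw [h5]
      abel
    rw [← h3]
    exact h2

end Pool.Agent.helper34.Cay
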