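import Mathlib

/-!
# Discriminants, diagonalisation and density
-/

namespace Pool.Agent.helper34.Cay

open Polynomial

section Dsc

variable {n : Type*} [Fintype n] [DecidableEq n]

/-- The discriminant (up to sign) of the characteristic polynomial. -/
noncomputable def dsc {A : Type*} [CommRing A] (M : Matrix n n A) : A :=
  resultant M.charpoly (derivative M.charpoly) (Fintype.card n) (Fintype.card n - 1)

lemma dsc_map {A B : Type*} [CommRing A] [CommRing B] (f : A →+* B) (M : Matrix n n A) :
    dsc (M.map f) = f (dsc M) := by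
  unfold dsc
  rw [Matrix.charpoly_map, derivative_map, resultant_map_map]

/-- A repeated eigenvalue kills the discriminant. -/
lemma dsc_eq_zero_of_root [Nonempty n] {A : Type*} [CommRing A] [Nontrivial A] {M : Matrix n n A}
    {a : A} (h : (X - C a) ^ 2 ∣ M.charpoly) : dsc M = 0 := by
  have hdeg : M.charpoly.natDegree = Fintype.card n := Matrix.charpoly_natDegree_eq_dim M
  have hder : (derivative M.charpoly).natDegree ≤ Fintype.card n - 1 := by
    rw [← hdeg]; exact natDegree_derivative_le _
  obtain ⟨p, q, -, -, hpq⟩ := exists_mul_add_mul_eq_C_resultant (m := Fintype.card n)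
    (n := Fintype.card n - 1) M.charpoly (derivative M.charpoly) hdeg.le hder
    (Or.inl Fintype.card_ne_zero)
  have h1 : M.charpoly.eval a = 0 := by
    obtain ⟨g, hg⟩ := h
    rw [hg]; simp
  have h2 : (derivative M.charpoly).eval a = 0 := by
    obtain ⟨g, hg⟩ := h
    rw [hg, pow_two, derivative_mul, derivative_mul]
    simp
  have h3 := congrArg (eval a) hpq
  rw [eval_add, eval_mul, eval_mul, h1, h2, zero_mul, zero_mul, add_zero, eval_C] at h3
  exact h3.symm

lemma charpoly_conj {m : Type*} [Fintype m] [DecidableEq m] {A : Type*} [CommRing A]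
    (Z : Matrix n m A) (W : Matrix m n A) (hWZ : W * Z = 1)
    (hc : Fintype.card n = Fintype.card m) (x : m → A) :
    (Z * Matrix.diagonal x * W).charpoly = ∏ i, (X - C (x i)) := by
  have h := Matrix.charpoly_mul_comm' (Z * Matrix.diagonal x) W
  rw [hc] at h
  have h2 : W * (Z * Matrix.diagonal x) = Matrix.diagonal x := by
    rw [← Matrix.mul_assoc, hWZ, Matrix.one_mul]
  rw [h2, Matrix.charpoly_diagonal] at h
  exact (isRegular_X_pow _).left h

/-- If the discriminant of `Z diag(x) W` is nonzero then the `x` are distinct. -/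
lemma injective_of_dsc {m : Type*} [Fintype m] [DecidableEq m] [Nonempty n] {A : Type*}
    [CommRing A] [Nontrivial A]
    (Z : Matrix n m A) (W : Matrix m n A) (hWZ : W * Z = 1)
    (hc : Fintype.card n = Fintype.card m) (x : m → A)
    (hd : dsc (Z * Matrix.diagonal x * W) ≠ 0) : Function.Injective x := by
  intro i j hij
  by_contra hne
  apply hd
  apply dsc_eq_zero_of_root (a := x i)
  rw [charpoly_conj Z W hWZ hc x, ← Finset.mul_prod_erase Finset.univ _ (Finset.mem_univ i),
    ← Finset.mul_prod_erase (Finset.univ.erase i) _ (Finset.mem_erase.2 ⟨Ne.symm hne,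
      Finset.mem_univ j⟩), ← hij, ← mul_assoc, ← pow_two]
  exact dvd_mul_right _ _

section Field

variable {F : Type*} [Field F] [CharZero F]

lemma coprime_of_dsc [Nonempty n] {M : Matrix n n F} (h : dsc M ≠ 0) :
    IsCoprime M.charpoly (derivative M.charpoly) := by
  have hdeg : M.charpoly.natDegree = Fintype.card n := Matrix.charpoly_natDegree_eq_dim M
  have hder : (derivative M.charpoly).natDegree = Fintype.card n - 1 := by
    rw [← hdeg]
    exact natDegree_derivative _
  by_contra hcon
  apply h
  unfold dsc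
  rw [← hder, ← hdeg]
  rw [resultant_eq_zero_iff]
  exact ⟨Or.inl (Matrix.charpoly_monic M).ne_zero, hcon⟩

lemma dsc_ne_of_coprime [Nonempty n] {M : Matrix n n F}
    (h : IsCoprime M.charpoly (derivative M.charpoly)) : dsc M ≠ 0 := by
  have hdeg : M.charpoly.natDegree = Fintype.card n := Matrix.charpoly_natDegree_eq_dim M
  have hder : (derivative M.charpoly).natDegree = Fintype.card n - 1 := by
    rw [← hdeg]
    exact natDegree_derivative _
  unfold dsc
  rw [← hder, ← hdeg]
  intro hcon
  rw [resultant_eq_zero_iff] at hcon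
  exact hcon.2 h

lemma dsc_diagonal_ne [Nonempty n] {x : n → F} (hx : Function.Injective x) :
    dsc (Matrix.diagonal x) ≠ 0 := by
  apply dsc_ne_of_coprime
  rw [Matrix.charpoly_diagonal]
  have : Separable (∏ i, (X - C (x i))) := separable_prod_X_sub_C_iff.2 hx
  exact this

/-- Diagonalisation of a matrix with nonzero discriminant. -/
theorem exists_diag [Nonempty n] [IsAlgClosed F] {M : Matrix n n F} (h : dsc M ≠ 0) :
    ∃ (Z : Matrix n n F) (x : n → F), IsUnit Z.det ∧ M = Z * Matrix.diagonal x * Z⁻¹ := by
  classical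
  have hsep : Separable M.charpoly := coprime_of_dsc h
  have hmonic := Matrix.charpoly_monic M
  have hcard : Multiset.card M.charpoly.roots = Fintype.card n := by
    rw [← Matrix.charpoly_natDegree_eq_dim M]
    exact (splits_iff_card_roots.1 (IsAlgClosed.splits _))
  have hnodup := nodup_roots hsep
  have hcard' : Fintype.card M.charpoly.roots.toFinset = Fintype.card n := by
    rw [Fintype.card_coe, Multiset.toFinset_card_of_nodup hnodup, hcard]
  let e : n ≃ M.charpoly.roots.toFinset := Fintype.equivOfCardEq hcard'.symm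
  let x : n → F := fun i => (e i : F)
  have hxinj : Function.Injective x := Subtype.val_injective.comp e.injective
  have hroot : ∀ i, M.charpoly.IsRoot (x i) := fun i =>
    (mem_roots'.1 (Multiset.mem_toFinset.1 (e i).2)).2
  have hvec : ∀ i, ∃ v : n → F, v ≠ 0 ∧ M.mulVec v = x i • v := by
    intro i
    have h1 : (Matrix.scalar n (x i) - M).det = 0 := by
      have := hroot i
      rw [IsRoot.def, Matrix.eval_charpoly] at this
      exact this
    obtain ⟨v, hv, hv2⟩ := Matrix.exists_mulVec_eq_zero_iff.2 h1
    refine ⟨v, hv, ?_⟩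
    rw [Matrix.sub_mulVec, sub_eq_zero] at hv2
    rw [← hv2]
    ext j
    simp [Matrix.scalar_apply, Matrix.mulVec_diagonal]
  choose v hv0 hv using hvec
  have hlin : LinearIndependent F v := by
    refine Module.End.eigenvectors_linearIndependent' (Matrix.toLin' M) x hxinj v fun i => ?_
    rw [Module.End.hasEigenvector_iff, Module.End.mem_eigenspace_iff]
    exact ⟨by rw [Matrix.toLin'_apply, hv], hv0 i⟩
  let Z : Matrix n n F := (Matrix.of v).transpose
  have hZ : IsUnit Z := by
    rw [← Matrix.linearIndependent_cols_iff_isUnit]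
    exact hlin
  have hZd : IsUnit Z.det := (Matrix.isUnit_iff_isUnit_det _).1 hZ
  refine ⟨Z, x, hZd, ?_⟩
  have hMZ : M * Z = Z * Matrix.diagonal x := by
    ext i j
    rw [Matrix.mul_diagonal]
    have := congrFun (hv j) i
    rw [Pi.smul_apply, smul_eq_mul] at this
    show (M.mulVec (v j)) i = v j i * x j
    rw [this, mul_comm]
  rw [← hMZ, Matrix.mul_assoc, Matrix.mul_nonsing_inv _ hZd, Matrix.mul_one]

/-- There is a diagonal matrix of determinant one with nonzero discriminant. -/
lemma exists_SL_dsc [Nonempty n] [IsAlgClosed F] :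
    ∃ g : Matrix.SpecialLinearGroup n F, dsc g.1 ≠ 0 := by
  obtain ⟨c, hc⟩ := IsAlgClosed.exists_pow_nat_eq
    ((∏ i : n, ((((Fintype.equivFin n i : ℕ) + 1 : ℕ) : F)))⁻¹) (n := Fintype.card n)
      Fintype.card_pos
  have hprod : (∏ i : n, ((((Fintype.equivFin n i : ℕ) + 1 : ℕ) : F))) ≠ 0 :=
    Finset.prod_ne_zero_iff.2 fun i _ => Nat.cast_ne_zero.2 (Nat.succ_ne_zero _)
  have hc0 : c ≠ 0 := by
    rintro rfl
    rw [zero_pow Fintype.card_ne_zero] at hc
    exact (inv_ne_zero hprod) hc.symm
  refine ⟨⟨Matrix.diagonal fun i => c * ((((Fintype.equivFin n i : ℕ) + 1 : ℕ) : F)), ?_⟩, ?_⟩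
  · rw [Matrix.det_diagonal, Finset.prod_mul_distrib, Finset.prod_const, Finset.card_univ, hc,
      inv_mul_cancel₀ hprod]
  · apply dsc_diagonal_ne
    intro i j hij
    have h1 := mul_left_cancel₀ hc0 hij
    have h2 : ((Fintype.equivFin n i : ℕ) + 1) = ((Fintype.equivFin n j : ℕ) + 1) :=
      Nat.cast_injective h1
    have h3 : (Fintype.equivFin n i : ℕ) = (Fintype.equivFin n j : ℕ) := by omega
    exact (Fintype.equivFin n).injective (Fin.ext h3)

/-- There is a trace zero matrix with nonzero discriminant. -/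
lemma exists_tracezero_dsc [Nonempty n] :
    ∃ g : Matrix n n F, g.trace = 0 ∧ dsc g ≠ 0 := by
  have hcard : (Fintype.card n : F) ≠ 0 := Nat.cast_ne_zero.2 Fintype.card_ne_zero
  set t : F := (∑ i : n, ((Fintype.equivFin n i : ℕ) : F)) / Fintype.card n with ht
  refine ⟨Matrix.diagonal fun i => ((Fintype.equivFin n i : ℕ) : F) - t, ?_, ?_⟩
  · rw [Matrix.trace_diagonal, Finset.sum_sub_distrib, Finset.sum_const, Finset.card_univ,
      nsmul_eq_mul, ht]
    field_simp
    ring
  · apply dsc_diagonal_ne
    intro i j hij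
    have h1 : ((Fintype.equivFin n i : ℕ) : F) = ((Fintype.equivFin n j : ℕ) : F) :=
      sub_left_injective hij
    exact (Fintype.equivFin n).injective (Fin.ext (Nat.cast_injective h1))

end Field

end Dsc

end Pool.Agent.helper34.Cay
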