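import Mathlib

/-!
# Lifting homomorphisms from generic elements
-/

namespace Pool.Agent.helper34.Cay

open MvPolynomial

section Lift

variable {k K M I : Type*} [Field k] [Field K] [Algebra k K] [Field M] [Algebra k M]

open scoped IntermediateField.algebraAdjoinAdjoin in
/-- A homomorphism out of a field generated by given elements, prescribed on the generators. -/
theorem exists_lift (f : I → K) (m : I → M)
    (h : ∀ P : MvPolynomial I k, aeval f P = 0 ↔ aeval m P = 0) :
    ∃ ψ : IntermediateField.adjoin k (Set.range f) →ₐ[k] M,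
      ∀ i, ψ ⟨f i, IntermediateField.subset_adjoin k _ ⟨i, rfl⟩⟩ = m i := by
  let φ : MvPolynomial I k →ₐ[k] Algebra.adjoin k (Set.range f) :=
    (aeval f).codRestrict _ fun P => by
      rw [Algebra.adjoin_range_eq_range_aeval]
      exact ⟨P, rfl⟩
  have hφ : Function.Surjective φ := by
    rintro ⟨x, hx⟩
    rw [Algebra.adjoin_range_eq_range_aeval] at hx
    obtain ⟨P, hP⟩ := hx
    exact ⟨P, Subtype.ext hP⟩
  have hker : RingHom.ker φ.toRingHom ≤ RingHom.ker (aeval m : MvPolynomial I k →ₐ[k] M).toRingHom := by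
    intro P hP
    rw [RingHom.mem_ker] at hP ⊢
    have h1 : aeval f P = 0 := congrArg Subtype.val hP
    exact (h P).1 h1
  let g : Algebra.adjoin k (Set.range f) →ₐ[k] M := AlgHom.liftOfSurjective φ hφ (aeval m) hker
  have hg : ∀ P, g (φ P) = aeval m P := fun P => AlgHom.liftOfSurjective_apply _ _ _ _ P
  have hginj : Function.Injective g := by
    rw [injective_iff_map_eq_zero]
    intro x hx
    obtain ⟨P, rfl⟩ := hφ x
    rw [hg] at hx
    exact Subtype.ext ((h P).2 hx)
  refine ⟨IsFractionRing.liftAlgHom hginj, fun i => ?_⟩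
  have h1 : (⟨f i, IntermediateField.subset_adjoin k _ ⟨i, rfl⟩⟩ :
      IntermediateField.adjoin k (Set.range f)) = algebraMap (Algebra.adjoin k (Set.range f)) _
        (φ (X i)) := by
    apply Subtype.ext
    show f i = ((φ (X i) : Algebra.adjoin k (Set.range f)) : K)
    show f i = aeval f (X i)
    rw [aeval_X]
  rw [h1, IsFractionRing.liftAlgHom_apply, IsFractionRing.lift_algebraMap]
  show g (φ (X i)) = m i
  rw [hg, aeval_X]

/-- The version for a field generated by the elements. -/
theorem exists_lift_top (f : I → K) (hf : IntermediateField.adjoin k (Set.range f) = ⊤) (m : I → M)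
    (h : ∀ P : MvPolynomial I k, aeval f P = 0 ↔ aeval m P = 0) :
    ∃ ψ : K →ₐ[k] M, ∀ i, ψ (f i) = m i := by
  obtain ⟨ψ, hψ⟩ := exists_lift f m h
  let e : K →ₐ[k] IntermediateField.adjoin k (Set.range f) :=
    ((IntermediateField.equivOfEq hf).symm.toAlgHom).comp
      (IntermediateField.topEquiv.symm.toAlgHom : K →ₐ[k] (⊤ : IntermediateField k K))
  refine ⟨ψ.comp e, fun i => ?_⟩
  rw [AlgHom.comp_apply, ← hψ]
  congr 1


end Lift

end Pool.Agent.helper34.Cay
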