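import Pool.Agent.helper34.Cay.Defs
import Pool.Agent.helper34.Cay.Lift
import Pool.Agent.helper34.Cay.Diag

/-!
# Equivariant maps commute with the generic element
-/

namespace Pool.Agent.helper34.Cay

open MvPolynomial

section Basic

variable {k n : Type*} [Field k]

/-- entries of a matrix -/
def ent {A : Type*} (M : Matrix n n A) : n × n → A := fun ij => M ij.1 ij.2

/-- the generic matrix over the polynomial ring -/
noncomputable def gm (k n : Type*) [Field k] : Matrix n n (MvPolynomial (n × n) k) :=
  Matrix.of fun i j => X (i, j)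

/-- evaluation of a matrix of polynomials -/
lemma gm_map {A : Type*} [CommRing A] [Algebra k A] (M : Matrix n n A) :
    (gm k n).map (aeval (ent M) : MvPolynomial (n × n) k →ₐ[k] A) = M := by
  ext i j
  show aeval (ent M) (X (i, j)) = M i j
  rw [aeval_X]
  rfl

lemma ent_map {A B : Type*} [CommRing A] [Algebra k A] [CommRing B] [Algebra k B]
    (f : A →ₐ[k] B) (M : Matrix n n A) (P : MvPolynomial (n × n) k) :
    aeval (ent (M.map f)) P = f (aeval (ent M) P) := by
  have h1 : (aeval (ent (M.map f)) : MvPolynomial (n × n) k →ₐ[k] B) =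
      f.comp (aeval (ent M)) := by
    apply algHom_ext
    rintro ⟨i, j⟩
    rw [AlgHom.comp_apply, aeval_X, aeval_X]
    rfl
  exact DFunLike.congr_fun h1 P

variable [Fintype n] [DecidableEq n]

/-- conjugation of a matrix by an element of the group -/
def cjm (g : Matrix.SpecialLinearGroup n k) {A : Type*} [CommRing A] [Algebra k A]
    (M : Matrix n n A) : Matrix n n A :=
  g.1.map (algebraMap k A) * M * (g⁻¹).1.map (algebraMap k A)

lemma cjm_map (g : Matrix.SpecialLinearGroup n k) {A B : Type*} [CommRing A] [Algebra k A]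
    [CommRing B] [Algebra k B] (f : A →ₐ[k] B) (M : Matrix n n A) :
    (cjm g M).map f = cjm g (M.map f) := by
  unfold cjm
  rw [Matrix.map_mul, Matrix.map_mul]
  congr 1
  · congr 1
    ext a b
    exact f.commutes _
  · ext a b
    exact f.commutes _

/-- the substitution given by conjugation -/
noncomputable def cj (g : Matrix.SpecialLinearGroup n k) :
    MvPolynomial (n × n) k →ₐ[k] MvPolynomial (n × n) k :=
  aeval (ent (cjm g (gm k n)))

lemma aeval_cj (g : Matrix.SpecialLinearGroup n k) {A : Type*} [CommRing A] [Algebra k A]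
    (M : Matrix n n A) (P : MvPolynomial (n × n) k) :
    aeval (ent M) (cj g P) = aeval (ent (cjm g M)) P := by
  unfold cj
  rw [← ent_map, cjm_map, gm_map]

lemma cjm_k (g : Matrix.SpecialLinearGroup n k) (M : Matrix n n k) :
    cjm g M = g.1 * M * (g⁻¹).1 := by
  unfold cjm
  congr 1

lemma cjm_self (g : Matrix.SpecialLinearGroup n k) : cjm g g.1 = g.1 := by
  rw [cjm_k]
  have : g * g * g⁻¹ = g := by group
  exact congrArg Subtype.val this

end Basic

variable {k K n : Type*} [Field k] [Field K] [Algebra k K] [Fintype n] [DecidableEq n]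

namespace IsFunctionFieldSL

variable {X : Matrix n n K} (hX : IsFunctionFieldSL k X)

include hX

lemma rel' (P : MvPolynomial (n × n) k) : aeval (ent X) P = 0 ↔
    ∀ g : Matrix.SpecialLinearGroup n k, aeval (ent g.1) P = 0 := hX.rel P

/-- matrices that satisfy the relations of `SL_n` -/
lemma exists_hom {M : Type*} [Field M] [Algebra k M] (m : Matrix n n M)
    (h : ∀ P : MvPolynomial (n × n) k, aeval (ent m) P = 0 ↔
      ∀ g : Matrix.SpecialLinearGroup n k, aeval (ent g.1) P = 0) :
    ∃ ψ : K →ₐ[k] M, X.map ψ = m := by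
  obtain ⟨ψ, hψ⟩ := exists_lift_top (ent X) hX.gen (ent m) fun P => by rw [hX.rel' P, h P]
  exact ⟨ψ, by ext i j; exact hψ (i, j)⟩

lemma conj_rel (g : Matrix.SpecialLinearGroup n k) (P : MvPolynomial (n × n) k) :
    aeval (ent (cjm g X)) P = 0 ↔
      ∀ g : Matrix.SpecialLinearGroup n k, aeval (ent g.1) P = 0 := by
  rw [← aeval_cj, hX.rel']
  constructor
  · intro h g'
    have h1 := h (g⁻¹ * g' * g)
    rw [aeval_cj, cjm_k] at h1
    have h3 : g.1 * (g⁻¹ * g' * g).1 * (g⁻¹).1 = g'.1 := by
      have : g * (g⁻¹ * g' * g) * g⁻¹ = g' := by group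
      exact congrArg Subtype.val this
    rw [h3] at h1
    exact h1
  · intro h g'
    rw [aeval_cj, cjm_k]
    exact h (g * g' * g⁻¹)

/-- Every element of `K` is a quotient of polynomials in the entries of `X`, with a common
denominator for a matrix. -/
lemma exists_common (F : Matrix n n K) : ∃ (P : Matrix n n (MvPolynomial (n × n) k))
    (Q : MvPolynomial (n × n) k), aeval (ent X) Q ≠ 0 ∧
      ∀ i j, F i j * aeval (ent X) Q = aeval (ent X) (P i j) := by
  have h1 : ∀ ij : n × n, ∃ (P Q : MvPolynomial (n × n) k), aeval (ent X) Q ≠ 0 ∧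
      F ij.1 ij.2 * aeval (ent X) Q = aeval (ent X) P := by
    intro ij
    have hmem : F ij.1 ij.2 ∈ IntermediateField.adjoin k (Set.range (ent X)) := by
      have : IntermediateField.adjoin k (Set.range (ent X)) = ⊤ := hX.gen
      rw [this]; trivial
    rw [IntermediateField.mem_adjoin_range_iff] at hmem
    obtain ⟨r, s, hrs⟩ := hmem
    by_cases hs : aeval (ent X) s = 0
    · refine ⟨0, 1, by rw [map_one]; exact one_ne_zero, ?_⟩
      rw [hrs, hs, div_zero, zero_mul, map_zero]
    · exact ⟨r, s, hs, by rw [hrs, div_mul_cancel₀ _ hs]⟩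
  choose P Q hQ hPQ using h1
  refine ⟨Matrix.of fun i j => P (i, j) * ∏ kl ∈ Finset.univ.erase (i, j), Q kl,
    ∏ kl, Q kl, ?_, ?_⟩
  · rw [map_prod]
    exact Finset.prod_ne_zero_iff.2 fun kl _ => hQ kl
  · intro i j
    rw [Matrix.of_apply, map_mul, ← hPQ (i, j), ← Finset.mul_prod_erase Finset.univ Q
      (Finset.mem_univ (i, j)), map_mul]
    ring

/-- An equivariant map commutes with the generic element. -/
theorem comm {F : Matrix n n K} (hF : IsDominantEquivariant k X F) : F * X = X * F := by
  obtain ⟨P, Q, hQ, hPQ⟩ := hX.exists_common F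
  have hPQ' : aeval (ent X) Q • F = P.map (aeval (ent X)) := by
    ext i j
    rw [Matrix.smul_apply, smul_eq_mul, mul_comm, hPQ]
    rfl
  -- the identity at every point of the group
  have key : ∀ g : Matrix.SpecialLinearGroup n k,
      aeval (ent g.1) Q • (P.map (aeval (ent g.1)) * g.1) =
        aeval (ent g.1) Q • (g.1 * P.map (aeval (ent g.1))) := by
    intro g
    obtain ⟨θ, hθ⟩ := hX.exists_hom _ (hX.conj_rel g)
    have h1 : F.map θ = cjm g F := hF.equivariant g θ hθ
    have hpoly : ∀ i j, aeval (ent X) ((cjm g P) i j * cj g Q - cj g (P i j) * Q) = 0 := by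
      intro i j
      rw [map_sub, map_mul, map_mul, aeval_cj, aeval_cj, ← hθ, ent_map, ent_map, ← hPQ, map_mul]
      have h2 : θ (F i j) = cjm g F i j := congrFun (congrFun h1 i) j
      have h3 : aeval (ent X) ((cjm g P) i j) = aeval (ent X) Q * cjm g F i j := by
        have h4 : (cjm g P).map (aeval (ent X)) = cjm g (P.map (aeval (ent X))) := cjm_map g _ P
        rw [← hPQ'] at h4
        have h5 : cjm g (aeval (ent X) Q • F) = aeval (ent X) Q • cjm g F := by
          unfold cjm
          rw [Matrix.mul_smul, Matrix.smul_mul]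
        rw [h5] at h4
        exact congrFun (congrFun h4 i) j
      rw [h2, h3]
      ring
    have hat : ∀ i j, aeval (ent g.1) Q * (cjm g (P.map (aeval (ent g.1)))) i j =
        aeval (ent g.1) Q * (P.map (aeval (ent g.1))) i j := by
      intro i j
      have h2 := (hX.rel' _).1 (hpoly i j) g
      rw [map_sub, map_mul, map_mul, aeval_cj, aeval_cj, cjm_self] at h2
      have h4 : (cjm g P).map (aeval (ent g.1)) = cjm g (P.map (aeval (ent g.1))) :=
        cjm_map g _ P
      have h5 : aeval (ent g.1) ((cjm g P) i j) = cjm g (P.map (aeval (ent g.1))) i j :=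
        congrFun (congrFun h4 i) j
      rw [h5] at h2
      show _ = aeval (ent g.1) Q * aeval (ent g.1) (P i j)
      linear_combination h2
    have hmat : aeval (ent g.1) Q • cjm g (P.map (aeval (ent g.1))) =
        aeval (ent g.1) Q • P.map (aeval (ent g.1)) := by
      ext i j
      rw [Matrix.smul_apply, Matrix.smul_apply, smul_eq_mul, smul_eq_mul]
      exact hat i j
    have hinv : (g⁻¹).1 * g.1 = 1 := by
      have : g⁻¹ * g = 1 := by group
      exact congrArg Subtype.val this
    rw [← Matrix.smul_mul, ← hmat, cjm_k, Matrix.smul_mul, Matrix.mul_assoc, hinv, Matrix.mul_one]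
  -- the polynomial identity
  have h2 : ∀ i j, aeval (ent X) (Q * (P * gm k n - gm k n * P) i j) = 0 := by
    intro i j
    rw [hX.rel']
    intro g
    have h3 : ((P * gm k n - gm k n * P).map (aeval (ent g.1) : _ →ₐ[k] k)) =
        P.map (aeval (ent g.1)) * g.1 - g.1 * P.map (aeval (ent g.1)) := by
      rw [Matrix.map_sub _ (map_sub _), Matrix.map_mul, Matrix.map_mul, gm_map]
    have h4 : aeval (ent g.1) ((P * gm k n - gm k n * P) i j) =
        (P.map (aeval (ent g.1)) * g.1 - g.1 * P.map (aeval (ent g.1))) i j :=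
      congrFun (congrFun h3 i) j
    rw [map_mul, h4, Matrix.sub_apply, mul_sub, sub_eq_zero]
    exact congrFun (congrFun (key g) i) j
  have h3 : ∀ i j, (aeval (ent X) Q) ^ 2 * ((F * X - X * F) i j) = 0 := by
    intro i j
    have h4 : ((P * gm k n - gm k n * P).map (aeval (ent X) : _ →ₐ[k] K)) =
        aeval (ent X) Q • (F * X - X * F) := by
      rw [Matrix.map_sub _ (map_sub _), Matrix.map_mul, Matrix.map_mul, gm_map, ← hPQ',
        Matrix.smul_mul, Matrix.mul_smul, smul_sub]
    have h5 : aeval (ent X) ((P * gm k n - gm k n * P) i j) =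
        (aeval (ent X) Q • (F * X - X * F)) i j := congrFun (congrFun h4 i) j
    have h6 := h2 i j
    rw [map_mul, h5, Matrix.smul_apply, smul_eq_mul] at h6
    rw [pow_two, mul_assoc]
    exact h6
  ext i j
  have h7 := (mul_eq_zero.1 (h3 i j)).resolve_left (pow_ne_zero 2 hQ)
  rw [Matrix.sub_apply] at h7
  exact sub_eq_zero.1 h7

end IsFunctionFieldSL

end Pool.Agent.helper34.Cay
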