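import Mathlib

/-!
# Function fields of `SL_n` and equivariant dominant rational maps `SL_n ⇢ 𝔰𝔩_n`
-/

namespace Pool.Agent.helper34.Cay

/-- The field `K` together with the matrix `X` is the function field of the variety `SL_n` over `k`
together with the generic element: the entries of `X` generate `K` over `k`, and a polynomial
over `k` vanishes at `X` if and only if it vanishes on `SL_n(k)`. -/
structure IsFunctionFieldSL (k : Type*) {K n : Type*} [Field k] [Field K] [Algebra k K]
    [Fintype n] [DecidableEq n] (X : Matrix n n K) : Prop where
  gen : IntermediateField.adjoin k (Set.range fun ij : n × n => X ij.1 ij.2) = ⊤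
  rel : ∀ P : MvPolynomial (n × n) k, MvPolynomial.aeval (fun ij => X ij.1 ij.2) P = 0 ↔
    ∀ g : Matrix.SpecialLinearGroup n k, MvPolynomial.aeval (fun ij => g.1 ij.1 ij.2) P = 0

/-- The matrix `F` over the function field `K` of `SL_n` is a dominant `SL_n`-equivariant rational
map from `SL_n` to the Lie algebra `𝔰𝔩_n` of matrices of trace zero. -/
structure IsDominantEquivariant (k : Type*) {K n : Type*} [Field k] [Field K] [Algebra k K]
    [Fintype n] [DecidableEq n] (X F : Matrix n n K) : Prop where
  trace_zero : F.trace = 0
  equivariant : ∀ (g : Matrix.SpecialLinearGroup n k) (θ : K →ₐ[k] K),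
    X.map θ = g.1.map (algebraMap k K) * X * (g⁻¹).1.map (algebraMap k K) →
    F.map θ = g.1.map (algebraMap k K) * F * (g⁻¹).1.map (algebraMap k K)
  dominant : ∀ P : MvPolynomial (n × n) k, MvPolynomial.aeval (fun ij => F ij.1 ij.2) P = 0 →
    ∀ Y : Matrix n n k, Y.trace = 0 → MvPolynomial.aeval (fun ij => Y ij.1 ij.2) P = 0

/-- The Cayley degree of `SL_n`: the smallest degree `[K : k(F)]` of a dominant `SL_n`-equivariant
rational map `F` from `SL_n` to its Lie algebra, where `K` is the function field of `SL_n` and
`k(F)` is the subfield generated by the entries of `F`. -/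
noncomputable def cayleyDegree (k : Type*) {K n : Type*} [Field k] [Field K] [Algebra k K]
    [Fintype n] [DecidableEq n] (X : Matrix n n K) : Cardinal :=
  sInf {c | ∃ F : Matrix n n K, IsDominantEquivariant k X F ∧
    Module.rank (IntermediateField.adjoin k (Set.range fun ij : n × n => F ij.1 ij.2)) K = c}

end Pool.Agent.helper34.Cay
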