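import Pool.Agent.helper34.Cay.Comm

/-!
# Density arguments
-/

namespace Pool.Agent.helper34.Cay

open MvPolynomial

section Basic

variable {k n : Type*} [Field k] [Fintype n] [DecidableEq n]

/-- the discriminant as a polynomial -/
noncomputable def dscP (k n : Type*) [Field k] [Fintype n] [DecidableEq n] :
    MvPolynomial (n × n) k := dsc (gm k n)

lemma aeval_dscP {A : Type*} [CommRing A] [Algebra k A] (M : Matrix n n A) :
    aeval (ent M) (dscP k n) = dsc M := by
  unfold dscP
  have h := dsc_map ((aeval (ent M) : MvPolynomial (n × n) k →ₐ[k] A) : _ →+* A) (gm k n)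
  have h2 : (gm k n).map ((aeval (ent M) : MvPolynomial (n × n) k →ₐ[k] A) : _ →+* A) = M :=
    gm_map M
  rw [h2] at h
  exact h.symm

/-- projection to trace zero matrices as a substitution -/
noncomputable def tz (k n : Type*) [Field k] [Fintype n] [DecidableEq n] :
    MvPolynomial (n × n) k →ₐ[k] MvPolynomial (n × n) k :=
  aeval (ent (gm k n - (algebraMap k (MvPolynomial (n × n) k) ((Fintype.card n : k)⁻¹) *
    (gm k n).trace) • (1 : Matrix n n (MvPolynomial (n × n) k))))

lemma aeval_tz {A : Type*} [CommRing A] [Algebra k A] (M : Matrix n n A)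
    (P : MvPolynomial (n × n) k) : aeval (ent M) (tz k n P) =
      aeval (ent (M - (algebraMap k A ((Fintype.card n : k)⁻¹) * M.trace) • (1 : Matrix n n A))) P := by
  unfold tz
  rw [← ent_map]
  congr 3
  ext i j
  rw [Matrix.map_apply, Matrix.sub_apply, Matrix.sub_apply, Matrix.smul_apply, Matrix.smul_apply,
    map_sub, smul_eq_mul, smul_eq_mul, map_mul, map_mul, AlgHom.commutes]
  have h1 : (aeval (ent M)) (gm k n i j) = M i j := congrFun (congrFun (gm_map M) i) j
  have h2 : (aeval (ent M)) (gm k n).trace = M.trace := by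
    unfold Matrix.trace
    rw [map_sum]
    refine Finset.sum_congr rfl fun l _ => ?_
    exact congrFun (congrFun (gm_map M) l) l
  have h3 : (aeval (ent M)) ((1 : Matrix n n (MvPolynomial (n × n) k)) i j) =
      (1 : Matrix n n A) i j := by
    rw [Matrix.one_apply, Matrix.one_apply]
    split_ifs
    · exact map_one _
    · exact map_zero _
  rw [h1, h2, h3]

/-- A polynomial vanishing on trace zero matrices over `k` vanishes on all trace zero matrices. -/
lemma vanish_trace [CharZero k] [Nonempty n] {P : MvPolynomial (n × n) k}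
    (h : ∀ Y : Matrix n n k, Y.trace = 0 → aeval (ent Y) P = 0)
    {A : Type*} [CommRing A] [Algebra k A] {M : Matrix n n A} (hM : M.trace = 0) :
    aeval (ent M) P = 0 := by
  have hcard : (Fintype.card n : k) ≠ 0 := Nat.cast_ne_zero.2 Fintype.card_ne_zero
  have h1 : tz k n P = 0 := by
    apply MvPolynomial.funext
    intro x
    rw [map_zero]
    have h2 := aeval_tz (Matrix.of fun i j => x (i, j)) P
    have h3 : (ent (Matrix.of fun i j => x (i, j))) = x := by
      funext ij
      rfl
    rw [h3] at h2
    rw [← MvPolynomial.coe_aeval_eq_eval, RingHom.coe_coe, h2]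
    apply h
    rw [Matrix.trace_sub, Matrix.trace_smul, Matrix.trace_one, smul_eq_mul]
    show _ - (Fintype.card n : k)⁻¹ * _ * _ = 0
    field_simp
    ring
  have h2 := aeval_tz M P
  rw [h1, map_zero, hM, mul_zero, zero_smul, sub_zero] at h2
  exact h2.symm

end Basic

variable {k K n : Type*} [Field k] [Field K] [Algebra k K] [Fintype n] [DecidableEq n]

lemma IsDominantEquivariant.dsc_ne [CharZero k] [Nonempty n] {X F : Matrix n n K}
    (hF : IsDominantEquivariant k X F) : dsc F ≠ 0 := by
  intro h
  obtain ⟨g, hg, hg'⟩ := exists_tracezero_dsc (F := k) (n := n)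
  rw [← aeval_dscP (k := k)] at h
  have h1 := hF.dominant _ h g hg
  apply hg'
  rw [← aeval_dscP (k := k)]
  exact h1

namespace IsFunctionFieldSL

variable {X : Matrix n n K} (hX : IsFunctionFieldSL k X)

include hX

lemma dsc_ne [IsAlgClosed k] [CharZero k] [Nonempty n] : dsc X ≠ 0 := by
  intro h
  obtain ⟨g, hg⟩ := exists_SL_dsc (F := k) (n := n)
  rw [← aeval_dscP (k := k), hX.rel'] at h
  apply hg
  rw [← aeval_dscP (k := k)]
  exact h g

/-- Density of diagonalizable matrices. -/
lemma dense [IsAlgClosed k] [CharZero k] [Nonempty n] {P : MvPolynomial (n × n) k}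
    (h : ∀ g : Matrix.SpecialLinearGroup n k, dsc g.1 ≠ 0 → aeval (ent g.1) P = 0) :
    ∀ g : Matrix.SpecialLinearGroup n k, aeval (ent g.1) P = 0 := by
  have h1 : aeval (ent X) (P * dscP k n) = 0 := by
    rw [hX.rel']
    intro g
    rw [map_mul, aeval_dscP]
    by_cases hg : dsc g.1 = 0
    · rw [hg, mul_zero]
    · rw [h g hg, zero_mul]
  rw [map_mul, aeval_dscP] at h1
  exact (hX.rel' P).1 ((mul_eq_zero.1 h1).resolve_right hX.dsc_ne)

lemma det_eq_one : X.det = 1 := by
  have h1 : aeval (ent X) ((gm k n).det - 1) = 0 := by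
    rw [hX.rel']
    intro g
    rw [map_sub, map_one, AlgHom.map_det]
    have : (gm k n).map (aeval (ent g.1) : _ →ₐ[k] k) = g.1 := gm_map g.1
    rw [AlgHom.mapMatrix_apply, this, g.2, sub_self]
  rw [map_sub, map_one, AlgHom.map_det, AlgHom.mapMatrix_apply, gm_map, sub_eq_zero] at h1
  exact h1

end IsFunctionFieldSL

end Pool.Agent.helper34.Cay
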