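import Pool.Agent.helper34.Cay.Quad

/-!
# Line data: local analysis
-/

namespace Pool.Agent.helper34.Cay

open scoped Classical
open HahnSeries

namespace TameData

variable {k' Ω D : Type*} [Field k'] [NormedField Ω] [Algebra k' Ω] [Group D]
  [MulSemiringAction D Ω] (T : TameData k' Ω D)

include T

lemma om_ne_zero : T.om ≠ 0 := by
  intro h
  have := T.om_pow
  rw [h] at this
  norm_num at this

lemma om_val_add (i j : ZMod 3) : T.om ^ (i + j).val = T.om ^ i.val * T.om ^ j.val := by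
  rw [← _root_.pow_add, ZMod.val_add]
  exact (pow_eq_pow_mod _ T.om_pow).symm

lemma om_val_mul (i j : ZMod 3) : T.om ^ (i * j).val = T.om ^ (i.val * j.val) := by
  rw [ZMod.val_mul]
  exact (pow_eq_pow_mod _ T.om_pow).symm

lemma om_sq_ne : T.om ^ 2 ≠ 1 := by
  intro h
  apply T.om_ne
  have h3 := T.om_pow
  rw [pow_succ, h, one_mul] at h3
  exact h3

lemma om_val_eq_one {i : ZMod 3} (h : T.om ^ i.val = 1) : i = 0 := by
  fin_cases i
  · rfl
  · refine absurd ?_ T.om_ne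
    have h1 : (1 : ZMod 3).val = 1 := rfl
    have h2 : T.om ^ (1 : ZMod 3).val = 1 := h
    rwa [h1, pow_one] at h2
  · exact absurd h T.om_sq_ne

lemma om_val_inj {i j : ZMod 3} (h : T.om ^ i.val = T.om ^ j.val) : i = j := by
  have h1 : T.om ^ (i - j).val = 1 := by
    have h2 : T.om ^ (i - j + j).val = T.om ^ (i - j).val * T.om ^ j.val := T.om_val_add _ _
    rw [sub_add_cancel, h] at h2
    exact (mul_eq_right₀ (pow_ne_zero _ T.om_ne_zero)).1 h2.symm
  exact sub_eq_zero.1 (T.om_val_eq_one h1)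

omit T in
omit [Group D] [MulSemiringAction D Ω] in
lemma algebraMap_inj' {c d : k'} (h : algebraMap k' Ω c = algebraMap k' Ω d) : c = d :=
  (algebraMap k' Ω).injective h

lemma rho_mul (σ τ : D) : T.rho (σ * τ) = T.rho σ + T.rho τ := by
  funext i
  rw [Pi.add_apply]
  apply T.om_val_inj
  rw [T.om_val_add]
  apply algebraMap_inj' (Ω := Ω)
  have h1 := T.smul_al (σ * τ) i
  rw [mul_smul, T.smul_al τ i, smul_mul', T.smul_const, T.smul_al σ i, ← mul_assoc] at h1
  have h2 := mul_right_cancel₀ (T.al_ne i) h1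
  rw [← h2, map_mul, mul_comm]

lemma chi_oneL (σ : D) : T.chi (1 : Ω) σ = 1 := by
  unfold chi
  rw [smul_one, div_one, T.res_one]

lemma om_sum : 1 + T.om + T.om ^ 2 = 0 := by
  have h : (T.om - 1) * (1 + T.om + T.om ^ 2) = 0 := by
    have := T.om_pow
    linear_combination this
  rcases mul_eq_zero.1 h with h | h
  · exact absurd (sub_eq_zero.1 h) T.om_ne
  · exact h

/-- The constants `c_i`. -/
noncomputable def cf (π : Fin 3) (s : Finset (ZMod 3)) (i : ZMod 3) : Ω :=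
  ∑ t ∈ s, T.al π ^ t.val * algebraMap k' Ω (T.om ^ (i * t).val)

lemma smul_cf (σ : D) (π : Fin 3) (s : Finset (ZMod 3)) (i : ZMod 3) :
    σ • T.cf π s i = T.cf π s (i + T.rho σ π) := by
  unfold cf
  rw [Finset.smul_sum]
  refine Finset.sum_congr rfl fun t _ => ?_
  rw [smul_mul', T.smul_const, smul_pow', T.smul_al, add_mul, T.om_val_add, map_mul,
    T.om_val_mul (T.rho σ π) t, mul_pow, ← map_pow, ← pow_mul]
  ring

end TameData

variable {k' Ω D : Type*} [Field k'] [NormedField Ω] [Algebra k' Ω] [Group D]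
  [MulSemiringAction D Ω]

/-- Data obtained from restricting a degree two map to a line. -/
structure LineData (T : TameData k' Ω D) (Δ : RatFunc Ω) where
  inv : ∀ σ : D, hat (TameData.act Ω σ) Δ = Δ
  x : H → Q Δ
  prod_x : ∏ h, x h = 1
  x_inv : ∀ (σ : D) (h : H), hatQ (TameData.act Ω σ) (inv σ) (x h) = x (h + T.rho σ)

namespace LineData

open TameData

variable {T : TameData k' Ω D} {Δ : RatFunc Ω} (L : LineData T Δ)

/-- partial products -/
noncomputable def XX (π : Fin 3) (i : ZMod 3) : Q Δ :=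
  ∏ h ∈ Finset.univ.filter (fun h : H => h π = i), L.x h

lemma XX_prod (π : Fin 3) : L.XX π 0 * L.XX π 1 * L.XX π 2 = 1 := by
  have h1 : ∏ i : ZMod 3, L.XX π i = ∏ h, L.x h := by
    unfold XX
    exact Finset.prod_fiberwise _ _ _
  rw [← L.prod_x, ← h1]
  exact (Fin.prod_univ_three (fun i : Fin 3 => L.XX π i)).symm

lemma XX_inv (σ : D) (π : Fin 3) (i : ZMod 3) :
    hatQ (act Ω σ) (L.inv σ) (L.XX π i) = L.XX π (i + T.rho σ π) := by
  unfold XX
  rw [map_prod]
  refine Finset.prod_bij' (fun h _ => h + T.rho σ) (fun h _ => h - T.rho σ) ?_ ?_ ?_ ?_ ?_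
  · intro h hh
    rw [Finset.mem_filter] at hh ⊢
    exact ⟨Finset.mem_univ _, by rw [Pi.add_apply, hh.2]⟩
  · intro h hh
    rw [Finset.mem_filter] at hh ⊢
    exact ⟨Finset.mem_univ _, by rw [Pi.sub_apply, hh.2, add_sub_cancel_right]⟩
  · intro h _
    exact add_sub_cancel_right h _
  · intro h _
    exact sub_add_cancel h _
  · intro h _
    exact L.x_inv σ h

/-- constants as elements of the quadratic algebra -/
noncomputable def cc (_L : LineData T Δ) (π : Fin 3) (s : Finset (ZMod 3)) (i : ZMod 3) : Q Δ :=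
  cQ Δ (T.cf π s i)

lemma cc_inv (σ : D) (π : Fin 3) (s : Finset (ZMod 3)) (i : ZMod 3) :
    hatQ (act Ω σ) (L.inv σ) (L.cc π s i) = L.cc π s (i + T.rho σ π) := by
  unfold cc
  rw [hatQ_cQ, act_apply, T.smul_cf]

/-- the elements `w_i` -/
noncomputable def W (π : Fin 3) (s : Finset (ZMod 3)) (i : ZMod 3) : Q Δ :=
  ww (L.XX π) (L.cc π s) i

/-- the element `n` -/
noncomputable def N (π : Fin 3) (s : Finset (ZMod 3)) : Q Δ := nn (L.XX π) (L.cc π s)

lemma W_succ (π : Fin 3) (s : Finset (ZMod 3)) (i : ZMod 3) :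
    L.W π s (i + 1) = L.XX π i * L.W π s i := ww_succ _ _ (L.XX_prod π) i

lemma N_eq (π : Fin 3) (s : Finset (ZMod 3)) :
    L.N π s = L.W π s 0 ^ 3 * L.XX π 0 ^ 2 * L.XX π 1 := nn_eq _ _ (L.XX_prod π)

lemma W_inv (σ : D) (π : Fin 3) (s : Finset (ZMod 3)) (i : ZMod 3) :
    hatQ (act Ω σ) (L.inv σ) (L.W π s i) = L.W π s (i + T.rho σ π) := by
  unfold W
  rw [ww_map]
  simp only [L.XX_inv σ, L.cc_inv σ]
  exact ww_shift _ _ _ _

lemma N_inv (σ : D) (π : Fin 3) (s : Finset (ZMod 3)) :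
    hatQ (act Ω σ) (L.inv σ) (L.N π s) = L.N π s := by
  unfold N
  rw [nn_map]
  simp only [L.XX_inv σ, L.cc_inv σ]
  exact nn_shift _ _ _

lemma isUnit_x (h : H) : IsUnit (L.x h) := by
  have h1 := L.prod_x
  rw [← Finset.mul_prod_erase Finset.univ _ (Finset.mem_univ h)] at h1
  exact IsUnit.of_mul_eq_one _ h1

lemma isUnit_XX (π : Fin 3) (i : ZMod 3) : IsUnit (L.XX π i) := by
  unfold XX
  rw [IsUnit.prod_iff]
  exact fun h _ => L.isUnit_x h

lemma norm_N_ne {π : Fin 3} {s : Finset (ZMod 3)}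
    (h : QuadraticAlgebra.norm (L.W π s 0) ≠ 0) : QuadraticAlgebra.norm (L.N π s) ≠ 0 := by
  rw [L.N_eq, map_mul, map_mul, map_pow, map_pow]
  have h0 : ∀ i, QuadraticAlgebra.norm (L.XX π i) ≠ 0 := fun i =>
    (QuadraticAlgebra.isUnit_iff_norm_isUnit.1 (L.isUnit_XX π i)).ne_zero
  exact mul_ne_zero (mul_ne_zero (pow_ne_zero _ h) (pow_ne_zero _ (h0 0))) (h0 1)

variable [IsAlgClosed Ω]

section Local

variable {r : Option Ω} {δ : HahnSeries ℤ Ω} (hδ : δ ^ 2 = phi r Δ)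

lemma ev_x_ne (h : H) : ev r δ hδ (L.x h) ≠ 0 := ((L.isUnit_x h).map (ev r δ hδ)).ne_zero

lemma ev_XX_ne (π : Fin 3) (i : ZMod 3) : ev r δ hδ (L.XX π i) ≠ 0 :=
  ((L.isUnit_XX π i).map (ev r δ hδ)).ne_zero

lemma order_XX (π : Fin 3) (i : ZMod 3) : (ev r δ hδ (L.XX π i)).order =
    fib (fun h => (ev r δ hδ (L.x h)).order) π i := by
  unfold XX fib
  rw [map_prod, order_prod' _ _ fun h _ => L.ev_x_ne hδ h]

lemma order_N {π : Fin 3} {s : Finset (ZMod 3)}
    (hW : QuadraticAlgebra.norm (L.W π s 0) ≠ 0) :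
    (ev r δ hδ (L.N π s)).order = 3 * (ev r δ hδ (L.W π s 0)).order +
      (2 * fib (fun h => (ev r δ hδ (L.x h)).order) π 0 +
        fib (fun h => (ev r δ hδ (L.x h)).order) π 1) := by
  have hW' := ev_ne_zero r δ hδ hW
  rw [L.N_eq, map_mul, map_mul, map_pow, map_pow,
    order_mul (mul_ne_zero (pow_ne_zero _ hW') (pow_ne_zero _ (L.ev_XX_ne hδ π 0)))
      (L.ev_XX_ne hδ π 1),
    order_mul (pow_ne_zero _ hW') (pow_ne_zero _ (L.ev_XX_ne hδ π 0)), order_pow, order_pow,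
    L.order_XX, L.order_XX]
  simp only [nsmul_eq_mul]
  push_cast
  ring

lemma lmap_x {σ : D} (hr : r.map (act Ω σ) = r) (hf : lmap (act Ω σ) δ = δ) (h : H) :
    lmap (act Ω σ) (ev r δ hδ (L.x h)) = ev r δ hδ (L.x (h + T.rho σ)) := by
  rw [lmap_ev_fix _ (L.inv σ) hr hδ hf, L.x_inv]

/-- If the stabiliser of a place moves the three roots then orders are divisible by three. -/
lemma order_three {σ : D} (hr : r.map (act Ω σ) = r) (hf : lmap (act Ω σ) δ = δ)
    (hρ : T.rho σ ≠ 0) {π : Fin 3} {s : Finset (ZMod 3)}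
    (hW : QuadraticAlgebra.norm (L.W π s 0) ≠ 0) :
    (3 : ℤ) ∣ (ev r δ hδ (L.N π s)).order := by
  rw [L.order_N hδ hW]
  refine dvd_add (dvd_mul_right _ _) (three_dvd_order _ hρ ?_ π)
  intro h
  rw [← L.lmap_x hδ hr hf, lmap_order]

end Local

section EndsSec

variable {r : Option Ω} {δ : HahnSeries ℤ Ω} (hδ : δ ^ 2 = phi r Δ)
  (hr : ∀ σ : D, r.map (act Ω σ) = r) (hf : ∀ σ : D, lmap (act Ω σ) δ = δ)

include hr hf

lemma ends_order (h : H) : (ev r δ hδ (L.x h)).order = 0 := by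
  have h1 : ∀ h, (ev r δ hδ (L.x h)).order = (ev r δ hδ (L.x 0)).order := by
    intro h
    obtain ⟨σ, hσ⟩ := T.rho_surj h
    have := L.lmap_x hδ (hr σ) (hf σ) 0
    rw [hσ, zero_add] at this
    rw [← this, lmap_order]
  have h2 : (∏ h, ev r δ hδ (L.x h)).order = 0 := by
    rw [← map_prod, L.prod_x, map_one, order_one]
  rw [order_prod' _ _ fun h _ => L.ev_x_ne hδ h, Finset.sum_congr rfl fun h _ => h1 h,
    Finset.sum_const, nsmul_eq_mul] at h2
  rw [h1]
  have h3 : ((Finset.univ : Finset H).card : ℤ) ≠ 0 := by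
    rw [Finset.card_univ]
    exact_mod_cast Fintype.card_ne_zero
  rcases mul_eq_zero.1 h2 with h4 | h4
  · exact absurd h4 h3
  · exact h4

lemma smul_lead (σ : D) (h : H) : σ • (ev r δ hδ (L.x h)).leadingCoeff =
    (ev r δ hδ (L.x (h + T.rho σ))).leadingCoeff := by
  rw [← L.lmap_x hδ (hr σ) (hf σ), lmap_leadingCoeff, act_apply]

lemma ends_norm (h : H) : ‖(ev r δ hδ (L.x h)).leadingCoeff‖ = 1 := by
  have h1 : ∀ h, ‖(ev r δ hδ (L.x h)).leadingCoeff‖ = ‖(ev r δ hδ (L.x 0)).leadingCoeff‖ := by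
    intro h
    obtain ⟨σ, hσ⟩ := T.rho_surj h
    have := L.smul_lead hδ hr hf σ 0
    rw [hσ, zero_add] at this
    rw [← this, T.norm_smul]
  have h2 : ‖∏ h, (ev r δ hδ (L.x h)).leadingCoeff‖ = 1 := by
    rw [← leadingCoeff_prod', ← map_prod, L.prod_x, map_one, leadingCoeff_one, norm_one]
  rw [norm_prod, Finset.prod_congr rfl fun h _ => h1 h, Finset.prod_const] at h2
  rw [h1]
  exact (pow_eq_one_iff_of_nonneg (norm_nonneg _) (by
    rw [Finset.card_univ]; exact Fintype.card_ne_zero)).1 h2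

lemma ends_res (h : H) : T.res (ev r δ hδ (L.x h)).leadingCoeff =
    T.res (ev r δ hδ (L.x 0)).leadingCoeff := by
  obtain ⟨σ, hσ⟩ := T.rho_surj h
  have := L.smul_lead hδ hr hf σ 0
  rw [hσ, zero_add] at this
  rw [← this, T.res_smul σ (L.ends_norm hδ hr hf 0).le]

omit [IsAlgClosed Ω] hr hf in
lemma card_fib (π : Fin 3) (i : ZMod 3) :
    (Finset.univ.filter (fun h : H => h π = i)).card = 9 := by
  revert π i
  decide

lemma norm_lead_XX (π : Fin 3) (i : ZMod 3) : ‖(ev r δ hδ (L.XX π i)).leadingCoeff‖ = 1 := by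
  unfold XX
  rw [map_prod, leadingCoeff_prod', norm_prod]
  exact Finset.prod_eq_one fun h _ => L.ends_norm hδ hr hf h

lemma res_lead_XX (π : Fin 3) (i : ZMod 3) : T.res (ev r δ hδ (L.XX π i)).leadingCoeff =
    T.res (ev r δ hδ (L.x 0)).leadingCoeff ^ 9 := by
  unfold XX
  rw [map_prod, leadingCoeff_prod',
    (T.res_prod _ _ fun h _ => (L.ends_norm hδ hr hf h).le).1,
    Finset.prod_congr rfl fun h _ => L.ends_res hδ hr hf h, Finset.prod_const, card_fib]

lemma order_XX_zero (π : Fin 3) (i : ZMod 3) : (ev r δ hδ (L.XX π i)).order = 0 := by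
  rw [L.order_XX]
  exact Finset.sum_eq_zero fun h _ => L.ends_order hδ hr hf h

/-- the character of the leading coefficient of `w_0` -/
lemma chi_lead {π : Fin 3} {s : Finset (ZMod 3)}
    (hW : QuadraticAlgebra.norm (L.W π s 0) ≠ 0) (j : ZMod 3)
    (hj : T.res (ev r δ hδ (L.x 0)).leadingCoeff ^ 9 = T.om ^ j.val) (σ : D) :
    T.chi (ev r δ hδ (L.W π s 0)).leadingCoeff σ = T.om ^ (j.val * (T.rho σ π).val) := by
  have hW' := ev_ne_zero r δ hδ hW
  have hz : (ev r δ hδ (L.W π s 0)).leadingCoeff ≠ 0 := leadingCoeff_ne_zero.2 hW'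
  have h1 : σ • (ev r δ hδ (L.W π s 0)).leadingCoeff =
      (ev r δ hδ (L.W π s (T.rho σ π))).leadingCoeff := by
    have := lmap_ev_fix _ (L.inv σ) (hr σ) hδ (hf σ) (L.W π s 0)
    rw [L.W_inv, zero_add] at this
    rw [← this, lmap_leadingCoeff, act_apply]
  have hs : ∀ i, (ev r δ hδ (L.W π s (i + 1))).leadingCoeff =
      (ev r δ hδ (L.XX π i)).leadingCoeff * (ev r δ hδ (L.W π s i)).leadingCoeff := by
    intro i
    rw [L.W_succ, map_mul, leadingCoeff_mul]
  have hres : ∀ i, T.res (ev r δ hδ (L.XX π i)).leadingCoeff = T.om ^ j.val := by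
    intro i
    rw [L.res_lead_XX hδ hr hf, hj]
  have hn := L.norm_lead_XX hδ hr hf π
  unfold chi
  rw [h1]
  generalize T.rho σ π = i
  fin_cases i
  · show T.res ((ev r δ hδ (L.W π s 0)).leadingCoeff / _) = T.om ^ (j.val * 0)
    rw [div_self hz, T.res_one, mul_zero, pow_zero]
  · show T.res ((ev r δ hδ (L.W π s (0 + 1))).leadingCoeff / _) = T.om ^ (j.val * 1)
    rw [hs, mul_div_assoc, div_self hz, mul_one, mul_one, hres]
  · show T.res ((ev r δ hδ (L.W π s (0 + 1 + 1))).leadingCoeff / _) = T.om ^ (j.val * 2)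
    rw [hs, hs, ← mul_assoc, mul_div_assoc, div_self hz, mul_one,
      T.res_mul (hn _).le (hn _).le, hres, hres]
    ring

omit [IsAlgClosed Ω] hr hf in
lemma va_of_norm_one {z : Ω} (h : ‖z‖ = 1) : T.va z = 0 := by
  unfold va
  rw [h, Real.log_one, map_zero]

omit [IsAlgClosed Ω] hr hf in
lemma vc_of_norm_one {z : Ω} (h : ‖z‖ = 1) : T.vc z = 0 := by
  unfold vc
  rw [h, Real.log_one, map_zero]

/-- The ends lemma. -/
lemma ends [CharZero k'] {π : Fin 3} {s : Finset (ZMod 3)}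
    (hW : QuadraticAlgebra.norm (L.W π s 0) ≠ 0) (j : ZMod 3)
    (hj : T.res (ev r δ hδ (L.x 0)).leadingCoeff ^ 9 = T.om ^ j.val) :
    (∃ m : ℤ, T.va (ev r δ hδ (L.N π s)).leadingCoeff = (if π = 0 then (j.val : ℚ) else 0) + 3 * m) ∧
    (∃ m : ℤ, T.vc (ev r δ hδ (L.N π s)).leadingCoeff =
      (if π = 2 then (j.val : ℚ) else 0) + 3 * m) := by
  have hW' := ev_ne_zero r δ hδ hW
  have hz : (ev r δ hδ (L.W π s 0)).leadingCoeff ≠ 0 := leadingCoeff_ne_zero.2 hW'
  have hn := L.norm_lead_XX hδ hr hf π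
  have hn0 : ∀ i, (ev r δ hδ (L.XX π i)).leadingCoeff ≠ 0 := fun i =>
    leadingCoeff_ne_zero.2 (L.ev_XX_ne hδ π i)
  have hal : T.al π ^ (2 * j.val) ≠ 0 := pow_ne_zero _ (T.al_ne π)
  have hchi : ∀ σ, T.chi ((ev r δ hδ (L.W π s 0)).leadingCoeff * T.al π ^ (2 * j.val)) σ = 1 := by
    intro σ
    rw [T.chi_mul hz hal, L.chi_lead hδ hr hf hW j hj]
    have h2 : ∀ n : ℕ, T.chi (T.al π ^ n) σ = (T.om ^ (T.rho σ π).val) ^ n := by
      intro n
      induction n with
      | zero => rw [pow_zero, pow_zero]; exact T.chi_oneL σ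
      | succ n ih => rw [pow_succ, T.chi_mul (pow_ne_zero _ (T.al_ne π)) (T.al_ne π), ih, T.chi_al,
          pow_succ]
    rw [h2, ← pow_mul, ← _root_.pow_add]
    have h3 : j.val * (T.rho σ π).val + (T.rho σ π).val * (2 * j.val) =
        3 * (j.val * (T.rho σ π).val) := by ring
    rw [h3, pow_mul, T.om_pow, one_pow]
  obtain ⟨⟨a, ha⟩, ⟨c, hc⟩⟩ := T.int_of_chi (mul_ne_zero hz hal) hchi
  rw [T.va_mul hz hal, T.va_pow] at ha
  rw [T.vc_mul hz hal, T.vc_pow] at hc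
  have hva : T.va (T.al π) = if π = 0 then 1 / 3 else 0 := T.pa_al π
  have hvc : T.vc (T.al π) = if π = 2 then 1 / 3 else 0 := T.pc_al π
  have e1 : (ev r δ hδ (L.N π s)).leadingCoeff = (ev r δ hδ (L.W π s 0)).leadingCoeff ^ 3 *
      (ev r δ hδ (L.XX π 0)).leadingCoeff ^ 2 * (ev r δ hδ (L.XX π 1)).leadingCoeff := by
    rw [L.N_eq, map_mul, map_mul, map_pow, map_pow, leadingCoeff_mul, leadingCoeff_mul,
      pow_three', pow_two, pow_three', pow_two, leadingCoeff_mul, leadingCoeff_mul,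
      leadingCoeff_mul]
  constructor
  · rw [e1, T.va_mul (mul_ne_zero (pow_ne_zero _ hz) (pow_ne_zero _ (hn0 0))) (hn0 1),
      T.va_mul (pow_ne_zero _ hz) (pow_ne_zero _ (hn0 0)), T.va_pow, T.va_pow,
      va_of_norm_one (hn 0), va_of_norm_one (hn 1)]
    rw [hva] at ha
    by_cases h : π = 0
    · rw [if_pos h] at ha ⊢
      refine ⟨a - j.val, ?_⟩
      push_cast at ha ⊢
      linarith
    · rw [if_neg h] at ha ⊢
      refine ⟨a, ?_⟩
      push_cast at ha ⊢
      linarith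
  · rw [e1, T.vc_mul (mul_ne_zero (pow_ne_zero _ hz) (pow_ne_zero _ (hn0 0))) (hn0 1),
      T.vc_mul (pow_ne_zero _ hz) (pow_ne_zero _ (hn0 0)), T.vc_pow, T.vc_pow,
      vc_of_norm_one (hn 0), vc_of_norm_one (hn 1)]
    rw [hvc] at hc
    by_cases h : π = 2
    · rw [if_pos h] at hc ⊢
      refine ⟨c - j.val, ?_⟩
      push_cast at hc ⊢
      linarith
    · rw [if_neg h] at hc ⊢
      refine ⟨c, ?_⟩
      push_cast at hc ⊢
      linarith

end EndsSec

end LineData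

end Pool.Agent.helper34.Cay
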