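import Pool.Agent.helper34.Cay.Ends

/-!
# Equivariant algebraically independent elements
-/

namespace Pool.Agent.helper34.Cay

open scoped Classical

/-- the pairing on `(ℤ/3)^3` -/
def dot (χ h : H) : ZMod 3 := ∑ i, χ i * h i

lemma dot_add_left (χ χ' h : H) : dot (χ + χ') h = dot χ h + dot χ' h := by
  unfold dot
  rw [← Finset.sum_add_distrib]
  exact Finset.sum_congr rfl fun i _ => by rw [Pi.add_apply]; ring

lemma dot_add_right (χ h h' : H) : dot χ (h + h') = dot χ h + dot χ h' := by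
  unfold dot
  rw [← Finset.sum_add_distrib]
  exact Finset.sum_congr rfl fun i _ => by rw [Pi.add_apply]; ring

lemma dot_neg_right (χ h : H) : dot χ (-h) = -dot χ h := by
  unfold dot
  rw [← Finset.sum_neg_distrib]
  exact Finset.sum_congr rfl fun i _ => by rw [Pi.neg_apply]; ring

lemma dot_zero_left (h : H) : dot 0 h = 0 := by
  unfold dot
  simp

lemma dot_zero_right (h : H) : dot h 0 = 0 := by
  unfold dot
  simp

lemma dot_single (i : Fin 3) (h : H) : dot (Pi.single i 1) h = h i := by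
  unfold dot
  rw [Finset.sum_eq_single i]
  · rw [Pi.single_eq_same, one_mul]
  · intro j _ hj
    rw [Pi.single_eq_of_ne hj, zero_mul]
  · intro h; exact absurd (Finset.mem_univ _) h

namespace TameData

variable {k' Ω D : Type*} [Field k'] [NormedField Ω] [Algebra k' Ω] [Group D]
  [MulSemiringAction D Ω] (T : TameData k' Ω D)

include T

lemma om_val_sum {ι : Type*} (s : Finset ι) (f : ι → ZMod 3) :
    T.om ^ (∑ i ∈ s, f i).val = ∏ i ∈ s, T.om ^ (f i).val := by
  induction s using Finset.induction_on with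
  | empty => simp
  | insert i s hi ih => rw [Finset.sum_insert hi, Finset.prod_insert hi, T.om_val_add, ih]

lemma orth (d : H) : ∑ χ : H, T.om ^ (dot χ d).val = if d = 0 then 27 else 0 := by
  split_ifs with hd
  · subst hd
    have h1 : ∀ χ : H, T.om ^ (dot χ 0).val = 1 := by
      intro χ
      rw [dot_zero_right]
      simp
    rw [Finset.sum_congr rfl fun χ _ => h1 χ, Finset.sum_const, Finset.card_univ]
    have : Fintype.card H = 27 := by decide
    rw [this]
    simp
  · obtain ⟨i, hi⟩ := Function.ne_iff.1 hd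
    have hi' : d i ≠ 0 := hi
    set S := ∑ χ : H, T.om ^ (dot χ d).val with hS
    have h1 : S = T.om ^ (d i).val * S := by
      conv_lhs => rw [hS, ← Equiv.sum_comp (Equiv.addRight (Pi.single i (1 : ZMod 3) : H))]
      rw [hS, Finset.mul_sum]
      refine Finset.sum_congr rfl fun χ _ => ?_
      rw [Equiv.coe_addRight, dot_add_left, dot_single, T.om_val_add, mul_comm]
    have h2 : (1 - T.om ^ (d i).val) * S = 0 := by linear_combination h1
    rcases mul_eq_zero.1 h2 with h3 | h3
    · exact absurd (T.om_val_eq_one (sub_eq_zero.1 h3).symm) hi'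
    · exact h3

/-- monomials -/
noncomputable def mm (χ : H) : Ω := ∏ i, T.al i ^ (χ i).val

lemma mm_zero : T.mm 0 = 1 := by
  unfold mm
  simp

lemma smul_mm (σ : D) (χ : H) :
    σ • T.mm χ = algebraMap k' Ω (T.om ^ (dot χ (T.rho σ)).val) * T.mm χ := by
  unfold mm dot
  rw [T.om_val_sum, map_prod, ← Finset.prod_mul_distrib]
  have h1 : σ • ∏ i, T.al i ^ (χ i).val = ∏ i, σ • (T.al i ^ (χ i).val) := by
    have := map_prod (MulSemiringAction.toRingHom D Ω σ) (fun i => T.al i ^ (χ i).val) Finset.univ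
    exact this
  rw [h1]
  refine Finset.prod_congr rfl fun i _ => ?_
  rw [smul_pow', T.smul_al, mul_pow, ← map_pow, ← pow_mul, T.om_val_mul, mul_comm (χ i).val]

lemma norm_mm_lt (hal : ∀ i, ‖T.al i‖ < 1) {χ : H} (hχ : χ ≠ 0) : ‖T.mm χ‖ < 1 := by
  unfold mm
  rw [norm_prod]
  obtain ⟨i, hi⟩ := Function.ne_iff.1 hχ
  have hi' : χ i ≠ 0 := hi
  have h0 : (χ i).val ≠ 0 := fun h => hi' ((ZMod.val_eq_zero _).1 h)
  have h1 : ∀ j, ‖T.al j ^ (χ j).val‖ ≤ 1 := by
    intro j
    rw [norm_pow]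
    exact pow_le_one₀ (norm_nonneg _) (hal j).le
  rw [← Finset.mul_prod_erase Finset.univ _ (Finset.mem_univ i)]
  have h2 : ∏ j ∈ Finset.univ.erase i, ‖T.al j ^ (χ j).val‖ ≤ 1 :=
    Finset.prod_le_one (fun j _ => norm_nonneg _) fun j _ => h1 j
  calc _ ≤ ‖T.al i ^ (χ i).val‖ * 1 := by gcongr
    _ < 1 := by rw [mul_one, norm_pow]; exact pow_lt_one₀ (norm_nonneg _) (hal i) h0

variable {J : Type*} (μ : J × H → k')

/-- Fourier coefficients -/
noncomputable def lam (j : J) (χ : H) : k' :=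
  (27 : k')⁻¹ * ∑ h, T.om ^ (-dot χ h).val * μ (j, h)

/-- the equivariant elements -/
noncomputable def eps (p : J × H) : Ω :=
  ∑ χ : H, algebraMap k' Ω (T.lam μ p.1 χ * T.om ^ (dot χ p.2).val) * T.mm χ

lemma smul_eps (σ : D) (j : J) (h : H) : σ • T.eps μ (j, h) = T.eps μ (j, h + T.rho σ) := by
  unfold eps
  rw [Finset.smul_sum]
  refine Finset.sum_congr rfl fun χ _ => ?_
  rw [smul_mul', T.smul_const, T.smul_mm, dot_add_right, T.om_val_add]
  simp only [map_mul]
  ring

lemma eps_sub_lt (hal : ∀ i, ‖T.al i‖ < 1) (p : J × H) :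
    ‖T.eps μ p - algebraMap k' Ω (T.lam μ p.1 0)‖ < 1 := by
  have h1 : T.eps μ p - algebraMap k' Ω (T.lam μ p.1 0) =
      ∑ χ ∈ Finset.univ.erase (0 : H),
        algebraMap k' Ω (T.lam μ p.1 χ * T.om ^ (dot χ p.2).val) * T.mm χ := by
    unfold eps
    rw [← Finset.add_sum_erase Finset.univ _ (Finset.mem_univ (0 : H)), dot_zero_left, T.mm_zero]
    simp
  rw [h1]
  refine T.norm_sum_lt _ _ zero_lt_one fun χ hχ => ?_
  rw [norm_mul]
  have h2 := T.norm_mm_lt hal (Finset.ne_of_mem_erase hχ)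
  calc _ ≤ 1 * ‖T.mm χ‖ := by
        gcongr
        exact T.norm_const_le _
    _ < 1 := by rw [one_mul]; exact h2

/-- the value of the Fourier sum at `1` -/
lemma fourier [CharZero k'] (p : J × H) :
    ∑ χ : H, T.lam μ p.1 χ * T.om ^ (dot χ p.2).val = μ p := by
  unfold lam
  have h1 : ∀ χ : H, (27 : k')⁻¹ * (∑ h, T.om ^ (-dot χ h).val * μ (p.1, h)) *
      T.om ^ (dot χ p.2).val =
      (27 : k')⁻¹ * ∑ h, T.om ^ (dot χ (p.2 - h)).val * μ (p.1, h) := by
    intro χ
    rw [mul_assoc, Finset.sum_mul]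
    congr 1
    refine Finset.sum_congr rfl fun h _ => ?_
    rw [sub_eq_add_neg, dot_add_right, dot_neg_right, T.om_val_add]
    ring
  rw [Finset.sum_congr rfl fun χ _ => h1 χ, ← Finset.mul_sum, Finset.sum_comm]
  have h2 : ∀ h : H, ∑ χ : H, T.om ^ (dot χ (p.2 - h)).val * μ (p.1, h) =
      if h = p.2 then 27 * μ (p.1, h) else 0 := by
    intro h
    rw [← Finset.sum_mul, T.orth]
    by_cases hh : h = p.2
    · rw [if_pos hh, if_pos (by rw [hh, sub_self])]
    · rw [if_neg hh, if_neg (fun h' => hh (sub_eq_zero.1 h').symm), zero_mul]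
  rw [Finset.sum_congr rfl fun h _ => h2 h, Finset.sum_ite_eq' Finset.univ p.2, if_pos (Finset.mem_univ _)]
  rw [← mul_assoc, inv_mul_cancel₀ (by norm_num), one_mul]

/-- polynomials in the cube roots have no relations -/
lemma aeval_al_injective
    (hind : ∀ m n : Fin 3 → ℕ, ∏ i, ‖T.al i‖ ^ m i = ∏ i, ‖T.al i‖ ^ n i → m = n) :
    Function.Injective (MvPolynomial.aeval T.al : MvPolynomial (Fin 3) k' →ₐ[k'] Ω) := by
  rw [injective_iff_map_eq_zero]
  intro P hP
  by_contra hne
  let N : (Fin 3 →₀ ℕ) → ℝ := fun m => ∏ i, ‖T.al i‖ ^ m i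
  have hNpos : ∀ m, 0 < N m := fun m =>
    Finset.prod_pos fun i _ => pow_pos (norm_pos_iff.2 (T.al_ne i)) _
  have hNinj : ∀ m n, N m = N n → m = n := by
    intro m n h
    have := hind m n h
    exact DFunLike.coe_injective this
  obtain ⟨m0, hm0, hmax⟩ := Finset.exists_max_image P.support N
    (MvPolynomial.support_nonempty.2 hne)
  have hsum : MvPolynomial.aeval T.al P =
      ∑ m ∈ P.support, algebraMap k' Ω (P.coeff m) * ∏ i, T.al i ^ m i := by
    rw [MvPolynomial.aeval_def, MvPolynomial.eval₂_eq']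
  have hterm : ∀ m ∈ P.support, ‖algebraMap k' Ω (P.coeff m) * ∏ i, T.al i ^ m i‖ = N m := by
    intro m hm
    rw [norm_mul, T.norm_const _ (MvPolynomial.mem_support_iff.1 hm), one_mul, norm_prod]
    exact Finset.prod_congr rfl fun i _ => norm_pow _ _
  rw [hP, ← Finset.add_sum_erase _ _ hm0] at hsum
  have hlt : ‖∑ m ∈ P.support.erase m0, algebraMap k' Ω (P.coeff m) * ∏ i, T.al i ^ m i‖ < N m0 := by
    refine T.norm_sum_lt _ _ (hNpos m0) fun m hm => ?_
    rw [Finset.mem_erase] at hm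
    rw [hterm m hm.2]
    exact lt_of_le_of_ne (hmax m hm.2) fun h => hm.1 (hNinj _ _ h)
  have h1 : algebraMap k' Ω (P.coeff m0) * ∏ i, T.al i ^ m0 i =
      -∑ m ∈ P.support.erase m0, algebraMap k' Ω (P.coeff m) * ∏ i, T.al i ^ m i :=
    eq_neg_of_add_eq_zero_left hsum.symm
  rw [← norm_neg, ← h1, hterm m0 hm0] at hlt
  exact lt_irrefl _ hlt

/-- the polynomial version of `eps` -/
noncomputable def epsP (p : J × H) : MvPolynomial (Fin 3) k' :=
  ∑ χ : H, MvPolynomial.C (T.lam μ p.1 χ * T.om ^ (dot χ p.2).val) *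
    ∏ i, MvPolynomial.X i ^ (χ i).val

lemma aeval_epsP (p : J × H) : MvPolynomial.aeval T.al (T.epsP μ p) = T.eps μ p := by
  unfold epsP eps mm
  rw [map_sum]
  refine Finset.sum_congr rfl fun χ _ => ?_
  rw [map_mul, MvPolynomial.aeval_C, map_prod]
  congr 1
  refine Finset.prod_congr rfl fun i _ => ?_
  rw [map_pow, MvPolynomial.aeval_X]

lemma eval_epsP [CharZero k'] (p : J × H) :
    MvPolynomial.aeval (fun _ => (1 : k')) (T.epsP μ p) = μ p := by
  rw [← T.fourier μ p]
  unfold epsP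
  rw [map_sum]
  refine Finset.sum_congr rfl fun χ _ => ?_
  rw [map_mul, MvPolynomial.aeval_C, map_prod]
  simp

/-- the elements are algebraically independent -/
theorem eps_injective [CharZero k'] {k : Type*} [Field k] [Algebra k k'] [Algebra k Ω]
    [IsScalarTower k k' Ω]
    (hind : ∀ m n : Fin 3 → ℕ, ∏ i, ‖T.al i‖ ^ m i = ∏ i, ‖T.al i‖ ^ n i → m = n)
    (hμ : Function.Injective (MvPolynomial.aeval μ : MvPolynomial (J × H) k →ₐ[k] k')) :
    Function.Injective (MvPolynomial.aeval (T.eps μ) : MvPolynomial (J × H) k →ₐ[k] Ω) := by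
  rw [injective_iff_map_eq_zero]
  intro P hP
  have h1 : MvPolynomial.aeval (T.eps μ) P =
      MvPolynomial.aeval T.al (MvPolynomial.aeval (T.epsP μ) P) := by
    have h2 : (MvPolynomial.aeval (T.eps μ) : MvPolynomial (J × H) k →ₐ[k] Ω) =
        ((MvPolynomial.aeval T.al : MvPolynomial (Fin 3) k' →ₐ[k'] Ω).restrictScalars k).comp
          (MvPolynomial.aeval (T.epsP μ)) := by
      apply MvPolynomial.algHom_ext
      intro p
      rw [AlgHom.comp_apply, MvPolynomial.aeval_X, MvPolynomial.aeval_X]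
      exact (T.aeval_epsP μ p).symm
    exact DFunLike.congr_fun h2 P
  rw [h1] at hP
  have h3 : MvPolynomial.aeval (T.epsP μ) P = 0 :=
    T.aeval_al_injective hind (by rw [hP, map_zero])
  apply hμ
  rw [map_zero]
  have h4 : MvPolynomial.aeval μ P =
      MvPolynomial.aeval (fun _ => (1 : k')) (MvPolynomial.aeval (T.epsP μ) P) := by
    have h2 : (MvPolynomial.aeval μ : MvPolynomial (J × H) k →ₐ[k] k') =
        ((MvPolynomial.aeval (fun _ => (1 : k')) :
          MvPolynomial (Fin 3) k' →ₐ[k'] k').restrictScalars k).comp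
          (MvPolynomial.aeval (T.epsP μ)) := by
      apply MvPolynomial.algHom_ext
      intro p
      rw [AlgHom.comp_apply, MvPolynomial.aeval_X, MvPolynomial.aeval_X]
      exact (T.eval_epsP μ p).symm
    exact DFunLike.congr_fun h2 P
  rw [h4, h3, map_zero]

/-- the residue of `eps` is nonzero -/
lemma lam_zero_ne [CharZero k'] {k : Type*} [Field k] [Algebra k k']
    (hμ : Function.Injective (MvPolynomial.aeval μ : MvPolynomial (J × H) k →ₐ[k] k')) (j : J) :
    T.lam μ j 0 ≠ 0 := by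
  intro h
  unfold lam at h
  rcases mul_eq_zero.1 h with h | h
  · norm_num at h
  have h1 : ∀ h : H, T.om ^ (-dot 0 h).val * μ (j, h) = μ (j, h) := by
    intro h
    rw [dot_zero_left]
    simp
  rw [Finset.sum_congr rfl fun h _ => h1 h] at h
  have h2 : MvPolynomial.aeval μ (∑ h : H, (MvPolynomial.X (j, h) : MvPolynomial (J × H) k)) = 0 := by
    rw [map_sum, ← h]
    exact Finset.sum_congr rfl fun h _ => MvPolynomial.aeval_X _ _
  have h3 : (∑ h : H, (MvPolynomial.X (j, h) : MvPolynomial (J × H) k)) = 0 :=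
    hμ (by rw [h2, map_zero])
  have h4 := congrArg (MvPolynomial.eval (fun p : J × H => if p = (j, 0) then (1 : k) else 0)) h3
  rw [map_sum, map_zero] at h4
  simp at h4

end TameData

end Pool.Agent.helper34.Cay
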