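import Mathlib

/-!
# Tame data: a valued algebraically closed field with a group of isometries

Auxiliary file for `MP_88d955_ag`.
-/

namespace Pool.Agent.helper34.Cay

open scoped Classical

/-- The group `(ℤ/3)³`. -/
abbrev H : Type := Fin 3 → ZMod 3

/-- A non-archimedean field `Ω` with a group `D` of isometric automorphisms with finite orbits,
residue field `k'` contained in `Ω` and three cube roots `al i`. -/
structure TameData (k' Ω D : Type*) [Field k'] [NormedField Ω] [Algebra k' Ω] [Group D]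
    [MulSemiringAction D Ω] where
  ultra : ∀ x y : Ω, ‖x + y‖ ≤ max ‖x‖ ‖y‖
  norm_smul : ∀ (σ : D) (x : Ω), ‖σ • x‖ = ‖x‖
  norm_const : ∀ c : k', c ≠ 0 → ‖algebraMap k' Ω c‖ = 1
  smul_const : ∀ (σ : D) (c : k'), σ • algebraMap k' Ω c = algebraMap k' Ω c
  residue : ∀ x : Ω, ‖x‖ = 1 → ∃ c : k', ‖x - algebraMap k' Ω c‖ < 1
  finite_orbit : ∀ x : Ω, (MulAction.orbit D x).Finite
  pa : ℝ →+ ℚ
  pc : ℝ →+ ℚ
  int_a : ∀ x : Ω, x ≠ 0 → (∀ σ : D, σ • x = x) → ∃ n : ℤ, pa (Real.log ‖x‖) = n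
  int_c : ∀ x : Ω, x ≠ 0 → (∀ σ : D, σ • x = x) → ∃ n : ℤ, pc (Real.log ‖x‖) = n
  om : k'
  om_pow : om ^ 3 = 1
  om_ne : om ≠ 1
  rho : D → H
  rho_surj : Function.Surjective rho
  al : Fin 3 → Ω
  al_ne : ∀ i, al i ≠ 0
  smul_al : ∀ (σ : D) (i : Fin 3), σ • al i = algebraMap k' Ω (om ^ (rho σ i).val) * al i
  pa_al : ∀ i, pa (Real.log ‖al i‖) = if i = 0 then 1 / 3 else 0
  pc_al : ∀ i, pc (Real.log ‖al i‖) = if i = 2 then 1 / 3 else 0

namespace TameData

variable {k' Ω D : Type*} [Field k'] [NormedField Ω] [Algebra k' Ω] [Group D]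
  [MulSemiringAction D Ω] (T : TameData k' Ω D)

/-! ### Ultrametric basics -/

include T

lemma sub_lt {x y z : Ω} {r : ℝ} (h1 : ‖x - y‖ < r) (h2 : ‖y - z‖ < r) : ‖x - z‖ < r := by
  have : x - z = (x - y) + (y - z) := by ring
  rw [this]
  exact (T.ultra _ _).trans_lt (max_lt h1 h2)

lemma norm_eq_of_sub_lt {x y : Ω} (h : ‖x - y‖ < ‖y‖) : ‖x‖ = ‖y‖ := by
  apply le_antisymm
  · have : x = (x - y) + y := by ring
    rw [this]
    exact (T.ultra _ _).trans (max_le h.le le_rfl)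
  · by_contra hc
    push Not at hc
    have h1 : y = x + -(x - y) := by ring
    have h2 : ‖y‖ ≤ max ‖x‖ ‖-(x - y)‖ := by
      conv_lhs => rw [h1]
      exact T.ultra _ _
    rw [norm_neg] at h2
    exact absurd (h2.trans_lt (max_lt hc h)) (lt_irrefl _)

lemma norm_sum_lt {ι : Type*} (s : Finset ι) (f : ι → Ω) {r : ℝ} (hr : 0 < r)
    (h : ∀ i ∈ s, ‖f i‖ < r) : ‖∑ i ∈ s, f i‖ < r := by
  induction s using Finset.induction_on with
  | empty => simpa using hr
  | insert i s hi ih =>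
    rw [Finset.sum_insert hi]
    exact (T.ultra _ _).trans_lt (max_lt (h i (Finset.mem_insert_self _ _))
      (ih fun j hj => h j (Finset.mem_insert_of_mem hj)))

lemma norm_natCast [CharZero k'] {n : ℕ} (hn : n ≠ 0) : ‖(n : Ω)‖ = 1 := by
  have h := T.norm_const (n : k') (Nat.cast_ne_zero.2 hn)
  rwa [map_natCast] at h

/-- If `x - y = z` (all nonzero) then two of the three norms agree in the following sense. -/
lemma norm_trichotomy {x y z : Ω} (h : x - y = z) :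
    ‖x‖ = ‖y‖ ∨ ‖z‖ = ‖x‖ ∨ ‖z‖ = ‖y‖ := by
  rcases lt_trichotomy ‖x‖ ‖y‖ with hlt | heq | hgt
  · right; right
    have h1 : ‖z - -y‖ < ‖-y‖ := by
      rw [norm_neg, ← h]
      have : x - y - -y = x := by ring
      rwa [this]
    rw [T.norm_eq_of_sub_lt h1, norm_neg]
  · left; exact heq
  · right; left
    have h1 : ‖z - x‖ < ‖x‖ := by
      rw [← h]
      have : x - y - x = -y := by ring
      rwa [this, norm_neg]
    exact T.norm_eq_of_sub_lt h1

/-! ### The residue map -/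

/-- The residue of an element of norm at most one. -/
noncomputable def res (_T : TameData k' Ω D) (x : Ω) : k' :=
  if h : ∃ c : k', ‖x - algebraMap k' Ω c‖ < 1 then h.choose else 0

lemma res_eq {x : Ω} {c : k'} (h : ‖x - algebraMap k' Ω c‖ < 1) : T.res x = c := by
  have hex : ∃ c : k', ‖x - algebraMap k' Ω c‖ < 1 := ⟨c, h⟩
  unfold res
  rw [dif_pos hex]
  by_contra hne
  have h1 := hex.choose_spec
  have h2 : ‖algebraMap k' Ω hex.choose - algebraMap k' Ω c‖ < 1 := by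
    refine T.sub_lt (y := x) ?_ h
    rwa [norm_sub_rev]
  rw [← map_sub, T.norm_const _ (sub_ne_zero.2 hne)] at h2
  exact lt_irrefl _ h2

lemma res_spec {x : Ω} (hx : ‖x‖ ≤ 1) : ‖x - algebraMap k' Ω (T.res x)‖ < 1 := by
  have hex : ∃ c : k', ‖x - algebraMap k' Ω c‖ < 1 := by
    rcases hx.lt_or_eq with h | h
    · exact ⟨0, by rwa [map_zero, sub_zero]⟩
    · exact T.residue x h
  unfold res
  rw [dif_pos hex]
  exact hex.choose_spec

lemma norm_const_le (c : k') : ‖algebraMap k' Ω c‖ ≤ 1 := by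
  by_cases h : c = 0
  · rw [h, map_zero, norm_zero]; exact zero_le_one
  · exact (T.norm_const c h).le

lemma res_const (c : k') : T.res (algebraMap k' Ω c) = c :=
  T.res_eq (by rw [sub_self, norm_zero]; exact zero_lt_one)

lemma res_one : T.res (1 : Ω) = 1 := by
  have := T.res_const 1
  rwa [map_one] at this

lemma res_mul {x y : Ω} (hx : ‖x‖ ≤ 1) (hy : ‖y‖ ≤ 1) : T.res (x * y) = T.res x * T.res y := by
  apply T.res_eq
  rw [map_mul]
  have h1 : x * y - algebraMap k' Ω (T.res x) * algebraMap k' Ω (T.res y) =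
      (x - algebraMap k' Ω (T.res x)) * y +
        algebraMap k' Ω (T.res x) * (y - algebraMap k' Ω (T.res y)) := by ring
  rw [h1]
  refine (T.ultra _ _).trans_lt (max_lt ?_ ?_)
  · rw [norm_mul]
    calc ‖x - algebraMap k' Ω (T.res x)‖ * ‖y‖ ≤ ‖x - algebraMap k' Ω (T.res x)‖ * 1 := by gcongr
      _ < 1 := by rw [mul_one]; exact T.res_spec hx
  · rw [norm_mul]
    calc ‖algebraMap k' Ω (T.res x)‖ * ‖y - algebraMap k' Ω (T.res y)‖
        ≤ 1 * ‖y - algebraMap k' Ω (T.res y)‖ := by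
          gcongr
          exact T.norm_const_le _
      _ < 1 := by rw [one_mul]; exact T.res_spec hy

lemma res_smul (σ : D) {x : Ω} (hx : ‖x‖ ≤ 1) : T.res (σ • x) = T.res x := by
  apply T.res_eq
  have h1 : σ • x - algebraMap k' Ω (T.res x) = σ • (x - algebraMap k' Ω (T.res x)) := by
    rw [smul_sub, T.smul_const]
  rw [h1, T.norm_smul]
  exact T.res_spec hx

lemma res_ne_zero {x : Ω} (hx : ‖x‖ = 1) : T.res x ≠ 0 := by
  intro h
  have h1 := T.res_spec hx.le
  rw [h, map_zero, sub_zero, hx] at h1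
  exact lt_irrefl _ h1

lemma res_prod {ι : Type*} (s : Finset ι) (f : ι → Ω) (h : ∀ i ∈ s, ‖f i‖ ≤ 1) :
    T.res (∏ i ∈ s, f i) = ∏ i ∈ s, T.res (f i) ∧ ‖∏ i ∈ s, f i‖ ≤ 1 := by
  induction s using Finset.induction_on with
  | empty => simp [T.res_one]
  | insert i s hi ih =>
    obtain ⟨h1, h2⟩ := ih fun j hj => h j (Finset.mem_insert_of_mem hj)
    have h3 := h i (Finset.mem_insert_self _ _)
    rw [Finset.prod_insert hi, Finset.prod_insert hi, T.res_mul h3 h2, h1, norm_mul]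
    exact ⟨rfl, mul_le_one₀ h3 (norm_nonneg _) h2⟩

/-! ### Characters -/

omit T in
omit [Field k'] [Algebra k' Ω] in
lemma smul_ne_zero' (σ : D) {x : Ω} (hx : x ≠ 0) : σ • x ≠ 0 := by
  intro h
  apply hx
  have := congrArg (fun y => σ⁻¹ • y) h
  simpa using this

lemma norm_smul_div (σ : D) {x : Ω} (hx : x ≠ 0) : ‖(σ • x) / x‖ = 1 := by
  rw [norm_div, T.norm_smul, div_self (norm_ne_zero_iff.2 hx)]

/-- The character of `D` attached to a nonzero element of `Ω`. -/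
noncomputable def chi (x : Ω) (σ : D) : k' := T.res ((σ • x) / x)

lemma chi_mul {x y : Ω} (hx : x ≠ 0) (hy : y ≠ 0) (σ : D) :
    T.chi (x * y) σ = T.chi x σ * T.chi y σ := by
  unfold chi
  rw [← T.res_mul (T.norm_smul_div σ hx).le (T.norm_smul_div σ hy).le]
  congr 1
  rw [smul_mul']
  field_simp

lemma chi_hom {x : Ω} (hx : x ≠ 0) (σ τ : D) : T.chi x (σ * τ) = T.chi x σ * T.chi x τ := by
  unfold chi
  have h1 : ((σ * τ) • x) / x = (σ • ((τ • x) / x)) * ((σ • x) / x) := by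
    have h3 : σ • ((τ • x) / x) = (σ • (τ • x)) / (σ • x) := smul_div₀' σ _ _
    rw [h3, mul_smul]
    have h2 : σ • x ≠ 0 := smul_ne_zero' σ hx
    field_simp
  rw [h1, T.res_mul _ (T.norm_smul_div σ hx).le, T.res_smul σ (T.norm_smul_div τ hx).le, mul_comm]
  rw [T.norm_smul]
  exact (T.norm_smul_div τ hx).le

lemma chi_ne_zero {x : Ω} (hx : x ≠ 0) (σ : D) : T.chi x σ ≠ 0 :=
  T.res_ne_zero (T.norm_smul_div σ hx)

lemma chi_one {x : Ω} (hx : x ≠ 0) : T.chi x (1 : D) = 1 := by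
  unfold chi
  rw [one_smul, div_self hx, T.res_one]

/-- `chi` as a homomorphism to the group of units. -/
noncomputable def chiHom (x : Ωˣ) : D →* k'ˣ where
  toFun σ := Units.mk0 (T.chi (x : Ω) σ) (T.chi_ne_zero x.ne_zero σ)
  map_one' := Units.ext (T.chi_one x.ne_zero)
  map_mul' σ τ := Units.ext (T.chi_hom x.ne_zero σ τ)

/-- `x ↦ chi x` as a homomorphism. -/
noncomputable def chiHomHom : Ωˣ →* (D →* k'ˣ) where
  toFun x := T.chiHom x
  map_one' := by
    ext σ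
    show T.chi ((1 : Ωˣ) : Ω) σ = 1
    unfold chi
    rw [Units.val_one, smul_one, div_one, T.res_one]
  map_mul' x y := by
    ext σ
    show T.chi ((x * y : Ωˣ) : Ω) σ = T.chi (x : Ω) σ * T.chi (y : Ω) σ
    rw [Units.val_mul, T.chi_mul x.ne_zero y.ne_zero]

/-- The tame lemma: an element with trivial character has the norm of an invariant element. -/
lemma exists_fixed [CharZero k'] {z : Ω} (hz : z ≠ 0) (h : ∀ σ : D, T.chi z σ = 1) :
    ∃ y : Ω, y ≠ 0 ∧ (∀ σ : D, σ • y = y) ∧ ‖y‖ = ‖z‖ := by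
  set S : Finset Ω := (T.finite_orbit z).toFinset with hS
  have hmem : ∀ x, x ∈ S ↔ ∃ σ : D, σ • z = x := by
    intro x
    rw [hS, Set.Finite.mem_toFinset, MulAction.mem_orbit_iff]
  have hz' : 0 < ‖z‖ := norm_pos_iff.2 hz
  have hsmall : ∀ x ∈ S, ‖x - z‖ < ‖z‖ := by
    intro x hx
    obtain ⟨σ, rfl⟩ := (hmem x).1 hx
    have h1 := T.res_spec (T.norm_smul_div σ hz).le
    have h2 : T.res ((σ • z) / z) = 1 := h σ
    rw [h2, map_one] at h1
    have h3 : σ • z - z = ((σ • z) / z - 1) * z := by field_simp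
    rw [h3, norm_mul]
    calc ‖(σ • z) / z - 1‖ * ‖z‖ < 1 * ‖z‖ := by gcongr
      _ = ‖z‖ := one_mul _
  have hne : S.card ≠ 0 := by
    rw [Finset.card_ne_zero]
    exact ⟨z, (hmem z).2 ⟨1, one_smul _ _⟩⟩
  refine ⟨∑ x ∈ S, x, ?_, ?_, ?_⟩
  rotate_left
  · intro σ
    rw [Finset.smul_sum]
    refine Finset.sum_bij' (fun x _ => σ • x) (fun x _ => σ⁻¹ • x) ?_ ?_ ?_ ?_ ?_
    · intro x hx
      obtain ⟨τ, rfl⟩ := (hmem x).1 hx
      exact (hmem _).2 ⟨σ * τ, mul_smul _ _ _⟩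
    · intro x hx
      obtain ⟨τ, rfl⟩ := (hmem x).1 hx
      exact (hmem _).2 ⟨σ⁻¹ * τ, mul_smul _ _ _⟩
    · intro x _
      exact inv_smul_smul σ x
    · intro x _
      exact smul_inv_smul σ x
    · intro x _
      rfl
  · have h1 : ∑ x ∈ S, x - (S.card : Ω) * z = ∑ x ∈ S, (x - z) := by
      rw [Finset.sum_sub_distrib, Finset.sum_const, nsmul_eq_mul]
    have h2 : ‖(S.card : Ω) * z‖ = ‖z‖ := by
      rw [norm_mul, T.norm_natCast hne, one_mul]
    have h3 : ‖∑ x ∈ S, x - (S.card : Ω) * z‖ < ‖(S.card : Ω) * z‖ := by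
      rw [h1, h2]
      exact T.norm_sum_lt _ _ hz' hsmall
    rw [T.norm_eq_of_sub_lt h3, h2]
  · intro h0
    have h1 : ∑ x ∈ S, x - (S.card : Ω) * z = ∑ x ∈ S, (x - z) := by
      rw [Finset.sum_sub_distrib, Finset.sum_const, nsmul_eq_mul]
    have h2 : ‖(S.card : Ω) * z‖ = ‖z‖ := by
      rw [norm_mul, T.norm_natCast hne, one_mul]
    have h4 := T.norm_sum_lt S (fun x => x - z) hz' hsmall
    rw [← h1, h0, zero_sub, norm_neg, h2] at h4
    exact lt_irrefl _ h4

/-! ### The additive functionals -/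

/-- first coordinate of the valuation -/
noncomputable def va (x : Ω) : ℚ := T.pa (Real.log ‖x‖)

/-- third coordinate of the valuation -/
noncomputable def vc (x : Ω) : ℚ := T.pc (Real.log ‖x‖)

lemma va_mul {x y : Ω} (hx : x ≠ 0) (hy : y ≠ 0) : T.va (x * y) = T.va x + T.va y := by
  unfold va
  rw [norm_mul, Real.log_mul (norm_ne_zero_iff.2 hx) (norm_ne_zero_iff.2 hy), map_add]

lemma vc_mul {x y : Ω} (hx : x ≠ 0) (hy : y ≠ 0) : T.vc (x * y) = T.vc x + T.vc y := by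
  unfold vc
  rw [norm_mul, Real.log_mul (norm_ne_zero_iff.2 hx) (norm_ne_zero_iff.2 hy), map_add]

/-- The valuation vector as a homomorphism. -/
noncomputable def vaHom : Ωˣ →* Multiplicative ℚ where
  toFun x := Multiplicative.ofAdd (T.va (x : Ω))
  map_one' := by
    show Multiplicative.ofAdd (T.va ((1 : Ωˣ) : Ω)) = 1
    unfold va
    simp
  map_mul' x y := by
    show Multiplicative.ofAdd (T.va ((x * y : Ωˣ) : Ω)) = _
    rw [Units.val_mul, T.va_mul x.ne_zero y.ne_zero]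
    rfl

noncomputable def vcHom : Ωˣ →* Multiplicative ℚ where
  toFun x := Multiplicative.ofAdd (T.vc (x : Ω))
  map_one' := by
    show Multiplicative.ofAdd (T.vc ((1 : Ωˣ) : Ω)) = 1
    unfold vc
    simp
  map_mul' x y := by
    show Multiplicative.ofAdd (T.vc ((x * y : Ωˣ) : Ω)) = _
    rw [Units.val_mul, T.vc_mul x.ne_zero y.ne_zero]
    rfl

lemma va_pow {x : Ω} (n : ℕ) : T.va (x ^ n) = n * T.va x := by
  unfold va
  rw [norm_pow, Real.log_pow, ← nsmul_eq_mul, map_nsmul, nsmul_eq_mul]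

lemma vc_pow {x : Ω} (n : ℕ) : T.vc (x ^ n) = n * T.vc x := by
  unfold vc
  rw [norm_pow, Real.log_pow, ← nsmul_eq_mul, map_nsmul, nsmul_eq_mul]

lemma int_of_chi [CharZero k'] {z : Ω} (hz : z ≠ 0) (h : ∀ σ : D, T.chi z σ = 1) :
    (∃ n : ℤ, T.va z = n) ∧ ∃ n : ℤ, T.vc z = n := by
  obtain ⟨y, hy0, hy1, hy2⟩ := T.exists_fixed hz h
  constructor
  · obtain ⟨n, hn⟩ := T.int_a y hy0 hy1
    exact ⟨n, by unfold va; rw [← hy2, hn]⟩
  · obtain ⟨n, hn⟩ := T.int_c y hy0 hy1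
    exact ⟨n, by unfold vc; rw [← hy2, hn]⟩

end TameData

end Pool.Agent.helper34.Cay
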