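import Pool.Agent.helper34.Cay.Density
import Pool.Agent.helper34.Cay.Tame

/-!
# The generic family of diagonalised matrices
-/

namespace Pool.Agent.helper34.Cay

open MvPolynomial

section Fam

variable {k n : Type*} [Field k] [Fintype n] [DecidableEq n] (e : n ≃ H)
  {A : Type*} [CommRing A] [Algebra k A]

/-- the matrix of eigenvectors -/
def Zm (ε : Option n × H → A) : Matrix n H A := Matrix.of fun i h => ε (some i, h)

/-- square version of the matrix of eigenvectors -/
def Zs (ε : Option n × H → A) : Matrix n n A := Matrix.of fun i j => ε (some i, e j)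

/-- product of the auxiliary elements -/
def Gp (ε : Option n × H → A) : A := ∏ h, ε (none, h)

/-- the element that must be invertible -/
def Up (ε : Option n × H → A) : A := (Zs e ε).det * Gp ε

/-- the inverse of `Zm` -/
def Wm (ε : Option n × H → A) (u : A) : Matrix H n A :=
  Matrix.of fun h j => (u * Gp ε) * (Zs e ε).adjugate (e.symm h) j

/-- the eigenvalues -/
def xm (z : k) (ε : Option n × H → A) (u : A) : H → A :=
  fun h => algebraMap k A z * ε (none, h) ^ 27 * (u * (Zs e ε).det)

/-- the matrix -/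
def Xm (z : k) (ε : Option n × H → A) (u : A) : Matrix n n A :=
  Zm ε * Matrix.diagonal (xm e z ε u) * Wm e ε u

variable {e}

omit [Algebra k A] [Field k] in
lemma Zm_mul_Wm {ε : Option n × H → A} {u : A} (h : Up e ε * u = 1) : Zm ε * Wm e ε u = 1 := by
  have h1 : (Zs e ε) * (Zs e ε).adjugate = (Zs e ε).det • 1 := Matrix.mul_adjugate _
  ext i j
  rw [Matrix.mul_apply]
  have h2 := congrFun (congrFun h1 i) j
  rw [Matrix.mul_apply, Matrix.smul_apply, smul_eq_mul] at h2
  have h3 : ∑ h, Zm ε i h * Wm e ε u h j =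
      (u * Gp ε) * ∑ l, Zs e ε i l * (Zs e ε).adjugate l j := by
    rw [Finset.mul_sum, ← Equiv.sum_comp e]
    refine Finset.sum_congr rfl fun l _ => ?_
    show ε (some i, e l) * ((u * Gp ε) * (Zs e ε).adjugate (e.symm (e l)) j) =
      (u * Gp ε) * (ε (some i, e l) * _)
    rw [Equiv.symm_apply_apply]
    ring
  rw [h3, h2]
  unfold Up at h
  have h4 : u * Gp ε * ((Zs e ε).det * (1 : Matrix n n A) i j) =
      ((Zs e ε).det * Gp ε * u) * (1 : Matrix n n A) i j := by ring
  rw [h4, h, one_mul]

omit [Algebra k A] [Field k] in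
lemma Wm_mul_Zm {ε : Option n × H → A} {u : A} (h : Up e ε * u = 1) : Wm e ε u * Zm ε = 1 := by
  have h1 : (Zs e ε).adjugate * (Zs e ε) = (Zs e ε).det • 1 := Matrix.adjugate_mul _
  ext a b
  rw [Matrix.mul_apply]
  have h2 := congrFun (congrFun h1 (e.symm a)) (e.symm b)
  rw [Matrix.mul_apply, Matrix.smul_apply, smul_eq_mul] at h2
  have h3 : ∑ j, Wm e ε u a j * Zm ε j b =
      (u * Gp ε) * ∑ l, (Zs e ε).adjugate (e.symm a) l * Zs e ε l (e.symm b) := by
    rw [Finset.mul_sum]
    refine Finset.sum_congr rfl fun l _ => ?_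
    show ((u * Gp ε) * (Zs e ε).adjugate (e.symm a) l) * ε (some l, b) =
      (u * Gp ε) * ((Zs e ε).adjugate (e.symm a) l * ε (some l, e (e.symm b)))
    rw [Equiv.apply_symm_apply]
    ring
  rw [h3, h2]
  unfold Up at h
  have h5 : (1 : Matrix n n A) (e.symm a) (e.symm b) = (1 : Matrix H H A) a b := by
    rw [Matrix.one_apply, Matrix.one_apply]
    simp
  have h4 : u * Gp ε * ((Zs e ε).det * (1 : Matrix n n A) (e.symm a) (e.symm b)) =
      ((Zs e ε).det * Gp ε * u) * (1 : Matrix n n A) (e.symm a) (e.symm b) := by ring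
  rw [h4, h, one_mul, h5]

lemma card_H : Fintype.card H = 27 := by decide

lemma prod_xm {z : k} (hz : z ^ 27 = 1) {ε : Option n × H → A} {u : A} (h : Up e ε * u = 1) :
    ∏ h, xm e z ε u h = 1 := by
  unfold xm
  rw [Finset.prod_mul_distrib, Finset.prod_mul_distrib, Finset.prod_const, Finset.prod_const,
    Finset.card_univ, card_H, Finset.prod_pow, ← map_pow, hz, map_one, one_mul, ← mul_pow]
  have h1 : (∏ h, ε (none, h)) * (u * (Zs e ε).det) = Up e ε * u := by
    unfold Up Gp; ring
  rw [h1, h, one_pow]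

lemma det_Xm {z : k} (hz : z ^ 27 = 1) {ε : Option n × H → A} {u : A} (h : Up e ε * u = 1) :
    (Xm e z ε u).det = 1 := by
  unfold Xm
  rw [Matrix.det_conj_of_mul_eq_one (Zm_mul_Wm h) (Wm_mul_Zm h), Matrix.det_diagonal,
    prod_xm hz h]

section Map

variable {B : Type*} [CommRing B] [Algebra k B] (f : A →ₐ[k] B)

omit [Fintype n] [DecidableEq n] in
lemma Zs_map (ε : Option n × H → A) : (Zs e ε).map f = Zs e (fun p => f (ε p)) := rfl

lemma det_Zs_map (ε : Option n × H → A) : f (Zs e ε).det = (Zs e (fun p => f (ε p))).det := by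
  rw [AlgHom.map_det]; rfl

lemma adj_Zs_map (ε : Option n × H → A) (i j : n) :
    f ((Zs e ε).adjugate i j) = (Zs e (fun p => f (ε p))).adjugate i j := by
  have h := AlgHom.map_adjugate f (Zs e ε)
  exact congrFun (congrFun h i) j

omit [Fintype n] [DecidableEq n] in
lemma Gp_map (ε : Option n × H → A) : f (Gp ε) = Gp (fun p => f (ε p)) := by
  unfold Gp; rw [map_prod]

lemma Up_map (ε : Option n × H → A) : f (Up e ε) = Up e (fun p => f (ε p)) := by
  unfold Up
  rw [map_mul, det_Zs_map, Gp_map]

lemma Xm_map (z : k) (ε : Option n × H → A) (u : A) :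
    (Xm e z ε u).map f = Xm e z (fun p => f (ε p)) (f u) := by
  unfold Xm
  rw [Matrix.map_mul, Matrix.map_mul]
  congr 1
  · congr 1
    ext a b
    rw [Matrix.map_apply, Matrix.diagonal_apply, Matrix.diagonal_apply]
    split_ifs
    · unfold xm
      rw [map_mul, map_mul, map_mul, map_pow, AlgHom.commutes, det_Zs_map]
    · exact map_zero f
  · ext a b
    show f ((u * Gp ε) * (Zs e ε).adjugate (e.symm a) b) = (f u * Gp _) * _
    rw [map_mul, map_mul, Gp_map, adj_Zs_map]

end Map

end Fam

section Surj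

variable {k n : Type*} [Field k] [Fintype n] [DecidableEq n] (e : n ≃ H)

/-- Every diagonalizable element of the group is in the family. -/
lemma exists_eps [IsAlgClosed k] [CharZero k] {z : k} (hz : z ^ 27 = 1)
    (g : Matrix.SpecialLinearGroup n k) (hg : dsc g.1 ≠ 0) :
    ∃ ε : Option n × H → k, Up e ε ≠ 0 ∧ Xm e z ε (Up e ε)⁻¹ = g.1 := by
  have hne : Nonempty n := ⟨e.symm 0⟩
  obtain ⟨Z, x, hZ, hgZ⟩ := exists_diag hg
  have hz0 : z ≠ 0 := by
    rintro rfl
    norm_num at hz
  have hprodx : ∏ i, x i = 1 := by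
    have h1 := g.2
    rw [hgZ, Matrix.det_conj_of_mul_eq_one (Matrix.mul_nonsing_inv _ hZ)
      (Matrix.nonsing_inv_mul _ hZ), Matrix.det_diagonal] at h1
    exact h1
  -- roots
  choose r hr using fun h : H => IsAlgClosed.exists_pow_nat_eq (z⁻¹ * x (e.symm h)) (n := 27)
    (by norm_num)
  have hprody : ∏ h : H, (z⁻¹ * x (e.symm h)) = 1 := by
    rw [Finset.prod_mul_distrib, Finset.prod_const, Finset.card_univ, card_H,
      Equiv.prod_comp e.symm x, hprodx, mul_one, inv_pow, hz, inv_one]
  set η : k := ∏ h, r h with hη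
  have hη27 : η ^ 27 = 1 := by
    rw [hη, ← Finset.prod_pow, Finset.prod_congr rfl fun h _ => hr h, hprody]
  have hη0 : η ≠ 0 := by
    rintro h
    rw [h] at hη27
    norm_num at hη27
  let γ : H → k := fun h => if h = 0 then r h * η⁻¹ else r h
  have hγ27 : ∀ h, γ h ^ 27 = z⁻¹ * x (e.symm h) := by
    intro h
    simp only [γ]
    split_ifs
    · rw [mul_pow, hr, inv_pow, hη27, inv_one, mul_one]
    · exact hr h
  have hγ : ∏ h, γ h = 1 := by
    have h1 : ∏ h, γ h = (∏ h, r h) * ∏ h : H, (if h = 0 then η⁻¹ else 1) := by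
      rw [← Finset.prod_mul_distrib]
      refine Finset.prod_congr rfl fun h _ => ?_
      simp only [γ]
      split_ifs
      · rfl
      · rw [mul_one]
    rw [h1, Finset.prod_ite_eq' Finset.univ (0 : H) (fun _ => η⁻¹), if_pos (Finset.mem_univ _),
      ← hη, mul_inv_cancel₀ hη0]
  let ε : Option n × H → k := fun p => match p.1 with
    | some i => Z i (e.symm p.2)
    | none => γ p.2
  have hZs : Zs e ε = Z := by
    ext i j
    show Z i (e.symm (e j)) = Z i j
    rw [Equiv.symm_apply_apply]
  have hG : Gp ε = 1 := hγ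
  have hU : Up e ε = Z.det := by
    unfold Up
    rw [hZs, hG, mul_one]
  refine ⟨ε, by rw [hU]; exact hZ.ne_zero, ?_⟩
  have hx : ∀ h, xm e z ε (Up e ε)⁻¹ h = x (e.symm h) := by
    intro h
    unfold xm
    rw [hU, hZs, inv_mul_cancel₀ hZ.ne_zero, mul_one]
    show z * γ h ^ 27 = _
    rw [hγ27, ← mul_assoc, mul_inv_cancel₀ hz0, one_mul]
  have hW : ∀ h j, Wm e ε (Up e ε)⁻¹ h j = Z⁻¹ (e.symm h) j := by
    intro h j
    show ((Up e ε)⁻¹ * Gp ε) * (Zs e ε).adjugate (e.symm h) j = _
    rw [hU, hG, mul_one, hZs, Matrix.inv_def, Ring.inverse_eq_inv', Matrix.smul_apply, smul_eq_mul]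
  rw [hgZ]
  ext i j
  unfold Xm
  rw [Matrix.mul_apply, Matrix.mul_apply, ← Equiv.sum_comp e]
  refine Finset.sum_congr rfl fun l _ => ?_
  rw [Matrix.mul_diagonal, Matrix.mul_diagonal, hW, hx, Equiv.symm_apply_apply]
  show Z i (e.symm (e l)) * _ * _ = _
  rw [Equiv.symm_apply_apply]

end Surj

/-! ### Localisation of a polynomial ring -/

section Loc

variable {k I : Type*} [Field k] (U : MvPolynomial I k)

/-- the localisation -/
abbrev EU : Type _ := Localization.Away U

variable {U}

/-- evaluation on the localisation -/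
noncomputable def lft {A : Type*} [CommRing A] [Algebra k A] (w : I → A)
    (hw : IsUnit (aeval w U : A)) : EU U →ₐ[k] A :=
  IsLocalization.liftAlgHom (M := Submonoid.powers U) (f := aeval w) (by
    rintro ⟨_, n, rfl⟩
    show IsUnit (aeval w (U ^ n))
    rw [map_pow]
    exact hw.pow n)

lemma lft_algebraMap {A : Type*} [CommRing A] [Algebra k A] (w : I → A)
    (hw : IsUnit (aeval w U : A)) (p : MvPolynomial I k) :
    lft w hw (algebraMap _ _ p) = aeval w p := by
  unfold lft
  rw [IsLocalization.liftAlgHom_apply]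
  exact IsLocalization.lift_eq _ _

lemma exists_num (R : EU U) : ∃ (r : MvPolynomial I k) (N : ℕ),
    R * algebraMap _ (EU U) (U ^ N) = algebraMap _ _ r := by
  obtain ⟨⟨r, ⟨s, N, hs⟩⟩, h⟩ := IsLocalization.surj (Submonoid.powers U) R
  refine ⟨r, N, ?_⟩
  have hs' : U ^ N = s := hs
  rw [hs']
  exact h

lemma isUnit_U : IsUnit (algebraMap (MvPolynomial I k) (EU U) U) :=
  IsLocalization.map_units (EU U) (⟨U, 1, pow_one U⟩ : Submonoid.powers U)

/-- an element of the localisation killed by an injective evaluation is zero -/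
lemma eq_zero_of_inj {A : Type*} [CommRing A] [Algebra k A] (w : I → A)
    (hw : IsUnit (aeval w U : A)) (hinj : Function.Injective (aeval w : MvPolynomial I k →ₐ[k] A))
    {R : EU U} (hR : lft w hw R = 0) : R = 0 := by
  obtain ⟨r, N, hr⟩ := exists_num R
  have h1 := congrArg (lft w hw) hr
  rw [map_mul, hR, zero_mul, lft_algebraMap] at h1
  have h2 : r = 0 := hinj (by rw [← h1, map_zero])
  rw [h2, map_zero, map_pow] at hr
  exact (isUnit_U.pow N).mul_left_eq_zero.1 hr

/-- an element of the localisation that vanishes at all points is zero -/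
lemma eq_zero_of_points [Infinite k] (hU : U ≠ 0) {R : EU U}
    (hR : ∀ (v : I → k) (hv : IsUnit (aeval v U : k)), lft v hv R = 0) : R = 0 := by
  obtain ⟨r, N, hr⟩ := exists_num R
  have h1 : r * U = 0 := by
    apply MvPolynomial.funext
    intro v
    rw [map_mul, map_zero]
    by_cases hv : eval v U = 0
    · rw [hv, mul_zero]
    · have hv' : IsUnit (aeval v U : k) := by
        rw [isUnit_iff_ne_zero]
        exact hv
      have h2 := congrArg (lft v hv') hr
      rw [map_mul, hR v hv', zero_mul, lft_algebraMap] at h2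
      have h3 : eval v r = 0 := h2.symm
      rw [h3, zero_mul]
  have h2 : r = 0 := (mul_eq_zero.1 h1).resolve_right hU
  rw [h2, map_zero, map_pow] at hr
  exact (isUnit_U.pow N).mul_left_eq_zero.1 hr

end Loc

/-! ### The generic member of the family is a generic element of the group -/

section Generic

variable {k n : Type*} [Field k] [Fintype n] [DecidableEq n] (e : n ≃ H)

/-- the universal denominator -/
noncomputable def UU (k : Type*) [Field k] {n : Type*} [Fintype n] [DecidableEq n] (e : n ≃ H) :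
    MvPolynomial (Option n × H) k := Up e MvPolynomial.X

lemma aeval_UU {A : Type*} [CommRing A] [Algebra k A] (ε : Option n × H → A) :
    aeval ε (UU k e) = Up e ε := by
  unfold UU
  rw [Up_map]
  congr 1
  funext p
  rw [aeval_X]

lemma UU_ne [IsAlgClosed k] [CharZero k] : UU k e ≠ 0 := by
  intro h
  have hne : Nonempty n := ⟨e.symm 0⟩
  obtain ⟨g, hg⟩ := exists_SL_dsc (F := k) (n := n)
  obtain ⟨ε, hε, -⟩ := exists_eps e (z := 1) (one_pow 27) g hg
  apply hε
  rw [← aeval_UU (k := k), h, map_zero]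

lemma Up_ne_of_inj [IsAlgClosed k] [CharZero k] {Ω : Type*} [Field Ω] [Algebra k Ω]
    {ε : Option n × H → Ω}
    (hinj : Function.Injective (aeval ε : MvPolynomial (Option n × H) k →ₐ[k] Ω)) :
    Up e ε ≠ 0 := by
  rw [← aeval_UU (k := k)]
  exact (map_ne_zero_iff _ hinj).2 (UU_ne e)

/-- the generic parameters -/
noncomputable def geps (k : Type*) [Field k] {n : Type*} [Fintype n] [DecidableEq n] (e : n ≃ H) :
    Option n × H → EU (UU k e) :=
  fun p => algebraMap (MvPolynomial (Option n × H) k) (EU (UU k e)) (MvPolynomial.X p)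

/-- the inverse of the denominator -/
noncomputable def gu (k : Type*) [Field k] {n : Type*} [Fintype n] [DecidableEq n] (e : n ≃ H) :
    EU (UU k e) := IsLocalization.Away.invSelf (UU k e)

lemma Up_geps : Up e (geps k e) = algebraMap _ (EU (UU k e)) (UU k e) := by
  have h1 := Up_map (e := e) (IsScalarTower.toAlgHom k (MvPolynomial (Option n × H) k)
    (EU (UU k e))) MvPolynomial.X
  rw [IsScalarTower.toAlgHom_apply] at h1
  unfold geps
  rw [← UU] at h1
  rw [h1]
  rfl

lemma Up_geps_mul : Up e (geps k e) * gu k e = 1 := by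
  rw [Up_geps]
  exact IsLocalization.Away.mul_invSelf (UU k e)

/-- the value of a polynomial at the generic member -/
noncomputable def genR (z : k) (P : MvPolynomial (n × n) k) : EU (UU k e) :=
  aeval (ent (Xm e z (geps k e) (gu k e))) P

lemma lft_genR {B : Type*} [Field B] [Algebra k B] (w : Option n × H → B)
    (hw : IsUnit (aeval w (UU k e) : B)) (z : k) (P : MvPolynomial (n × n) k) :
    lft w hw (genR e z P) = aeval (ent (Xm e z w (Up e w)⁻¹)) P := by
  unfold genR
  rw [← ent_map, Xm_map]
  have h1 : (fun p => lft w hw (geps k e p)) = w := by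
    funext p
    unfold geps
    rw [lft_algebraMap, aeval_X]
  have h2 : lft w hw (gu k e) = (Up e w)⁻¹ := by
    have h3 := congrArg (lft w hw) (Up_geps_mul (k := k) e)
    rw [Up_geps, map_mul, lft_algebraMap, map_one, aeval_UU] at h3
    exact eq_inv_of_mul_eq_one_right h3
  rw [h1, h2]

variable {K : Type*} [Field K] [Algebra k K] {X : Matrix n n K}

/-- The relations of the generic member. -/
theorem family_rel [IsAlgClosed k] [CharZero k] (hX : IsFunctionFieldSL k X)
    {Ω : Type*} [Field Ω] [Algebra k Ω] {ε : Option n × H → Ω}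
    (hinj : Function.Injective (aeval ε : MvPolynomial (Option n × H) k →ₐ[k] Ω)) {z : k}
    (hz : z ^ 27 = 1) (P : MvPolynomial (n × n) k) :
    aeval (ent (Xm e z ε (Up e ε)⁻¹)) P = 0 ↔
      ∀ g : Matrix.SpecialLinearGroup n k, aeval (ent g.1) P = 0 := by
  have hne : Nonempty n := ⟨e.symm 0⟩
  have hw : IsUnit (aeval ε (UU k e) : Ω) := by
    rw [aeval_UU, isUnit_iff_ne_zero]
    exact Up_ne_of_inj e hinj
  rw [← lft_genR e ε hw z P]
  constructor
  · intro h
    have hR := eq_zero_of_inj ε hw hinj h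
    apply hX.dense
    intro g hg
    obtain ⟨w, hw0, hwX⟩ := exists_eps e hz g hg
    have hw' : IsUnit (aeval w (UU k e) : k) := by
      rw [aeval_UU, isUnit_iff_ne_zero]
      exact hw0
    rw [← hwX, ← lft_genR e w hw' z P, hR, map_zero]
  · intro h
    have hR : genR e z P = 0 := by
      apply eq_zero_of_points (UU_ne e)
      intro v hv
      rw [lft_genR]
      have hv0 : Up e v ≠ 0 := by
        rw [← aeval_UU (k := k)]
        exact hv.ne_zero
      exact h ⟨Xm e z v (Up e v)⁻¹, det_Xm hz (mul_inv_cancel₀ hv0)⟩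
    rw [hR, map_zero]

end Generic

end Pool.Agent.helper34.Cay
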