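import Pool.Agent.helper34.Cay.Ends

/-!
# Construction of tame data from a complete discretely-ramified base field
-/

namespace Pool.Agent.helper34.Cay

open scoped Classical

/-- Base data: a complete nonarchimedean field with residue field `k'` and three monomials. -/
structure BaseData (k' K' : Type*) [Field k'] [NontriviallyNormedField K'] [Algebra k' K'] where
  norm_const : ∀ c : k', c ≠ 0 → ‖algebraMap k' K' c‖ = 1
  residue : ∀ x : K', ‖x‖ ≤ 1 → ∃ c : k', ‖x - algebraMap k' K' c‖ < 1
  a : Fin 3 → K'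
  p : Fin 3 → (ℝ →+ ℚ)
  a_ne : ∀ i, a i ≠ 0
  a_lt : ∀ i, ‖a i‖ < 1
  p_a : ∀ i j, p i (Real.log ‖a j‖) = if j = i then 1 else 0
  p_int : ∀ i (x : K'), x ≠ 0 → ∃ n : ℤ, p i (Real.log ‖x‖) = n

lemma ultraL (K' L : Type*) [NontriviallyNormedField K'] [IsUltrametricDist K'] [NormedField L]
    [NormedAlgebra K' L] (x y : L) : ‖x + y‖ ≤ max ‖x‖ ‖y‖ := by
  have : IsUltrametricDist L := IsUltrametricDist.of_normedAlgebra K'
  exact IsUltrametricDist.norm_add_le_max x y

lemma norm_sum_ltL (K' L : Type*) [NontriviallyNormedField K'] [IsUltrametricDist K']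
    [NormedField L] [NormedAlgebra K' L] {ι : Type*} (s : Finset ι) (f : ι → L) {r : ℝ}
    (hr : 0 < r) (h : ∀ i ∈ s, ‖f i‖ < r) : ‖∑ i ∈ s, f i‖ < r := by
  induction s using Finset.induction_on with
  | empty => simpa using hr
  | insert i s hi ih =>
    rw [Finset.sum_insert hi]
    exact (ultraL K' L _ _).trans_lt (max_lt (h i (Finset.mem_insert_self _ _))
      (ih fun j hj => h j (Finset.mem_insert_of_mem hj)))

section Stage1

variable {k' K' L : Type*} [Field k'] [NontriviallyNormedField K'] [CompleteSpace K']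
  [IsUltrametricDist K'] [Algebra k' K'] [NormedField L] [NormedAlgebra K' L]
  [Algebra.IsAlgebraic K' L] [IsAlgClosed L] [Algebra k' L] [IsScalarTower k' K' L]
  (B : BaseData k' K')

include B

omit [CompleteSpace K'] [IsUltrametricDist K'] [Algebra.IsAlgebraic K' L] [IsAlgClosed L] in
lemma norm_constL (c : k') (hc : c ≠ 0) : ‖algebraMap k' L c‖ = 1 := by
  rw [IsScalarTower.algebraMap_apply k' K' L, norm_algebraMap', B.norm_const c hc]

omit [Algebra k' K'] [Field k'] B [IsAlgClosed L] [Algebra k' L] [IsScalarTower k' K' L] in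
lemma norm_galL (σ : L ≃ₐ[K'] L) (x : L) : ‖σ x‖ = ‖x‖ := by
  rw [NormedAlgebra.norm_eq_spectralNorm K' x, NormedAlgebra.norm_eq_spectralNorm K' (σ x)]
  exact (spectralNorm_eq_of_equiv σ x).symm

omit [IsAlgClosed L] in
lemma residueL [IsAlgClosed k'] (x : L) (hx : ‖x‖ ≤ 1) :
    ∃ c : k', ‖x - algebraMap k' L c‖ < 1 := by
  set P := minpoly K' x with hP
  have hint : IsIntegral K' x := (Algebra.IsAlgebraic.isAlgebraic x).isIntegral
  have hmonic : P.Monic := minpoly.monic hint
  have hcoef : ∀ n, ‖P.coeff n‖ ≤ 1 := by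
    rw [← spectralValue_le_one_iff hmonic]
    rw [NormedAlgebra.norm_eq_spectralNorm K' x] at hx
    exact hx
  choose! c hc using fun n => B.residue (P.coeff n) (hcoef n)
  -- the reduction
  let R : Polynomial k' := Polynomial.X ^ P.natDegree +
    ∑ n ∈ Finset.range P.natDegree, Polynomial.C (c n) * Polynomial.X ^ n
  have hdeg : (∑ n ∈ Finset.range P.natDegree, Polynomial.C (c n) * Polynomial.X ^ n :
      Polynomial k').degree < P.natDegree := by
    refine (Polynomial.degree_sum_le _ _).trans_lt ?_
    rw [Finset.sup_lt_iff (WithBot.bot_lt_coe _)]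
    intro n hn
    refine (Polynomial.degree_C_mul_X_pow_le _ _).trans_lt ?_
    exact_mod_cast Finset.mem_range.1 hn
  have hRm : R.Monic := Polynomial.monic_X_pow_add hdeg
  have hPx : x ^ P.natDegree + ∑ n ∈ Finset.range P.natDegree,
      algebraMap K' L (P.coeff n) * x ^ n = 0 := by
    have h1 := minpoly.aeval K' x
    rw [← hP, Polynomial.aeval_eq_sum_range, Finset.sum_range_succ] at h1
    have h2 : P.coeff P.natDegree = 1 := hmonic
    rw [h2, one_smul, add_comm] at h1
    rw [← h1]
    congr 1
    refine Finset.sum_congr rfl fun n _ => ?_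
    rw [Algebra.smul_def]
  have hRx : Polynomial.aeval x R = ∑ n ∈ Finset.range P.natDegree,
      (algebraMap k' L (c n) - algebraMap K' L (P.coeff n)) * x ^ n := by
    have h1 : Polynomial.aeval x R = x ^ P.natDegree + ∑ n ∈ Finset.range P.natDegree,
        algebraMap k' L (c n) * x ^ n := by
      simp only [R, map_add, map_pow, Polynomial.aeval_X, map_sum, map_mul, Polynomial.aeval_C]
    rw [h1]
    have h2 : ∑ n ∈ Finset.range P.natDegree,
      (algebraMap k' L (c n) - algebraMap K' L (P.coeff n)) * x ^ n =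
      ∑ n ∈ Finset.range P.natDegree, algebraMap k' L (c n) * x ^ n -
      ∑ n ∈ Finset.range P.natDegree, algebraMap K' L (P.coeff n) * x ^ n := by
      rw [← Finset.sum_sub_distrib]
      exact Finset.sum_congr rfl fun n _ => by ring
    rw [h2]
    linear_combination hPx
  have hRnorm : ‖Polynomial.aeval x R‖ < 1 := by
    rw [hRx]
    refine norm_sum_ltL K' L _ _ zero_lt_one fun n _ => ?_
    rw [norm_mul, norm_pow]
    have h1 : ‖algebraMap k' L (c n) - algebraMap K' L (P.coeff n)‖ < 1 := by
      rw [IsScalarTower.algebraMap_apply k' K' L, ← map_sub, norm_algebraMap', norm_sub_rev]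
      exact hc n
    calc _ ≤ ‖algebraMap k' L (c n) - algebraMap K' L (P.coeff n)‖ * 1 := by
          gcongr
          exact pow_le_one₀ (norm_nonneg _) hx
      _ < 1 := by rw [mul_one]; exact h1
  have hsplit := (IsAlgClosed.splits R).eq_prod_roots
  rw [hRm.leadingCoeff, map_one, one_mul] at hsplit
  by_contra hcon
  push Not at hcon
  have hge : ∀ s : Multiset k', 1 ≤ ‖(Polynomial.aeval x)
      (s.map fun a => Polynomial.X - Polynomial.C a).prod‖ := by
    intro s
    induction s using Multiset.induction_on with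
    | empty => rw [Multiset.map_zero, Multiset.prod_zero, map_one, norm_one]
    | cons a s ih =>
      rw [Multiset.map_cons, Multiset.prod_cons, map_mul, norm_mul, map_sub, Polynomial.aeval_X,
        Polynomial.aeval_C]
      exact one_le_mul_of_one_le_of_one_le (hcon a) ih
  have h1 := hge R.roots
  rw [← hsplit] at h1
  exact absurd h1 (not_le.2 hRnorm)

omit [Algebra k' K'] [Field k'] B [IsAlgClosed L] [Algebra k' L] [IsScalarTower k' K' L]
  [CompleteSpace K'] [IsUltrametricDist K'] in
lemma finite_orbitL (x : L) : (MulAction.orbit (L ≃ₐ[K'] L) x).Finite := by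
  have hint : IsIntegral K' x := (Algebra.IsAlgebraic.isAlgebraic x).isIntegral
  refine ((minpoly K' x).rootSet_finite L).subset ?_
  rintro y ⟨σ, rfl⟩
  rw [Polynomial.mem_rootSet]
  refine ⟨minpoly.ne_zero hint, ?_⟩
  show Polynomial.aeval (σ x) (minpoly K' x) = 0
  have := minpoly.aeval K' x
  rw [Polynomial.aeval_algHom_apply σ x, this, map_zero]

omit [CompleteSpace K'] [IsUltrametricDist K'] [Algebra k' L] [IsScalarTower k' K' L] in
lemma intL [CharZero K'] (i : Fin 3) (x : L) (hx : x ≠ 0) (h : ∀ σ : L ≃ₐ[K'] L, σ • x = x) :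
    ∃ n : ℤ, B.p i (Real.log ‖x‖) = n := by
  have hgal : IsGalois K' L := by
    have : Normal K' L := by
      have : IsAlgClosure K' L := ⟨inferInstance, inferInstance⟩
      exact IsAlgClosure.normal K' L
    exact ⟨⟩
  obtain ⟨y, rfl⟩ := (InfiniteGalois.mem_range_algebraMap_iff_fixed x).2 (fun f => h f)
  rw [norm_algebraMap']
  exact B.p_int i y (by rintro rfl; exact hx (map_zero _))

end Stage1

end Pool.Agent.helper34.Cay
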