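import Pool.Agent.helper34.Cay.Field1

/-!
# Tame data from base data
-/

namespace Pool.Agent.helper34.Cay

open scoped Classical

universe u

section Cube

variable {F : Type*} [Field F]

lemma cube_sum {w : F} (h1 : w ^ 3 = 1) (h2 : w ≠ 1) : 1 + w + w ^ 2 = 0 := by
  have h : (w - 1) * (1 + w + w ^ 2) = 0 := by linear_combination h1
  rcases mul_eq_zero.1 h with h | h
  · exact absurd (sub_eq_zero.1 h) h2
  · exact h

lemma cube_root_unity {w : F} (h1 : w ^ 3 = 1) (h2 : w ≠ 1) {x : F} (hx : x ^ 3 = 1) :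
    ∃ m : ZMod 3, x = w ^ m.val := by
  have hs := cube_sum h1 h2
  have h : (x - 1) * ((x - w) * (x - w ^ 2)) = 0 := by
    linear_combination hx + (-x ^ 2 + x * w) * hs - (1 + 0 * x) * h1
  rcases mul_eq_zero.1 h with h | h
  · exact ⟨0, by
      have : (0 : ZMod 3).val = 0 := rfl
      rw [this, pow_zero]; exact sub_eq_zero.1 h⟩
  · rcases mul_eq_zero.1 h with h | h
    · exact ⟨1, by
        have : (1 : ZMod 3).val = 1 := rfl
        rw [this, pow_one]; exact sub_eq_zero.1 h⟩
    · exact ⟨2, by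
        have : (2 : ZMod 3).val = 2 := rfl
        rw [this]; exact sub_eq_zero.1 h⟩

lemma w_val_add {w : F} (h1 : w ^ 3 = 1) (i j : ZMod 3) :
    w ^ (i + j).val = w ^ i.val * w ^ j.val := by
  rw [← pow_add, ZMod.val_add]
  exact (pow_eq_pow_mod _ h1).symm

lemma w_val_mul {w : F} (h1 : w ^ 3 = 1) (i j : ZMod 3) :
    w ^ (i * j).val = w ^ (i.val * j.val) := by
  rw [ZMod.val_mul]
  exact (pow_eq_pow_mod _ h1).symm

lemma w_val_inj {w : F} (h1 : w ^ 3 = 1) (h2 : w ≠ 1) {i j : ZMod 3}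
    (h : w ^ i.val = w ^ j.val) : i = j := by
  have hw0 : w ≠ 0 := by
    rintro rfl
    norm_num at h1
  have h3 : w ^ (i - j).val = 1 := by
    have h4 : w ^ (i - j + j).val = w ^ (i - j).val * w ^ j.val := w_val_add h1 _ _
    rw [sub_add_cancel, h] at h4
    exact (mul_eq_right₀ (pow_ne_zero _ hw0)).1 h4.symm
  have h5 : i - j = 0 := by
    generalize i - j = d at h3
    fin_cases d
    · rfl
    · refine absurd ?_ h2
      have h1 : (1 : ZMod 3).val = 1 := rfl
      have h2 : w ^ (1 : ZMod 3).val = 1 := h3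
      rwa [h1, pow_one] at h2
    · exfalso
      have h6 : w ^ 2 = 1 := h3
      apply h2
      rw [pow_succ, h6, one_mul] at h1
      exact h1
  exact sub_eq_zero.1 h5

end Cube

section Stage2

variable {k' K' L : Type*} [Field k'] [NontriviallyNormedField K'] [CompleteSpace K']
  [IsUltrametricDist K'] [Algebra k' K'] [NormedField L] [NormedAlgebra K' L]
  [Algebra.IsAlgebraic K' L] [IsAlgClosed L] [Algebra k' L] [IsScalarTower k' K' L]
  (B : BaseData k' K')

omit [CompleteSpace K'] [IsUltrametricDist K'] [Algebra.IsAlgebraic K' L]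
  [Algebra k' L] [IsScalarTower k' K' L] in
lemma exists_cube (i : Fin 3) : ∃ x : L, x ^ 3 = algebraMap K' L (B.a i) :=
  IsAlgClosed.exists_pow_nat_eq _ (by norm_num)

/-- the cube roots -/
noncomputable def cr (L : Type*) [NormedField L] [NormedAlgebra K' L] [IsAlgClosed L]
    (i : Fin 3) : L := (exists_cube (L := L) B i).choose

omit [CompleteSpace K'] [IsUltrametricDist K'] [Algebra.IsAlgebraic K' L]
  [Algebra k' L] [IsScalarTower k' K' L] in
lemma cr_pow (i : Fin 3) : (cr B L i) ^ 3 = algebraMap K' L (B.a i) :=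
  (exists_cube (L := L) B i).choose_spec

omit [CompleteSpace K'] [IsUltrametricDist K'] [Algebra.IsAlgebraic K' L]
  [Algebra k' L] [IsScalarTower k' K' L] in
lemma cr_ne (i : Fin 3) : cr B L i ≠ 0 := by
  intro h
  have h1 := cr_pow (L := L) B i
  rw [h, zero_pow three_ne_zero] at h1
  exact B.a_ne i ((map_eq_zero_iff _ (algebraMap K' L).injective).1 h1.symm)

omit [CompleteSpace K'] [IsUltrametricDist K'] [Algebra.IsAlgebraic K' L]
  [Algebra k' L] [IsScalarTower k' K' L] in
lemma norm_cr (i : Fin 3) : ‖cr B L i‖ ^ 3 = ‖B.a i‖ := by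
  rw [← norm_pow, cr_pow, norm_algebraMap']

omit [CompleteSpace K'] [IsUltrametricDist K'] [Algebra.IsAlgebraic K' L]
  [Algebra k' L] [IsScalarTower k' K' L] in
lemma norm_cr_lt (i : Fin 3) : ‖cr B L i‖ < 1 := by
  by_contra h
  push Not at h
  have h1 := one_le_pow₀ (n := 3) h
  rw [norm_cr] at h1
  exact absurd h1 (not_le.2 (B.a_lt i))

omit [CompleteSpace K'] [IsUltrametricDist K'] [Algebra.IsAlgebraic K' L]
  [Algebra k' L] [IsScalarTower k' K' L] in
lemma p_cr (i j : Fin 3) : B.p i (Real.log ‖cr B L j‖) = if j = i then 1 / 3 else 0 := by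
  have h1 : B.p i (Real.log (‖cr B L j‖ ^ 3)) = if j = i then 1 else 0 := by
    rw [norm_cr, B.p_a]
  rw [Real.log_pow, ← nsmul_eq_mul, map_nsmul, nsmul_eq_mul] at h1
  push_cast at h1
  split_ifs at h1 ⊢ <;> linarith

variable {w : k'} (h1 : w ^ 3 = 1) (h2 : w ≠ 1)

include h1 h2

omit [CompleteSpace K'] [IsUltrametricDist K'] [Algebra.IsAlgebraic K' L]
  [IsScalarTower k' K' L] in
lemma exists_rho (σ : L ≃ₐ[K'] L) (i : Fin 3) :
    ∃ m : ZMod 3, σ (cr B L i) = algebraMap k' L (w ^ m.val) * cr B L i := by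
  have h3 : (σ (cr B L i) / cr B L i) ^ 3 = 1 := by
    rw [div_pow, ← map_pow, cr_pow, σ.commutes, div_self]
    intro h
    exact B.a_ne i ((map_eq_zero_iff _ (algebraMap K' L).injective).1 h)
  have g1 : (algebraMap k' L w) ^ 3 = 1 := by rw [← map_pow, h1, map_one]
  have g2 : algebraMap k' L w ≠ 1 := by
    intro h
    apply h2
    rw [← map_one (algebraMap k' L)] at h
    exact (algebraMap k' L).injective h
  obtain ⟨m, hm⟩ := cube_root_unity g1 g2 h3
  refine ⟨m, ?_⟩
  rw [map_pow, ← hm, div_mul_cancel₀ _ (cr_ne B i)]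

omit h1 h2 in
/-- the homomorphism to `(ℤ/3)^3` -/
noncomputable def rr (L : Type*) [NormedField L] [NormedAlgebra K' L] [IsAlgClosed L]
    [Algebra k' L] {w : k'} (h1 : w ^ 3 = 1) (h2 : w ≠ 1)
    (σ : L ≃ₐ[K'] L) : H := fun i => (exists_rho B h1 h2 σ i).choose

omit [CompleteSpace K'] [IsUltrametricDist K'] [Algebra.IsAlgebraic K' L]
  [IsScalarTower k' K' L] in
lemma rr_spec (σ : L ≃ₐ[K'] L) (i : Fin 3) :
    σ (cr B L i) = algebraMap k' L (w ^ (rr B L h1 h2 σ i).val) * cr B L i :=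
  (exists_rho B h1 h2 σ i).choose_spec

omit [CompleteSpace K'] [IsUltrametricDist K'] [Algebra.IsAlgebraic K' L] [IsAlgClosed L] h1 h2 B in
lemma gal_const (σ : L ≃ₐ[K'] L) (c : k') : σ (algebraMap k' L c) = algebraMap k' L c := by
  rw [IsScalarTower.algebraMap_apply k' K' L, σ.commutes]

omit [CompleteSpace K'] [IsUltrametricDist K'] [Algebra.IsAlgebraic K' L] in
lemma rr_mul (σ τ : L ≃ₐ[K'] L) : rr B L h1 h2 (σ * τ) = rr B L h1 h2 σ + rr B L h1 h2 τ := by
  funext i
  rw [Pi.add_apply]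
  apply w_val_inj h1 h2
  rw [w_val_add h1]
  apply (algebraMap k' L).injective
  have h3 := rr_spec B h1 h2 (σ * τ) i
  have h4 : (σ * τ) (cr B L i) = σ (τ (cr B L i)) := rfl
  rw [h4, rr_spec B h1 h2 τ i, map_mul, gal_const, rr_spec B h1 h2 σ i, ← mul_assoc] at h3
  have h5 := mul_right_cancel₀ (cr_ne B i) h3
  rw [← h5, map_mul, mul_comm]

omit [CompleteSpace K'] [IsUltrametricDist K'] in
lemma rr_surj [CharZero K'] : Function.Surjective (rr B L h1 h2) := by
  have hone : rr B L h1 h2 1 = 0 := by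
    have := rr_mul B (L := L) h1 h2 1 1
    rw [mul_one] at this
    exact left_eq_add.1 this
  let S : AddSubgroup H :=
    { carrier := Set.range (rr B L h1 h2)
      add_mem' := by
        rintro _ _ ⟨σ, rfl⟩ ⟨τ, rfl⟩
        exact ⟨σ * τ, rr_mul B h1 h2 σ τ⟩
      zero_mem' := ⟨1, hone⟩
      neg_mem' := by
        rintro _ ⟨σ, rfl⟩
        refine ⟨σ⁻¹, ?_⟩
        have h3 := rr_mul B h1 h2 σ σ⁻¹
        rw [mul_inv_cancel, hone] at h3
        exact (neg_eq_of_add_eq_zero_right h3.symm).symm }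
  by_contra hcon
  have hS : AddSubgroup.toZModSubmodule 3 S < ⊤ := by
    rw [lt_top_iff_ne_top]
    intro htop
    apply hcon
    intro h
    have : h ∈ AddSubgroup.toZModSubmodule 3 S := by rw [htop]; trivial
    exact this
  obtain ⟨f, hf0, hf⟩ := Submodule.exists_le_ker_of_lt_top _ hS
  -- the coefficients
  let n : Fin 3 → ZMod 3 := fun i => f (fun j => if i = j then 1 else 0)
  have hfn : ∀ h : H, f h = ∑ i, h i * n i := by
    intro h
    rw [LinearMap.pi_apply_eq_sum_univ f h]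
    rfl
  set z : L := ∏ i, cr B L i ^ (n i).val with hz
  have hz0 : z ≠ 0 := Finset.prod_ne_zero_iff.2 fun i _ => pow_ne_zero _ (cr_ne B i)
  have hfix : ∀ σ : L ≃ₐ[K'] L, σ • z = z := by
    intro σ
    show σ z = z
    have hmem : f (rr B L h1 h2 σ) = 0 := hf (show rr B L h1 h2 σ ∈ S from ⟨σ, rfl⟩)
    rw [hfn] at hmem
    have h3 : σ z = algebraMap k' L (∏ i, w ^ ((rr B L h1 h2 σ i) * n i).val) * z := by
      rw [hz, map_prod, map_prod, ← Finset.prod_mul_distrib]
      refine Finset.prod_congr rfl fun i _ => ?_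
      rw [map_pow, rr_spec B h1 h2 σ i, mul_pow, w_val_mul h1, pow_mul, ← map_pow]
    have h4 : ∀ s : Finset (Fin 3), ∏ i ∈ s, w ^ ((rr B L h1 h2 σ i) * n i).val =
        w ^ (∑ i ∈ s, (rr B L h1 h2 σ i) * n i).val := by
      intro s
      induction s using Finset.induction_on with
      | empty => simp
      | insert i s hi ih => rw [Finset.prod_insert hi, Finset.sum_insert hi, w_val_add h1, ih]
    rw [h3, h4, hmem]
    simp
  have hlog : ∀ j, B.p j (Real.log ‖z‖) = (n j).val / 3 := by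
    intro j
    rw [hz, norm_prod, Real.log_prod (by
      intro i _
      rw [norm_pow]
      exact pow_ne_zero _ (norm_ne_zero_iff.2 (cr_ne B i))), map_sum]
    have h3 : ∀ i, B.p j (Real.log ‖cr B L i ^ (n i).val‖) =
        if i = j then ((n j).val : ℚ) / 3 else 0 := by
      intro i
      rw [norm_pow, Real.log_pow, ← nsmul_eq_mul, map_nsmul, nsmul_eq_mul, p_cr]
      split_ifs with h
      · subst h; ring
      · ring
    simp only [h3, Finset.sum_ite_eq', Finset.mem_univ, if_true]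
  apply hf0
  apply LinearMap.ext
  intro h
  rw [hfn]
  have hn0 : ∀ j, n j = 0 := by
    intro j
    obtain ⟨m, hm⟩ := intL B j z hz0 hfix
    rw [hlog] at hm
    have h3 : ((n j).val : ℤ) = 3 * m := by
      have : ((n j).val : ℚ) = 3 * m := by rw [← hm]; ring
      exact_mod_cast this
    have h4 : (n j).val < 3 := ZMod.val_lt _
    have h5 : (n j).val = 0 := by omega
    exact (ZMod.val_eq_zero _).1 h5
  simp [hn0]

/-- the tame data -/
noncomputable def tame [IsAlgClosed k'] [CharZero K'] :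
    TameData k' L (L ≃ₐ[K'] L) where
  ultra := ultraL K' L
  norm_smul σ x := norm_galL σ x
  norm_const c hc := norm_constL B c hc
  smul_const σ c := gal_const σ c
  residue x hx := residueL B x hx.le
  finite_orbit x := finite_orbitL x
  pa := B.p 0
  pc := B.p 2
  int_a x hx h := intL B 0 x hx h
  int_c x hx h := intL B 2 x hx h
  om := w
  om_pow := h1
  om_ne := h2
  rho := rr B L h1 h2
  rho_surj := rr_surj B h1 h2
  al := cr B L
  al_ne := cr_ne B
  smul_al σ i := rr_spec B h1 h2 σ i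
  pa_al i := by rw [p_cr]
  pc_al i := by rw [p_cr]

omit [CompleteSpace K'] [IsUltrametricDist K'] [Algebra.IsAlgebraic K' L]
  [Algebra k' L] [IsScalarTower k' K' L] h1 h2 in
lemma cr_indep (m n : Fin 3 → ℕ) (h : ∏ i, ‖cr B L i‖ ^ m i = ∏ i, ‖cr B L i‖ ^ n i) : m = n := by
  have hlog : ∀ (m : Fin 3 → ℕ) (j : Fin 3),
      B.p j (Real.log (∏ i, ‖cr B L i‖ ^ m i)) = (m j : ℚ) / 3 := by
    intro m j
    rw [Real.log_prod (by
      intro i _
      exact pow_ne_zero _ (norm_ne_zero_iff.2 (cr_ne B i))), map_sum]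
    have h3 : ∀ i, B.p j (Real.log (‖cr B L i‖ ^ m i)) = if i = j then (m j : ℚ) / 3 else 0 := by
      intro i
      rw [Real.log_pow, ← nsmul_eq_mul, map_nsmul, nsmul_eq_mul, p_cr]
      split_ifs with h
      · subst h; ring
      · ring
    simp only [h3, Finset.sum_ite_eq', Finset.mem_univ, if_true]
  funext j
  have h1 := hlog m j
  rw [h, hlog n j] at h1
  have : (m j : ℚ) = n j := by linarith
  exact_mod_cast this

end Stage2

end Pool.Agent.helper34.Cay
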