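import Pool.Agent.helper34.Cay.Field2

/-!
# Construction of the base field
-/

namespace Pool.Agent.helper34.Cay

open scoped Classical
open HahnSeries

universe u

lemma exists_weights : ∃ (w : Fin 3 → ℝ) (p : Fin 3 → (ℝ →+ ℚ)), (∀ i, 0 < w i) ∧
    ∀ i j, p i (-(w j)) = if j = i then 1 else 0 := by
  let b := Module.Basis.ofVectorSpace ℚ ℝ
  have hinf : Infinite (Module.Basis.ofVectorSpaceIndex ℚ ℝ) := by
    rw [Cardinal.infinite_iff]
    have h1 : Module.rank ℚ ℝ = Cardinal.mk (Module.Basis.ofVectorSpaceIndex ℚ ℝ) :=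
      b.mk_eq_rank''.symm
    rw [← h1, Real.rank_rat_real]
    exact Cardinal.aleph0_le_continuum
  let f : Fin 3 → Module.Basis.ofVectorSpaceIndex ℚ ℝ :=
    fun i => Infinite.natEmbedding _ i.val
  have hf : Function.Injective f := by
    intro i j h
    exact Fin.val_injective ((Infinite.natEmbedding _).injective h)
  let s : Fin 3 → ℚ := fun i => if 0 < b (f i) then 1 else -1
  have hs : ∀ i, s i * s i = 1 := by
    intro i
    simp only [s]
    split_ifs <;> norm_num
  have hb : ∀ i, b (f i) ≠ 0 := fun i => b.ne_zero _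
  refine ⟨fun i => (s i : ℝ) * b (f i), fun i => -(AddMonoidHom.mulLeft (s i)).comp
    (b.coord (f i)).toAddMonoidHom, ?_, ?_⟩
  · intro i
    simp only [s]
    split_ifs with h
    · push_cast
      rw [one_mul]; exact h
    · push_cast
      have : b (f i) < 0 := lt_of_le_of_ne (not_lt.1 h) (hb i)
      linarith
  · intro i j
    have h1 : ((s j : ℝ) * b (f j)) = s j • b (f j) := by rw [Rat.smul_def]
    have h2 : b.coord (f i) (-(s j • b (f j))) = -(s j * if f j = f i then 1 else 0) := by
      rw [map_neg, map_smul, Module.Basis.coord_apply, Module.Basis.repr_self,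
        Finsupp.single_apply, smul_eq_mul]
    show -(s i * b.coord (f i) (-((s j : ℝ) * b (f j)))) = _
    rw [h1, h2]
    by_cases hij : j = i
    · subst hij
      rw [if_pos rfl, if_pos rfl, mul_one, mul_neg, neg_neg, hs]
    · rw [if_neg hij, if_neg (fun h => hij (hf h))]
      ring

section Abs

variable (Γ : AddSubgroup ℝ) (k' : Type u) [Field k']

/-- the absolute value on the field of Hahn series -/
noncomputable def vabs : AbsoluteValue (HahnSeries Γ k') ℝ where
  toFun x := if x = 0 then 0 else Real.exp (-(x.order : ℝ))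
  map_mul' x y := by
    by_cases hx : x = 0
    · simp [hx]
    by_cases hy : y = 0
    · simp [hy]
    rw [if_neg hx, if_neg hy, if_neg (mul_ne_zero hx hy), order_mul hx hy, ← Real.exp_add]
    congr 1
    push_cast
    ring
  nonneg' x := by
    show 0 ≤ if x = 0 then 0 else Real.exp (-(x.order : ℝ))
    split_ifs
    · exact le_rfl
    · exact (Real.exp_pos _).le
  eq_zero' x := by
    show (if x = 0 then 0 else Real.exp (-(x.order : ℝ))) = 0 ↔ x = 0
    constructor
    · intro h
      by_contra hx
      rw [if_neg hx] at h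
      exact (Real.exp_pos _).ne' h
    · intro h
      rw [if_pos h]
  add_le' x y := by
    show (if x + y = 0 then 0 else Real.exp (-((x + y).order : ℝ))) ≤
      (if x = 0 then 0 else Real.exp (-(x.order : ℝ))) +
      (if y = 0 then 0 else Real.exp (-(y.order : ℝ)))
    by_cases hx : x = 0
    · simp [hx]
    by_cases hy : y = 0
    · simp [hy]
    by_cases hxy : x + y = 0
    · rw [if_pos hxy, if_neg hx, if_neg hy]
      positivity
    rw [if_neg hx, if_neg hy, if_neg hxy]
    have h1 : min x.order y.order ≤ (x + y).order := min_order_le_order_add hxy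
    rcases min_le_iff.1 h1 with h | h
    · have h2 : Real.exp (-((x + y).order : ℝ)) ≤ Real.exp (-(x.order : ℝ)) := by
        apply Real.exp_le_exp.2
        exact neg_le_neg h
      have := Real.exp_pos (-(y.order : ℝ))
      linarith
    · have h2 : Real.exp (-((x + y).order : ℝ)) ≤ Real.exp (-(y.order : ℝ)) := by
        apply Real.exp_le_exp.2
        exact neg_le_neg h
      have := Real.exp_pos (-(x.order : ℝ))
      linarith

variable {Γ k'}

lemma vabs_apply {x : HahnSeries Γ k'} (hx : x ≠ 0) :
    vabs Γ k' x = Real.exp (-(x.order : ℝ)) := if_neg hx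

lemma vabs_ultra (x y : HahnSeries Γ k') :
    vabs Γ k' (x + y) ≤ max (vabs Γ k' x) (vabs Γ k' y) := by
  by_cases hx : x = 0
  · simp [hx]
  by_cases hy : y = 0
  · simp [hy]
  by_cases hxy : x + y = 0
  · rw [hxy, map_zero]
    exact le_max_of_le_left ((vabs Γ k').nonneg x)
  rw [vabs_apply hx, vabs_apply hy, vabs_apply hxy]
  have h1 : min x.order y.order ≤ (x + y).order := min_order_le_order_add hxy
  rcases min_le_iff.1 h1 with h | h
  · exact le_max_of_le_left (Real.exp_le_exp.2 (neg_le_neg h))
  · exact le_max_of_le_right (Real.exp_le_exp.2 (neg_le_neg h))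

lemma vabs_const {c : k'} (hc : c ≠ 0) : vabs Γ k' (HahnSeries.C c) = 1 := by
  have h : (HahnSeries.C c : HahnSeries Γ k') ≠ 0 := single_ne_zero hc
  have h2 : (HahnSeries.C c : HahnSeries Γ k').order = 0 := order_single hc
  rw [vabs_apply h, h2]
  simp

lemma vabs_single {c : k'} (hc : c ≠ 0) (g : Γ) :
    vabs Γ k' (single g c) = Real.exp (-(g : ℝ)) := by
  have h : (single g c : HahnSeries Γ k') ≠ 0 := single_ne_zero hc
  rw [vabs_apply h, order_single hc]

lemma vabs_residue {x : HahnSeries Γ k'} (hx : vabs Γ k' x ≤ 1) :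
    ∃ c : k', vabs Γ k' (x - HahnSeries.C c) < 1 := by
  refine ⟨x.coeff 0, ?_⟩
  by_cases h0 : x - HahnSeries.C (x.coeff 0) = 0
  · rw [h0, map_zero]; exact zero_lt_one
  have hxne : x ≠ 0 := by
    rintro rfl
    apply h0
    rw [coeff_zero, map_zero, sub_zero]
  have hord : 0 ≤ x.order := by
    rw [vabs_apply hxne] at hx
    have := Real.exp_le_one_iff.1 hx
    have h2 : (0 : ℝ) ≤ (x.order : ℝ) := by linarith
    exact h2
  have hC : ∀ g : Γ, (HahnSeries.C (x.coeff 0) : HahnSeries Γ k').coeff g =
      if g = 0 then x.coeff 0 else 0 := by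
    intro g
    show (single (0 : Γ) (x.coeff 0)).coeff g = _
    rw [coeff_single]
    congr
  rw [vabs_apply h0, Real.exp_lt_one_iff, neg_lt_zero]
  have hpos : 0 < (x - HahnSeries.C (x.coeff 0)).order := by
    by_contra hcon
    push Not at hcon
    have h1 : (x - HahnSeries.C (x.coeff 0)).coeff (x - HahnSeries.C (x.coeff 0)).order ≠ 0 :=
      coeff_order_eq_zero.not.2 h0
    apply h1
    rw [coeff_sub, hC]
    split_ifs with h2
    · rw [h2, sub_self]
    · rw [sub_zero]
      apply coeff_eq_zero_of_lt_order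
      exact (lt_of_le_of_ne hcon h2).trans_le hord
  exact hpos

end Abs

section Compl

variable {k' F : Type u} [Field k'] [NormedField F]

/-- Transfer of base data to the completion, existence of tame data. -/
theorem exists_tame_of_field [IsAlgClosed k'] [CharZero k'] {w : k'} (h1 : w ^ 3 = 1) (h2 : w ≠ 1)
    (hult : ∀ x y : F, ‖x + y‖ ≤ max ‖x‖ ‖y‖) (j : k' →+* F)
    (hconst : ∀ c : k', c ≠ 0 → ‖j c‖ = 1) (hres : ∀ x : F, ‖x‖ ≤ 1 → ∃ c : k', ‖x - j c‖ < 1)
    (a : Fin 3 → F) (p : Fin 3 → (ℝ →+ ℚ)) (ha : ∀ i, a i ≠ 0) (ha' : ∀ i, ‖a i‖ < 1)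
    (hp : ∀ i j, p i (Real.log ‖a j‖) = if j = i then 1 else 0)
    (hint : ∀ i (x : F), x ≠ 0 → ∃ n : ℤ, p i (Real.log ‖x‖) = n) :
    ∃ (Ω D : Type u) (_ : NormedField Ω) (_ : Algebra k' Ω) (_ : Group D)
      (_ : MulSemiringAction D Ω) (T : TameData k' Ω D), IsAlgClosed Ω ∧ CharZero Ω ∧
        T.om = w ∧ (∀ i, ‖T.al i‖ < 1) ∧
        (∀ m n : Fin 3 → ℕ, ∏ i, ‖T.al i‖ ^ m i = ∏ i, ‖T.al i‖ ^ n i → m = n) := by
  let K' := UniformSpace.Completion F
  let jj : k' →+* K' := (UniformSpace.Completion.coeRingHom : F →+* K').comp j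
  let nn : NontriviallyNormedField K' := NontriviallyNormedField.ofNormNeOne
    ⟨((a 0 : F) : K'), by
      intro h
      have h3 : ‖((a 0 : F) : K')‖ = 0 := by rw [h, norm_zero]
      rw [UniformSpace.Completion.norm_coe] at h3
      exact ha 0 (norm_eq_zero.1 h3), by
      rw [UniformSpace.Completion.norm_coe]
      exact (ha' 0).ne⟩
  let _ : Algebra k' K' := jj.toAlgebra
  have hjj : ∀ c, algebraMap k' K' c = ((j c : F) : K') := fun c => rfl
  have happrox : ∀ (x : K') (ε : ℝ), 0 < ε → ∃ y : F, ‖x - (y : K')‖ < ε := by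
    intro x ε hε
    obtain ⟨y, hy⟩ := (UniformSpace.Completion.denseRange_coe (α := F)).exists_dist_lt x hε
    exact ⟨y, by rw [← dist_eq_norm]; exact hy⟩
  have hultF : IsUltrametricDist F := IsUltrametricDist.isUltrametricDist_of_forall_norm_add_le_max_norm hult
  have hultK : IsUltrametricDist K' := by
    refine IsUltrametricDist.isUltrametricDist_of_forall_norm_add_le_max_norm ?_
    intro x y
    induction x, y using UniformSpace.Completion.induction_on₂ with
    | hp => exact isClosed_le (by fun_prop) (by fun_prop)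
    | ih x y =>
      rw [← UniformSpace.Completion.coe_add, UniformSpace.Completion.norm_coe,
        UniformSpace.Completion.norm_coe, UniformSpace.Completion.norm_coe]
      exact hult x y
  have heq : ∀ (x : K') (y : F), ‖x - (y : K')‖ < ‖x‖ → ‖x‖ = ‖y‖ := by
    intro x y h
    rw [← UniformSpace.Completion.norm_coe y]
    have h3 : ‖x - (x - (y : K'))‖ = ‖x‖ := by
      rw [sub_eq_add_neg]
      rw [IsUltrametricDist.norm_add_eq_max_of_norm_ne_norm (by rw [norm_neg]; exact h.ne'), norm_neg]
      exact max_eq_left h.le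
    rw [sub_sub_cancel] at h3
    exact h3.symm
  let B : BaseData k' K' :=
    { norm_const := by
        intro c hc
        rw [hjj, UniformSpace.Completion.norm_coe, hconst c hc]
      residue := by
        intro x hx
        obtain ⟨y, hy⟩ := happrox x 1 zero_lt_one
        have hy1 : ‖y‖ ≤ 1 := by
          rw [← UniformSpace.Completion.norm_coe y]
          have h3 : (y : K') = x + -(x - y) := by ring
          rw [h3]
          refine (IsUltrametricDist.norm_add_le_max _ _).trans (max_le hx ?_)
          rw [norm_neg]; exact hy.le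
        obtain ⟨c, hc⟩ := hres y hy1
        refine ⟨c, ?_⟩
        have h3 : x - algebraMap k' K' c = (x - y) + (((y - j c : F)) : K') := by
          rw [UniformSpace.Completion.coe_sub, hjj]; ring
        rw [h3]
        refine (IsUltrametricDist.norm_add_le_max _ _).trans_lt (max_lt hy ?_)
        rw [UniformSpace.Completion.norm_coe]
        exact hc
      a := fun i => ((a i : F) : K')
      p := p
      a_ne := by
        intro i h
        have h3 : ‖((a i : F) : K')‖ = 0 := by rw [h, norm_zero]
        rw [UniformSpace.Completion.norm_coe] at h3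
        exact ha i (norm_eq_zero.1 h3)
      a_lt := by
        intro i
        rw [UniformSpace.Completion.norm_coe]
        exact ha' i
      p_a := by
        intro i j
        rw [UniformSpace.Completion.norm_coe]
        exact hp i j
      p_int := by
        intro i x hx
        obtain ⟨y, hy⟩ := happrox x ‖x‖ (norm_pos_iff.2 hx)
        have h3 := heq x y hy
        rw [h3]
        refine hint i y ?_
        rintro rfl
        rw [norm_zero] at h3
        exact hx (norm_eq_zero.1 h3) }
  let Ω := AlgebraicClosure K'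
  let _ : NormedField Ω := spectralNorm.normedField K' Ω
  let _ : NormedAlgebra K' Ω := spectralNorm.normedAlgebra K' Ω
  have hchar : CharZero K' := by
    have : Function.Injective (algebraMap k' K') := (algebraMap k' K').injective
    exact charZero_of_injective_algebraMap this
  have hcharΩ : CharZero Ω :=
    charZero_of_injective_algebraMap (algebraMap K' Ω).injective
  refine ⟨Ω, Ω ≃ₐ[K'] Ω, inferInstance, inferInstance, inferInstance, inferInstance,
    tame B h1 h2, inferInstance, hcharΩ, rfl, fun i => norm_cr_lt B i, fun m n h => cr_indep B m n h⟩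

end Compl

/-- Existence of tame data. -/
theorem exists_tame (k' : Type u) [Field k'] [IsAlgClosed k'] [CharZero k'] {w : k'}
    (h1 : w ^ 3 = 1) (h2 : w ≠ 1) :
    ∃ (Ω D : Type u) (_ : NormedField Ω) (_ : Algebra k' Ω) (_ : Group D)
      (_ : MulSemiringAction D Ω) (T : TameData k' Ω D), IsAlgClosed Ω ∧ CharZero Ω ∧
        T.om = w ∧ (∀ i, ‖T.al i‖ < 1) ∧
        (∀ m n : Fin 3 → ℕ, ∏ i, ‖T.al i‖ ^ m i = ∏ i, ‖T.al i‖ ^ n i → m = n) := by
  obtain ⟨wt, p, hwt, hp⟩ := exists_weights
  let Γ : AddSubgroup ℝ :=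
    { carrier := {x | ∀ i, ∃ n : ℤ, p i x = n}
      add_mem' := by
        intro x y hx hy i
        obtain ⟨m, hm⟩ := hx i
        obtain ⟨n, hn⟩ := hy i
        exact ⟨m + n, by rw [map_add, hm, hn]; push_cast; ring⟩
      zero_mem' := fun i => ⟨0, by rw [map_zero]; simp⟩
      neg_mem' := by
        intro x hx i
        obtain ⟨m, hm⟩ := hx i
        exact ⟨-m, by rw [map_neg, hm]; push_cast; ring⟩ }
  have hwΓ : ∀ j, wt j ∈ Γ := by
    intro j i
    have h3 := hp i j
    rw [map_neg] at h3
    by_cases h : j = i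
    · exact ⟨-1, by rw [if_pos h] at h3; push_cast; linarith⟩
    · exact ⟨0, by rw [if_neg h] at h3; push_cast; linarith⟩
  let v := vabs Γ k'
  let F := WithAbs v
  let e : WithAbs v ≃+* HahnSeries Γ k' := WithAbs.equiv v
  have hnorm : ∀ x : F, ‖x‖ = v (e x) := fun x => rfl
  have hnorm' : ∀ x, ‖e.symm x‖ = v x := fun x => rfl
  refine exists_tame_of_field (F := F) h1 h2 ?_
    ((e.symm : HahnSeries Γ k' →+* F).comp (HahnSeries.C : k' →+* HahnSeries Γ k')) ?_ ?_
    (fun i => e.symm (single ⟨wt i, hwΓ i⟩ 1)) p ?_ ?_ ?_ ?_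
  · intro x y
    rw [hnorm, hnorm, hnorm, map_add]
    exact vabs_ultra _ _
  · intro c hc
    exact vabs_const hc
  · intro x hx
    obtain ⟨c, hc⟩ := vabs_residue (x := e x) hx
    exact ⟨c, hc⟩
  · intro i h
    have h3 : (single (⟨wt i, hwΓ i⟩ : Γ) (1 : k') : HahnSeries Γ k') = 0 :=
      (map_eq_zero_iff _ e.symm.injective).1 h
    exact (single_ne_zero one_ne_zero) h3
  · intro i
    rw [hnorm']
    show vabs Γ k' _ < 1
    rw [vabs_single one_ne_zero, Real.exp_lt_one_iff, neg_lt_zero]
    exact hwt i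
  · intro i j
    rw [hnorm']
    show p i (Real.log (vabs Γ k' _)) = _
    rw [vabs_single one_ne_zero, Real.log_exp]
    exact hp i j
  · intro i x hx
    have h3 : e x ≠ 0 := (map_ne_zero_iff _ e.injective).2 hx
    rw [hnorm]
    show ∃ n : ℤ, p i (Real.log (vabs Γ k' (e x))) = n
    rw [vabs_apply h3, Real.log_exp]
    obtain ⟨n, hn⟩ := (e x).order.2 i
    exact ⟨-n, by rw [map_neg, hn]; push_cast; ring⟩

end Pool.Agent.helper34.Cay
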