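import Mathlib

/-!
# Extensions of degree at most two
-/

namespace Pool.Agent.helper34.Cay

section

variable {E K : Type*} [Field E] [Field K] [CharZero E] [Algebra E K]

/-- Functoriality of quadratic algebras. -/
def qmap {R S : Type*} [CommRing R] [CommRing S] (f : R →+* S) (d : R) :
    QuadraticAlgebra R d 0 →+* QuadraticAlgebra S (f d) 0 where
  toFun z := ⟨f z.re, f z.im⟩
  map_one' := by
    ext
    · exact map_one f
    · exact map_zero f
  map_zero' := by
    ext
    · exact map_zero f
    · exact map_zero f
  map_add' x y := by ext <;> simp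
  map_mul' x y := by ext <;> simp

/-- the structure of an extension of degree at most two -/
theorem exists_quad (h : Module.rank E K ≤ 2) :
    ∃ (d : E) (δ : K) (Ψ : K →+* QuadraticAlgebra E d 0), d ≠ 0 ∧ δ ≠ 0 ∧
      δ ^ 2 = algebraMap E K d ∧
      (∀ x, algebraMap E K (Ψ x).re + algebraMap E K (Ψ x).im * δ = x) ∧
      (∀ y : E, Ψ (algebraMap E K y) = ⟨y, 0⟩) := by
  by_cases hE : Function.Surjective (algebraMap E K)
  · let e : E ≃+* K := RingEquiv.ofBijective (algebraMap E K)
      ⟨(algebraMap E K).injective, hE⟩
    have he : ∀ y, e y = algebraMap E K y := fun y => rfl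
    refine ⟨1, 1, (algebraMap E (QuadraticAlgebra E 1 0)).comp (e.symm : K →+* E), one_ne_zero,
      one_ne_zero, by rw [one_pow, map_one], ?_, ?_⟩
    · intro x
      show algebraMap E K (e.symm x) + algebraMap E K 0 * 1 = x
      rw [map_zero, zero_mul, add_zero, ← he, RingEquiv.apply_symm_apply]
    · intro y
      show (⟨e.symm (algebraMap E K y), 0⟩ : QuadraticAlgebra E 1 0) = _
      rw [← he, RingEquiv.symm_apply_apply]
  · rw [Function.Surjective] at hE
    push Not at hE
    obtain ⟨θ, hθ⟩ := hE
    have hfin : Module.rank E K < Cardinal.aleph0 := by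
      refine h.trans_lt ?_
      exact_mod_cast Cardinal.natCast_lt_aleph0 (n := 2)
    have hfd : FiniteDimensional E K := Module.rank_lt_aleph0_iff.1 hfin
    have hfr : Module.finrank E K ≤ 2 := by
      have h2 : ((Module.finrank E K : ℕ) : Cardinal) ≤ ((2 : ℕ) : Cardinal) := by
        rw [Module.finrank_eq_rank]
        exact_mod_cast h
      exact_mod_cast h2
    -- `1` and `θ` are independent
    have hind : ∀ a b : E, algebraMap E K a + algebraMap E K b * θ = 0 → a = 0 ∧ b = 0 := by
      intro a b hab
      have hb : b = 0 := by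
        by_contra hb
        apply hθ (-a / b)
        have hb' : algebraMap E K b ≠ 0 := (map_ne_zero_iff _ (algebraMap E K).injective).2 hb
        rw [map_div₀, map_neg, div_eq_iff hb']
        linear_combination -hab
      refine ⟨?_, hb⟩
      rw [hb, map_zero, zero_mul, add_zero] at hab
      exact (map_eq_zero_iff _ (algebraMap E K).injective).1 hab
    -- every element is a combination of `1` and `θ`
    have hspan : ∀ x : K, ∃ a b : E, x = algebraMap E K a + algebraMap E K b * θ := by
      intro x
      by_contra hcon
      push Not at hcon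
      have hli : LinearIndependent E ![(1 : K), θ, x] := by
        rw [Fintype.linearIndependent_iff]
        intro g hg
        rw [Fin.sum_univ_three] at hg
        change g 0 • (1 : K) + g 1 • θ + g 2 • x = 0 at hg
        simp only [Algebra.smul_def, mul_one] at hg
        have hg2 : g 2 = 0 := by
          by_contra hg2
          apply hcon (-g 0 / g 2) (-g 1 / g 2)
          have h' : algebraMap E K (g 2) ≠ 0 :=
            (map_ne_zero_iff _ (algebraMap E K).injective).2 hg2
          rw [map_div₀, map_div₀, map_neg, map_neg]
          field_simp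
          linear_combination hg
        rw [hg2, map_zero, zero_mul, add_zero] at hg
        obtain ⟨h0, h1⟩ := hind _ _ hg
        intro i
        fin_cases i
        · exact h0
        · exact h1
        · exact hg2
      have h1 := hli.fintype_card_le_finrank
      rw [Fintype.card_fin] at h1
      omega
    obtain ⟨s, t, hst⟩ := hspan (θ ^ 2)
    have hcharK : CharZero K := charZero_of_injective_algebraMap (algebraMap E K).injective
    have h2 : (2 : E) ≠ 0 := two_ne_zero
    -- completing the square
    obtain ⟨δ, hδ⟩ : ∃ δ : K, δ = θ - algebraMap E K (t / 2) := ⟨_, rfl⟩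
    have hδ2 : δ ^ 2 = algebraMap E K (s + t ^ 2 / 4) := by
      rw [hδ]
      have e1 : algebraMap E K (t / 2) = algebraMap E K t / 2 := by
        rw [map_div₀, map_ofNat]
      have e2 : algebraMap E K (s + t ^ 2 / 4) = algebraMap E K s + algebraMap E K t ^ 2 / 4 := by
        rw [map_add, map_div₀, map_ofNat, map_pow]
      rw [e1, e2]
      linear_combination hst
    have hδE : ∀ y : E, algebraMap E K y ≠ δ := by
      intro y hy
      apply hθ (y + t / 2)
      rw [map_add, hy, hδ]
      ring
    have hδ0 : δ ≠ 0 := by
      intro h0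
      exact hδE 0 (by rw [map_zero, h0])
    have hd0 : s + t ^ 2 / 4 ≠ 0 := by
      intro h0
      rw [h0, map_zero] at hδ2
      exact hδ0 (pow_eq_zero_iff two_ne_zero |>.1 hδ2)
    have hspan' : ∀ x : K, ∃ z : QuadraticAlgebra E (s + t ^ 2 / 4) 0,
        algebraMap E K z.re + algebraMap E K z.im * δ = x := by
      intro x
      obtain ⟨a, b, hab⟩ := hspan x
      refine ⟨⟨a + b * (t / 2), b⟩, ?_⟩
      show algebraMap E K (a + b * (t / 2)) + algebraMap E K b * δ = x
      rw [hab, hδ, map_add, map_mul]
      ring
    have huniq : ∀ z w : QuadraticAlgebra E (s + t ^ 2 / 4) 0,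
        algebraMap E K z.re + algebraMap E K z.im * δ =
          algebraMap E K w.re + algebraMap E K w.im * δ → z = w := by
      intro z w hzw
      have h3 : algebraMap E K (z.re - w.re - (z.im - w.im) * (t / 2)) +
          algebraMap E K (z.im - w.im) * θ = 0 := by
        have h4 : θ = δ + algebraMap E K (t / 2) := by rw [hδ]; ring
        rw [h4]
        simp only [map_sub, map_mul]
        linear_combination hzw
      obtain ⟨h5, h6⟩ := hind _ _ h3
      rw [h6, zero_mul, sub_zero] at h5
      exact QuadraticAlgebra.ext (sub_eq_zero.1 h5) (sub_eq_zero.1 h6)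
    choose Ψ hΨ using hspan'
    have hmul : ∀ z w : QuadraticAlgebra E (s + t ^ 2 / 4) 0,
        algebraMap E K (z * w).re + algebraMap E K (z * w).im * δ =
        (algebraMap E K z.re + algebraMap E K z.im * δ) *
          (algebraMap E K w.re + algebraMap E K w.im * δ) := by
      intro z w
      rw [QuadraticAlgebra.re_mul, QuadraticAlgebra.im_mul]
      simp only [map_add, map_mul, zero_mul, add_zero] at hδ2 ⊢
      linear_combination (-algebraMap E K z.im * algebraMap E K w.im) * hδ2
    refine ⟨s + t ^ 2 / 4, δ, ⟨⟨⟨Ψ, ?_⟩, ?_⟩, ?_, ?_⟩, hd0, hδ0, hδ2, hΨ, ?_⟩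
    · apply huniq
      rw [hΨ, QuadraticAlgebra.re_one, QuadraticAlgebra.im_one, map_one, map_zero, zero_mul,
        add_zero]
    · intro x y
      apply huniq
      show algebraMap E K (Ψ (x * y)).re + algebraMap E K (Ψ (x * y)).im * δ =
        algebraMap E K (Ψ x * Ψ y).re + algebraMap E K (Ψ x * Ψ y).im * δ
      rw [hΨ, hmul, hΨ, hΨ]
    · apply huniq
      show algebraMap E K (Ψ 0).re + algebraMap E K (Ψ 0).im * δ = _
      rw [hΨ, QuadraticAlgebra.re_zero, QuadraticAlgebra.im_zero, map_zero, zero_mul, add_zero]
    · intro x y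
      apply huniq
      show algebraMap E K (Ψ (x + y)).re + algebraMap E K (Ψ (x + y)).im * δ =
        algebraMap E K (Ψ x + Ψ y).re + algebraMap E K (Ψ x + Ψ y).im * δ
      rw [hΨ, QuadraticAlgebra.re_add, QuadraticAlgebra.im_add, map_add, map_add]
      have hx := hΨ x
      have hy := hΨ y
      linear_combination -hx - hy
    · intro y
      apply huniq
      show algebraMap E K (Ψ (algebraMap E K y)).re +
        algebraMap E K (Ψ (algebraMap E K y)).im * δ = algebraMap E K y + algebraMap E K 0 * δ
      rw [hΨ, map_zero, zero_mul, add_zero]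

end

end Pool.Agent.helper34.Cay
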