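import Pool.Agent.helper34.Cay.Reg
import Pool.Agent.helper34.Cay.QuadExt

/-!
# Frames and points
-/

namespace Pool.Agent.helper34.Cay

open scoped Classical
open HahnSeries TameData

variable {k k' Ω D n : Type*} [Field k] [IsAlgClosed k] [CharZero k] [Field k'] [Algebra k k']
  [NormedField Ω] [Algebra k' Ω] [Algebra k Ω] [IsScalarTower k k' Ω] [Group D]
  [MulSemiringAction D Ω] [Fintype n] [DecidableEq n]

/-- An equivariant generic frame. -/
structure Frame (k : Type*) {k' Ω D : Type*} [Field k] [Field k'] [Algebra k k']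
    [NormedField Ω] [Algebra k' Ω] [Algebra k Ω] [Group D] [MulSemiringAction D Ω]
    (T : TameData k' Ω D) (n : Type*) where
  ε : Option n × H → Ω
  smul_ε : ∀ (σ : D) (j : Option n) (h : H), σ • ε (j, h) = ε (j, h + T.rho σ)
  inj : Function.Injective (MvPolynomial.aeval ε : MvPolynomial (Option n × H) k →ₐ[k] Ω)
  lam : k'
  lam_ne : lam ≠ 0
  ε_none : ∀ h, ‖ε (none, h) - algebraMap k' Ω lam‖ < 1

/-- A matrix commuting with a diagonal matrix with distinct entries is diagonal. -/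
lemma diag_of_comm {m : Type*} [Fintype m] [DecidableEq m] {A : Type*} [Field A]
    {M : Matrix m m A} {x : m → A} (hx : Function.Injective x)
    (h : M * Matrix.diagonal x = Matrix.diagonal x * M) :
    M = Matrix.diagonal fun i => M i i := by
  ext i j
  by_cases hij : i = j
  · subst hij
    rw [Matrix.diagonal_apply_eq]
  · rw [Matrix.diagonal_apply_ne _ hij]
    have h1 := congrFun (congrFun h i) j
    rw [Matrix.mul_diagonal, Matrix.diagonal_mul] at h1
    have h2 : (x j - x i) * M i j = 0 := by linear_combination h1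
    rcases mul_eq_zero.1 h2 with h3 | h3
    · exact absurd (hx (sub_eq_zero.1 h3)).symm hij
    · exact h3

namespace Frame

variable {T : TameData k' Ω D} (fr : Frame k T n) (e : n ≃ H)

/-- the inverse denominator -/
noncomputable def u : Ω := (Up e fr.ε)⁻¹

omit [IsScalarTower k k' Ω] in
lemma Up_mul : Up e fr.ε * fr.u e = 1 :=
  mul_inv_cancel₀ (Up_ne_of_inj (k := k) e fr.inj)

/-- eigenvectors -/
def Z : Matrix n H Ω := Zm fr.ε

/-- inverse -/
noncomputable def W : Matrix H n Ω := Wm e fr.ε (fr.u e)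

/-- eigenvalues -/
noncomputable def x (z : k) : H → Ω := xm e z fr.ε (fr.u e)

omit [IsScalarTower k k' Ω] in
lemma Z_mul_W : fr.Z * fr.W e = 1 := Zm_mul_Wm (fr.Up_mul e)

omit [IsScalarTower k k' Ω] in
lemma W_mul_Z : fr.W e * fr.Z = 1 := Wm_mul_Zm (fr.Up_mul e)

omit [IsScalarTower k k' Ω] [IsAlgClosed k] [CharZero k] [Fintype n] [DecidableEq n] in
lemma smul_Z (σ : D) (i : n) (h : H) : σ • fr.Z i h = fr.Z i (h + T.rho σ) := fr.smul_ε σ _ h

omit [IsScalarTower k k' Ω] in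
lemma smul_W (σ : D) (h : H) (i : n) : σ • fr.W e h i = fr.W e (h + T.rho σ) i := by
  let s : Ω →+* Ω := MulSemiringAction.toRingHom D Ω σ
  let Z' : Matrix n H Ω := (fr.Z).map s
  let W' : Matrix H n Ω := (fr.W e).map s
  let W'' : Matrix H n Ω := Matrix.of fun h i => fr.W e (h + T.rho σ) i
  have h1 : Z' * W' = 1 := by
    rw [← Matrix.map_mul, fr.Z_mul_W, Matrix.map_one _ (map_zero s) (map_one s)]
  have h2 : W'' * Z' = 1 := by
    ext a b
    rw [Matrix.mul_apply]
    have h3 := congrFun (congrFun (fr.W_mul_Z e) (a + T.rho σ)) (b + T.rho σ)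
    rw [Matrix.mul_apply] at h3
    have h4 : ∀ j, Z' j b = fr.Z j (b + T.rho σ) := fun j => fr.smul_Z σ j b
    have h5 : (1 : Matrix H H Ω) (a + T.rho σ) (b + T.rho σ) = (1 : Matrix H H Ω) a b := by
      rw [Matrix.one_apply, Matrix.one_apply]
      simp
    rw [← h5, ← h3]
    exact Finset.sum_congr rfl fun j _ => by rw [h4]; rfl
  have h3 : W'' = W' := by
    calc W'' = W'' * (Z' * W') := by rw [h1, Matrix.mul_one]
      _ = W' := by rw [← Matrix.mul_assoc, h2, Matrix.one_mul]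
  exact (congrFun (congrFun h3 h) i).symm

omit [IsScalarTower k k' Ω] [IsAlgClosed k] [CharZero k] in
lemma u_det : fr.u e * (Zs e fr.ε).det * Gp fr.ε = fr.u e * Up e fr.ε := by
  unfold Up; ring

include e in
omit [IsScalarTower k k' Ω] in
lemma Gp_ne : Gp fr.ε ≠ 0 := by
  intro h
  have h1 := fr.Up_mul e
  unfold Up at h1
  rw [h, mul_zero, zero_mul] at h1
  exact zero_ne_one h1

omit [IsScalarTower k k' Ω] in
lemma x_eq (z : k) (h : H) :
    fr.x e z h = algebraMap k Ω z * fr.ε (none, h) ^ 27 / Gp fr.ε := by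
  have hG := fr.Gp_ne e
  have h1 : fr.u e * (Zs e fr.ε).det = (Gp fr.ε)⁻¹ := by
    apply eq_inv_of_mul_eq_one_left
    rw [fr.u_det, mul_comm, fr.Up_mul]
  show algebraMap k Ω z * fr.ε (none, h) ^ 27 * (fr.u e * (Zs e fr.ε).det) = _
  rw [h1, div_eq_mul_inv]

omit [IsAlgClosed k] [CharZero k] [IsScalarTower k k' Ω] [Fintype n] [DecidableEq n] in
lemma norm_ε (h : H) : ‖fr.ε (none, h)‖ = 1 := by
  have h1 : ‖algebraMap k' Ω fr.lam‖ = 1 := T.norm_const _ fr.lam_ne
  have h2 : ‖fr.ε (none, h) - algebraMap k' Ω fr.lam‖ < ‖algebraMap k' Ω fr.lam‖ := by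
    rw [h1]; exact fr.ε_none h
  rw [T.norm_eq_of_sub_lt h2, h1]

omit [IsAlgClosed k] [CharZero k] [IsScalarTower k k' Ω] [Fintype n] [DecidableEq n] in
lemma res_ε (h : H) : T.res (fr.ε (none, h)) = fr.lam := T.res_eq (fr.ε_none h)

omit [IsAlgClosed k] [CharZero k] [IsScalarTower k k' Ω] [Fintype n] [DecidableEq n] in
lemma res_pow {x : Ω} (hx : ‖x‖ ≤ 1) (m : ℕ) : T.res (x ^ m) = T.res x ^ m := by
  induction m with
  | zero => rw [pow_zero, pow_zero, T.res_one]
  | succ m ih =>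
    have : ‖x ^ m‖ ≤ 1 := by rw [norm_pow]; exact pow_le_one₀ (norm_nonneg _) hx
    rw [pow_succ, pow_succ, T.res_mul this hx, ih]

lemma norm_x {z : k} (hz : z ≠ 0) (h : H) : ‖fr.x e z h‖ = 1 := by
  have h1 : ‖Gp fr.ε‖ = 1 := by
    unfold Gp
    rw [norm_prod]
    exact Finset.prod_eq_one fun h _ => fr.norm_ε h
  have hz' : algebraMap k k' z ≠ 0 := (map_ne_zero_iff _ (algebraMap k k').injective).2 hz
  rw [fr.x_eq, norm_div, norm_mul, norm_pow, fr.norm_ε, h1,
    IsScalarTower.algebraMap_apply k k' Ω, T.norm_const _ hz']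
  simp

lemma res_x {z : k} (hz : z ≠ 0) (h : H) : T.res (fr.x e z h) = algebraMap k k' z := by
  have hn1 : ‖Gp fr.ε‖ = 1 := by
    unfold Gp
    rw [norm_prod]
    exact Finset.prod_eq_one fun h _ => fr.norm_ε h
  have hresG : T.res (Gp fr.ε) = fr.lam ^ 27 := by
    unfold Gp
    rw [(T.res_prod _ _ fun h _ => (fr.norm_ε h).le).1, Finset.prod_congr rfl
      fun h _ => fr.res_ε h, Finset.prod_const, Finset.card_univ, card_H]
  have hx := fr.norm_x e hz h
  have h1 : fr.x e z h * Gp fr.ε = algebraMap k' Ω (algebraMap k k' z) * fr.ε (none, h) ^ 27 := by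
    rw [fr.x_eq, div_mul_cancel₀ _ (fr.Gp_ne e), ← IsScalarTower.algebraMap_apply k k' Ω]
  have h2 := congrArg T.res h1
  have hε : ‖fr.ε (none, h) ^ 27‖ ≤ 1 := by rw [norm_pow, fr.norm_ε, one_pow]
  rw [T.res_mul hx.le hn1.le, T.res_mul (T.norm_const_le _) hε, T.res_const, hresG,
    res_pow (fr.norm_ε h).le, fr.res_ε] at h2
  exact mul_right_cancel₀ (pow_ne_zero _ fr.lam_ne) h2

end Frame

/-- A point of the generic family. -/
structure Pt {T : TameData k' Ω D} (fr : Frame k T n) (e : n ≃ H) {K : Type*} [Field K]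
    [Algebra k K] (X : Matrix n n K) where
  z : k
  hz : z ^ 27 = 1
  ψ : K →ₐ[k] Ω
  hψ : X.map ψ = Xm e z fr.ε (fr.u e)

variable {K : Type*} [Field K] [Algebra k K] {X : Matrix n n K}

omit [IsScalarTower k k' Ω] in
/-- points exist -/
lemma exists_pt {T : TameData k' Ω D} (fr : Frame k T n) (e : n ≃ H)
    (hX : IsFunctionFieldSL k X) {z : k} (hz : z ^ 27 = 1) : ∃ P : Pt fr e X, P.z = z := by
  obtain ⟨ψ, hψ⟩ := hX.exists_hom (Xm e z fr.ε (fr.u e)) (family_rel e hX fr.inj hz)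
  exact ⟨⟨z, hz, ψ, hψ⟩, rfl⟩

namespace Pt

variable {T : TameData k' Ω D} {fr : Frame k T n} {e : n ≃ H} (P : Pt fr e X)

omit [IsAlgClosed k] [CharZero k] [IsScalarTower k k' Ω] in
lemma z_ne : P.z ≠ 0 := by
  intro h
  have := P.hz
  rw [h] at this
  norm_num at this

omit [IsAlgClosed k] [CharZero k] [IsScalarTower k k' Ω] in
lemma map_X : X.map P.ψ = fr.Z * Matrix.diagonal (fr.x e P.z) * fr.W e := P.hψ

lemma smul_x (σ : D) (h : H) : σ • fr.x e P.z h = fr.x e P.z (h + T.rho σ) := by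
  let s : Ω →+* Ω := MulSemiringAction.toRingHom D Ω σ
  have hs : ∀ y, s y = σ • y := fun y => rfl
  have hG : σ • Gp fr.ε = Gp fr.ε := by
    unfold Gp
    rw [← hs, map_prod]
    rw [← Equiv.prod_comp (Equiv.addRight (T.rho σ)) (fun h => fr.ε (none, h))]
    refine Finset.prod_congr rfl fun h _ => ?_
    rw [hs, fr.smul_ε]
    rfl
  have hk : σ • algebraMap k Ω P.z = algebraMap k Ω P.z := by
    rw [IsScalarTower.algebraMap_apply k k' Ω, T.smul_const]
  rw [fr.x_eq, fr.x_eq, smul_div₀', smul_mul', hk, smul_pow', fr.smul_ε, hG]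

lemma smul_entry (σ : D) (i j : n) : σ • P.ψ (X i j) = P.ψ (X i j) := by
  have h1 : P.ψ (X i j) = (fr.Z * Matrix.diagonal (fr.x e P.z) * fr.W e) i j :=
    congrFun (congrFun P.map_X i) j
  rw [h1, Matrix.mul_apply, Finset.smul_sum]
  conv_rhs => rw [← Equiv.sum_comp (Equiv.addRight (T.rho σ))]
  refine Finset.sum_congr rfl fun h _ => ?_
  rw [smul_mul', Matrix.mul_diagonal, smul_mul', fr.smul_Z, P.smul_x, fr.smul_W]
  rw [Matrix.mul_diagonal]
  rfl

lemma smul_ψ (hX : IsFunctionFieldSL k X) (σ : D) (κ : K) : σ • P.ψ κ = P.ψ κ := by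
  have hmem : κ ∈ IntermediateField.adjoin k (Set.range (ent X)) := by
    have : IntermediateField.adjoin k (Set.range (ent X)) = ⊤ := hX.gen
    rw [this]; trivial
  induction hmem using IntermediateField.adjoin_induction with
  | mem x hx =>
    obtain ⟨ij, rfl⟩ := hx
    exact P.smul_entry σ ij.1 ij.2
  | algebraMap c =>
    rw [AlgHom.commutes, IsScalarTower.algebraMap_apply k k' Ω, T.smul_const]
  | add x y _ _ hx hy => rw [map_add, smul_add, hx, hy]
  | mul x y _ _ hx hy => rw [map_mul, smul_mul', hx, hy]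
  | inv x _ hx => rw [map_inv₀, smul_inv₀', hx]

omit [IsScalarTower k k' Ω] in
/-- matrices commuting with the generic element are diagonalised by the frame -/
lemma diag_F (hX : IsFunctionFieldSL k X) {F : Matrix n n K} (hFX : F * X = X * F) :
    fr.W e * F.map P.ψ * fr.Z =
      Matrix.diagonal fun h => (fr.W e * F.map P.ψ * fr.Z) h h := by
  have hne : Nonempty n := ⟨e.symm 0⟩
  have hcard : Fintype.card n = Fintype.card H := Fintype.card_congr e
  have hxinj : Function.Injective (fr.x e P.z) := by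
    apply injective_of_dsc fr.Z (fr.W e) (fr.W_mul_Z e) hcard
    rw [← P.map_X]
    have h1 := dsc_map (P.ψ : K →+* Ω) X
    have h2 : X.map (P.ψ : K →+* Ω) = X.map P.ψ := rfl
    rw [h2] at h1
    rw [h1]
    exact (map_ne_zero_iff _ P.ψ.injective).2 hX.dsc_ne
  apply diag_of_comm hxinj
  have h1 : F.map P.ψ * X.map P.ψ = X.map P.ψ * F.map P.ψ := by
    rw [← Matrix.map_mul, hFX, Matrix.map_mul]
  rw [P.map_X] at h1
  obtain ⟨M, hM⟩ : ∃ M, M = fr.Z * Matrix.diagonal (fr.x e P.z) * fr.W e := ⟨_, rfl⟩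
  have h2 : fr.Z * Matrix.diagonal (fr.x e P.z) = M * fr.Z := by
    rw [hM, Matrix.mul_assoc, fr.W_mul_Z, Matrix.mul_one]
  have h3 : Matrix.diagonal (fr.x e P.z) * fr.W e = fr.W e * M := by
    rw [hM, Matrix.mul_assoc fr.Z, ← Matrix.mul_assoc (fr.W e), fr.W_mul_Z, Matrix.one_mul]
  rw [← hM] at h1
  calc fr.W e * F.map P.ψ * fr.Z * Matrix.diagonal (fr.x e P.z)
      = fr.W e * (F.map P.ψ * (fr.Z * Matrix.diagonal (fr.x e P.z))) := by
        simp only [Matrix.mul_assoc]
    _ = fr.W e * ((F.map P.ψ * M) * fr.Z) := by rw [h2, Matrix.mul_assoc (F.map P.ψ)]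
    _ = fr.W e * ((M * F.map P.ψ) * fr.Z) := by rw [h1]
    _ = (fr.W e * M) * (F.map P.ψ * fr.Z) := by simp only [Matrix.mul_assoc]
    _ = Matrix.diagonal (fr.x e P.z) * (fr.W e * F.map P.ψ * fr.Z) := by
        rw [← h3]
        simp only [Matrix.mul_assoc]

omit [IsScalarTower k k' Ω] in
lemma diag_F_injective (hX : IsFunctionFieldSL k X) {F : Matrix n n K}
    (hF : IsDominantEquivariant k X F) :
    Function.Injective fun h => (fr.W e * F.map P.ψ * fr.Z) h h := by
  have hne : Nonempty n := ⟨e.symm 0⟩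
  have hcard : Fintype.card n = Fintype.card H := Fintype.card_congr e
  apply injective_of_dsc fr.Z (fr.W e) (fr.W_mul_Z e) hcard
  rw [← P.diag_F hX (hX.comm hF)]
  have h2 : fr.Z * (fr.W e * F.map P.ψ * fr.Z) * fr.W e = F.map P.ψ := by
    rw [← Matrix.mul_assoc, ← Matrix.mul_assoc, fr.Z_mul_W, Matrix.one_mul, Matrix.mul_assoc,
      fr.Z_mul_W, Matrix.mul_one]
  rw [h2]
  have h1 := dsc_map (P.ψ : K →+* Ω) F
  have h3 : F.map (P.ψ : K →+* Ω) = F.map P.ψ := rfl
  rw [h3] at h1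
  rw [h1]
  exact (map_ne_zero_iff _ P.ψ.injective).2 hF.dsc_ne

end Pt

end Pool.Agent.helper34.Cay
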