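import Pool.Agent.helper34.Cay.Tame

/-!
# The index lemma
-/

namespace Pool.Agent.helper34.Cay

open scoped Classical commutatorElement

section Chars

variable {k' D : Type*} [Field k'] [Group D]

/-- characters trivial on a subgroup -/
def charsTrivialOn (D₁ : Subgroup D) : Subgroup (D →* k'ˣ) where
  carrier := {χ | ∀ σ ∈ D₁, χ σ = 1}
  mul_mem' := by
    intro a b ha hb σ hσ
    rw [MonoidHom.mul_apply, ha σ hσ, hb σ hσ, one_mul]
  one_mem' := fun σ _ => rfl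
  inv_mem' := by
    intro a ha σ hσ
    rw [MonoidHom.inv_apply, ha σ hσ, inv_one]

lemma card_charsTrivialOn_dvd [IsAlgClosed k'] [CharZero k'] (D₁ : Subgroup D) (h0 : D₁.index ≠ 0) :
    Nat.card (charsTrivialOn (k' := k') D₁) ∣ D₁.index := by
  set N : Subgroup D := commutator D ⊔ D₁ with hN
  have hcomm : commutator D ≤ N := le_sup_left
  have hnormal : N.Normal := by
    constructor
    intro n hn g
    have h1 : g * n * g⁻¹ = ⁅g, n⁆ * n := by
      rw [commutatorElement_def]; group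
    rw [h1]
    refine N.mul_mem (hcomm ?_) hn
    exact Subgroup.commutator_mem_commutator (Subgroup.mem_top g) (Subgroup.mem_top n)
  have hidx : N.index ∣ D₁.index := Subgroup.index_dvd_of_le le_sup_right
  have hN0 : N.index ≠ 0 := fun h => h0 (Nat.eq_zero_of_zero_dvd (h ▸ hidx))
  have hfin : Finite (D ⧸ N) := by
    have : N.FiniteIndex := ⟨hN0⟩
    infer_instance
  let _ : CommGroup (D ⧸ N) :=
    { (inferInstance : Group (D ⧸ N)) with
      mul_comm := by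
        intro a b
        obtain ⟨a, rfl⟩ := QuotientGroup.mk_surjective a
        obtain ⟨b, rfl⟩ := QuotientGroup.mk_surjective b
        rw [← QuotientGroup.mk_mul, ← QuotientGroup.mk_mul, QuotientGroup.eq]
        have h1 : (a * b)⁻¹ * (b * a) = ⁅b⁻¹, a⁻¹⁆ := by
          rw [commutatorElement_def]; group
        rw [h1]
        exact hcomm (Subgroup.commutator_mem_commutator (Subgroup.mem_top _) (Subgroup.mem_top _)) }
  have hker : ∀ χ : charsTrivialOn (k' := k') D₁, N ≤ (χ : D →* k'ˣ).ker := by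
    intro χ
    rw [hN, sup_le_iff]
    refine ⟨?_, fun σ hσ => χ.2 σ hσ⟩
    exact Abelianization.commutator_subset_ker _
  let f : charsTrivialOn (k' := k') D₁ →* (D ⧸ N →* k'ˣ) :=
    { toFun := fun χ => QuotientGroup.lift N (χ : D →* k'ˣ) (hker χ)
      map_one' := by
        ext x
        rfl
      map_mul' := by
        intro χ χ'
        ext x
        rfl }
  have hf : Function.Injective f := by
    intro χ χ' h
    apply Subtype.ext
    ext x
    have := DFunLike.congr_fun h (QuotientGroup.mk x)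
    exact congrArg Units.val this
  have h1 := Subgroup.card_dvd_of_injective f hf
  have h2 : Nat.card (D ⧸ N →* k'ˣ) = Nat.card (D ⧸ N) :=
    CommGroup.card_monoidHom_of_hasEnoughRootsOfUnity (D ⧸ N) k'
  rw [h2] at h1
  exact h1.trans hidx

end Chars

namespace TameData

variable {k' Ω D : Type*} [Field k'] [NormedField Ω] [Algebra k' Ω] [Group D]
  [MulSemiringAction D Ω] (T : TameData k' Ω D)

include T

/-- The alternating form `θ(x, y) = va x vc y - vc x va y`. -/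
noncomputable def th (x y : Ω) : ℚ := T.va x * T.vc y - T.vc x * T.va y

lemma chiHom_mem (D₁ : Subgroup D) (x : Ωˣ) (hx : ∀ σ ∈ D₁, σ • (x : Ω) = x) :
    T.chiHomHom x ∈ charsTrivialOn (k' := k') D₁ := by
  intro σ hσ
  apply Units.ext
  show T.chi (x : Ω) σ = 1
  unfold chi
  rw [hx σ hσ, div_self x.ne_zero, T.res_one]

lemma int_of_chiHom [CharZero k'] {z : Ωˣ} (h : T.chiHomHom z = 1) :
    (∃ n : ℤ, T.va (z : Ω) = n) ∧ ∃ n : ℤ, T.vc (z : Ω) = n := by
  refine T.int_of_chi z.ne_zero fun σ => ?_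
  have := DFunLike.congr_fun h σ
  exact congrArg Units.val this

lemma va_zpow (x : Ωˣ) (n : ℤ) : T.va ((x ^ n : Ωˣ) : Ω) = n * T.va (x : Ω) := by
  have h : T.vaHom (x ^ n) = T.vaHom x ^ n := map_zpow _ _ _
  have h2 := congrArg Multiplicative.toAdd h
  rw [toAdd_zpow] at h2
  rw [zsmul_eq_mul] at h2
  exact h2

lemma vc_zpow (x : Ωˣ) (n : ℤ) : T.vc ((x ^ n : Ωˣ) : Ω) = n * T.vc (x : Ω) := by
  have h : T.vcHom (x ^ n) = T.vcHom x ^ n := map_zpow _ _ _
  have h2 := congrArg Multiplicative.toAdd h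
  rw [toAdd_zpow] at h2
  rw [zsmul_eq_mul] at h2
  exact h2

/-- The index lemma. -/
lemma index_theta_aux [IsAlgClosed k'] [CharZero k'] (D₁ : Subgroup D) (h0 : D₁.index ≠ 0)
    (x y b : Ωˣ) (hx : ∀ σ ∈ D₁, σ • (x : Ω) = x) (hy : ∀ σ ∈ D₁, σ • (y : Ω) = y)
    (hb : ∀ σ ∈ D₁, σ • (b : Ω) = b) (hba : T.va (b : Ω) = 0) (hbc : T.vc (b : Ω) = 0) :
    ∃ n : ℤ, (D₁.index : ℚ) * T.th (x : Ω) y =
      Nat.card (Subgroup.zpowers (T.chiHomHom b)) * n := by
  set C := charsTrivialOn (k' := k') D₁ with hC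
  set X := T.chiHomHom x with hX
  set Y := T.chiHomHom y with hY
  set B := T.chiHomHom b with hB
  have hXC : X ∈ C := T.chiHom_mem D₁ x hx
  have hYC : Y ∈ C := T.chiHom_mem D₁ y hy
  have hBC : B ∈ C := T.chiHom_mem D₁ b hb
  set B0 := Subgroup.zpowers B with hB0
  set B1 := B0 ⊔ Subgroup.zpowers X with hB1
  set B2 := B1 ⊔ Subgroup.zpowers Y with hB2
  have h01 : B0 ≤ B1 := le_sup_left
  have h12 : B1 ≤ B2 := le_sup_left
  have h0C : B0 ≤ C := by rw [hB0, Subgroup.zpowers_le]; exact hBC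
  have h1C : B1 ≤ C := sup_le h0C (by rw [Subgroup.zpowers_le]; exact hXC)
  have h2C : B2 ≤ C := sup_le h1C (by rw [Subgroup.zpowers_le]; exact hYC)
  have hcard : Nat.card B0 * (B0.relIndex B1) * (B1.relIndex B2) * (B2.relIndex C) =
      Nat.card C := by
    have e1 : (⊥ : Subgroup (D →* k'ˣ)).relIndex B0 = Nat.card B0 := Subgroup.relIndex_bot_left _
    have e2 : (⊥ : Subgroup (D →* k'ˣ)).relIndex C = Nat.card C := Subgroup.relIndex_bot_left _
    rw [← e1, ← e2, Subgroup.relIndex_mul_relIndex _ _ _ bot_le h01,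
      Subgroup.relIndex_mul_relIndex _ _ _ bot_le h12,
      Subgroup.relIndex_mul_relIndex _ _ _ bot_le h2C]
  obtain ⟨t, ht⟩ := card_charsTrivialOn_dvd (k' := k') D₁ h0
  rw [← hcard] at ht
  have hB0n : B0.Normal := ⟨fun n hn g => by
    rw [mul_comm g n, mul_assoc, mul_inv_cancel, mul_one]; exact hn⟩
  have hB1n : B1.Normal := ⟨fun n hn g => by
    rw [mul_comm g n, mul_assoc, mul_inv_cancel, mul_one]; exact hn⟩
  have hX1 : X ^ (B0.relIndex B1) ∈ B0 :=
    Subgroup.pow_relIndex_mem B0 (Subgroup.mem_sup_right (Subgroup.mem_zpowers X))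
  have hY1 : Y ^ (B1.relIndex B2) ∈ B1 :=
    Subgroup.pow_relIndex_mem B1 (Subgroup.mem_sup_right (Subgroup.mem_zpowers Y))
  set N1 := B0.relIndex B1 with hN1
  set N2 := B1.relIndex B2 with hN2
  obtain ⟨l, hl⟩ := Subgroup.mem_zpowers_iff.1 hX1
  obtain ⟨u, hu, w, hw, huw⟩ := Subgroup.mem_sup.1 hY1
  obtain ⟨l', rfl⟩ := Subgroup.mem_zpowers_iff.1 hu
  obtain ⟨i, rfl⟩ := Subgroup.mem_zpowers_iff.1 hw
  -- first relation
  have r1 : T.chiHomHom (x ^ N1 * b ^ (-l)) = 1 := by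
    rw [map_mul, map_pow, map_zpow, ← hX, ← hB, ← hl, ← zpow_add, add_neg_cancel, zpow_zero]
  have r2 : T.chiHomHom (y ^ N2 * b ^ (-l') * x ^ (-i)) = 1 := by
    rw [map_mul, map_mul, map_pow, map_zpow, map_zpow, ← hX, ← hB, ← hY, ← huw]
    rw [zpow_neg, zpow_neg, mul_comm (B ^ l') (X ^ i), mul_assoc (X ^ i), mul_inv_cancel, mul_one,
      mul_inv_cancel]
  obtain ⟨⟨a1, ha1⟩, ⟨c1, hc1⟩⟩ := T.int_of_chiHom r1
  obtain ⟨⟨a2, ha2⟩, ⟨c2, hc2⟩⟩ := T.int_of_chiHom r2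
  rw [Units.val_mul, T.va_mul (Units.ne_zero _) (Units.ne_zero _), T.va_zpow, hba, mul_zero,
    add_zero, Units.val_pow_eq_pow_val, T.va_pow] at ha1
  rw [Units.val_mul, T.vc_mul (Units.ne_zero _) (Units.ne_zero _), T.vc_zpow, hbc, mul_zero,
    add_zero, Units.val_pow_eq_pow_val, T.vc_pow] at hc1
  rw [Units.val_mul, T.va_mul (Units.ne_zero _) (Units.ne_zero _), T.va_zpow, Units.val_mul,
    T.va_mul (Units.ne_zero _) (Units.ne_zero _), T.va_zpow, hba, mul_zero,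
    add_zero, Units.val_pow_eq_pow_val, T.va_pow] at ha2
  rw [Units.val_mul, T.vc_mul (Units.ne_zero _) (Units.ne_zero _), T.vc_zpow, Units.val_mul,
    T.vc_mul (Units.ne_zero _) (Units.ne_zero _), T.vc_zpow, hbc, mul_zero,
    add_zero, Units.val_pow_eq_pow_val, T.vc_pow] at hc2
  have key : (N1 : ℚ) * N2 * T.th (x : Ω) y = a1 * c2 - c1 * a2 := by
    unfold th
    rw [← ha1, ← ha2, ← hc1, ← hc2]
    push_cast
    ring
  refine ⟨(a1 * c2 - c1 * a2) * (B2.relIndex C) * t, ?_⟩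
  rw [ht]
  push_cast
  have h3 : (Nat.card B0 : ℚ) * (N1 : ℚ) * N2 * (B2.relIndex C) * t * T.th (x : Ω) y =
      Nat.card B0 * ((N1 : ℚ) * N2 * T.th (x : Ω) y) * (B2.relIndex C) * t := by ring
  rw [h3, key]
  ring

lemma index_theta [IsAlgClosed k'] [CharZero k'] (D₁ : Subgroup D) (h0 : D₁.index ≠ 0)
    {x y : Ω} (hx0 : x ≠ 0) (hy0 : y ≠ 0) (hx : ∀ σ ∈ D₁, σ • x = x)
    (hy : ∀ σ ∈ D₁, σ • y = y) : ∃ n : ℤ, (D₁.index : ℚ) * T.th x y = n := by
  obtain ⟨n, hn⟩ := T.index_theta_aux D₁ h0 (Units.mk0 x hx0) (Units.mk0 y hy0) 1 hx hy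
    (fun σ _ => by rw [Units.val_one, smul_one]) (by unfold va; simp) (by unfold vc; simp)
  refine ⟨Nat.card (Subgroup.zpowers (T.chiHomHom 1)) * n, ?_⟩
  rw [Units.val_mk0, Units.val_mk0] at hn
  rw [hn]
  push_cast
  rfl

lemma chi_al (i : Fin 3) (σ : D) : T.chi (T.al i) σ = T.om ^ (T.rho σ i).val := by
  unfold chi
  rw [T.smul_al, mul_div_assoc, div_self (T.al_ne i), mul_one, T.res_const]

lemma card_zpowers_be [CharZero k'] :
    Nat.card (Subgroup.zpowers (T.chiHomHom (Units.mk0 (T.al 1) (T.al_ne 1)))) = 3 := by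
  rw [Nat.card_zpowers]
  have : Fact (Nat.Prime 3) := ⟨Nat.prime_three⟩
  apply orderOf_eq_prime
  · ext σ
    show ((T.chiHomHom (Units.mk0 (T.al 1) (T.al_ne 1))) σ ^ 3 : k'ˣ).val = 1
    rw [Units.val_pow_eq_pow_val]
    show (T.chi (T.al 1) σ) ^ 3 = 1
    rw [T.chi_al, ← pow_mul, mul_comm, pow_mul, T.om_pow, one_pow]
  · intro h
    obtain ⟨σ, hσ⟩ := T.rho_surj (fun _ => 1)
    have h1 : T.chi (T.al 1) σ = 1 := congrArg Units.val (DFunLike.congr_fun h σ)
    rw [T.chi_al, hσ] at h1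
    apply T.om_ne
    have : (1 : ZMod 3).val = 1 := rfl
    rwa [this, pow_one] at h1

lemma index_theta_three [IsAlgClosed k'] [CharZero k'] (D₁ : Subgroup D) (h0 : D₁.index ≠ 0)
    {x y : Ω} (hx0 : x ≠ 0) (hy0 : y ≠ 0) (hx : ∀ σ ∈ D₁, σ • x = x)
    (hy : ∀ σ ∈ D₁, σ • y = y) (hb : ∀ σ ∈ D₁, σ • T.al 1 = T.al 1) :
    ∃ n : ℤ, (D₁.index : ℚ) * T.th x y = 3 * n := by
  obtain ⟨n, hn⟩ := T.index_theta_aux D₁ h0 (Units.mk0 x hx0) (Units.mk0 y hy0)
    (Units.mk0 (T.al 1) (T.al_ne 1)) hx hy hb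
    (by have := T.pa_al 1; rw [if_neg (by decide)] at this; exact this)
    (by have := T.pc_al 1; rw [if_neg (by decide)] at this; exact this)
  rw [T.card_zpowers_be] at hn
  exact ⟨n, hn⟩

end TameData

end Pool.Agent.helper34.Cay
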