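import Pool.Agent.helper34.Cay.Index

/-!
# Laurent series over a valued field and alternating forms
-/

namespace Pool.Agent.helper34.Cay

open scoped Classical
open HahnSeries

/-! ### Alternating forms -/

/-- A biadditive alternating form with rational values. -/
structure Alt (A : Type*) [AddCommGroup A] where
  B : A → A → ℚ
  add_left : ∀ x y z, B (x + y) z = B x z + B y z
  add_right : ∀ x y z, B x (y + z) = B x y + B x z
  self : ∀ x, B x x = 0

namespace Alt

variable {A : Type*} [AddCommGroup A] (b : Alt A)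

lemma zero_left (x : A) : b.B 0 x = 0 := by
  have := b.add_left 0 0 x
  rw [add_zero] at this
  linarith

lemma zero_right (x : A) : b.B x 0 = 0 := by
  have := b.add_right x 0 0
  rw [add_zero] at this
  linarith

lemma neg_left (x y : A) : b.B (-x) y = - b.B x y := by
  have := b.add_left (-x) x y
  rw [neg_add_cancel, b.zero_left] at this
  linarith

lemma neg_right (x y : A) : b.B x (-y) = - b.B x y := by
  have := b.add_right x (-y) y
  rw [neg_add_cancel, b.zero_right] at this
  linarith

lemma sub_left (x y z : A) : b.B (x - y) z = b.B x z - b.B y z := by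
  rw [sub_eq_add_neg, b.add_left, b.neg_left]; ring

lemma sub_right (x y z : A) : b.B x (y - z) = b.B x y - b.B x z := by
  rw [sub_eq_add_neg, b.add_right, b.neg_right]; ring

lemma symm (x y : A) : b.B x y = - b.B y x := by
  have := b.self (x + y)
  rw [b.add_left, b.add_right, b.add_right, b.self, b.self] at this
  linarith

/-- the Steinberg relation -/
lemma steinberg {x y z : A} (h : x = y ∨ z = x ∨ z = y) : b.B x y = b.B x z - b.B y z := by
  rcases h with rfl | rfl | rfl
  · rw [b.self, sub_self]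
  · rw [b.self, b.symm]; ring
  · rw [b.self]; ring

end Alt

/-! ### Laurent series -/

section Laurent

variable {Ω : Type*} [Field Ω]

lemma lead_spec {f : HahnSeries ℤ Ω} {n : ℤ} (h1 : f.coeff n ≠ 0) (h2 : ∀ m < n, f.coeff m = 0) :
    f.order = n ∧ f.leadingCoeff = f.coeff n := by
  have hf : f ≠ 0 := fun h => h1 (by rw [h, coeff_zero])
  have h3 : f.order = n := by
    apply le_antisymm
    · exact order_le_of_coeff_ne_zero h1
    · by_contra hc
      push Not at hc
      have := h2 _ hc
      exact (coeff_order_eq_zero.not.2 hf) this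
  exact ⟨h3, by rw [leadingCoeff_eq, h3]⟩

lemma order_div' {f g : HahnSeries ℤ Ω} (hf : f ≠ 0) (hg : g ≠ 0) :
    (f / g).order = f.order - g.order := by
  have h1 : f / g ≠ 0 := div_ne_zero hf hg
  have h2 : f = (f / g) * g := by field_simp
  have h3 : f.order = (f / g).order + g.order := by
    conv_lhs => rw [h2]
    exact order_mul h1 hg
  linarith

lemma leadingCoeff_div' {f g : HahnSeries ℤ Ω} (hg : g ≠ 0) :
    (f / g).leadingCoeff = f.leadingCoeff / g.leadingCoeff := by
  have h2 : f = (f / g) * g := by field_simp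
  have h3 : f.leadingCoeff = (f / g).leadingCoeff * g.leadingCoeff := by
    conv_lhs => rw [h2]
    exact leadingCoeff_mul _ _
  rw [h3, mul_div_assoc, div_self (leadingCoeff_ne_zero.2 hg), mul_one]

lemma order_prod' {ι : Type*} (s : Finset ι) (f : ι → HahnSeries ℤ Ω) (h : ∀ i ∈ s, f i ≠ 0) :
    (∏ i ∈ s, f i).order = ∑ i ∈ s, (f i).order := by
  induction s using Finset.induction_on with
  | empty => simp
  | insert i s hi ih =>
    rw [Finset.prod_insert hi, Finset.sum_insert hi, order_mul (h i (Finset.mem_insert_self _ _))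
      (Finset.prod_ne_zero_iff.2 fun j hj => h j (Finset.mem_insert_of_mem hj)),
      ih fun j hj => h j (Finset.mem_insert_of_mem hj)]

lemma leadingCoeff_prod' {ι : Type*} (s : Finset ι) (f : ι → HahnSeries ℤ Ω) :
    (∏ i ∈ s, f i).leadingCoeff = ∏ i ∈ s, (f i).leadingCoeff := by
  induction s using Finset.induction_on with
  | empty => simp
  | insert i s hi ih =>
    rw [Finset.prod_insert hi, Finset.prod_insert hi, leadingCoeff_mul, ih]

/-- Coefficientwise map by an automorphism. -/
noncomputable def lmap (σ : Ω ≃+* Ω) : HahnSeries ℤ Ω →+* HahnSeries ℤ Ω where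
  toFun x := x.map σ
  map_one' := by
    ext n
    rw [map_coeff, coeff_one]
    split_ifs <;> simp
  map_zero' := by
    ext n
    rw [map_coeff, coeff_zero, map_zero]
  map_add' x y := by
    ext n
    rw [map_coeff, coeff_add, coeff_add, map_coeff, map_coeff, map_add]
  map_mul' x y := by
    ext n
    rw [map_coeff, coeff_mul, coeff_mul, map_sum]
    have hsupp : ∀ z : HahnSeries ℤ Ω, (z.map σ).support = z.support := by
      intro z
      ext m
      rw [mem_support, mem_support, map_coeff]
      simp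
    refine Finset.sum_congr ?_ ?_
    · ext ⟨i, j⟩
      rw [Finset.mem_antidiagonal, Finset.mem_antidiagonal, hsupp, hsupp]
    · intro p _
      rw [map_mul]
      rfl

@[simp] lemma lmap_coeff (σ : Ω ≃+* Ω) (x : HahnSeries ℤ Ω) (n : ℤ) :
    (lmap σ x).coeff n = σ (x.coeff n) := rfl

lemma lmap_injective (σ : Ω ≃+* Ω) : Function.Injective (lmap σ) := (lmap σ).injective

lemma lmap_order (σ : Ω ≃+* Ω) (x : HahnSeries ℤ Ω) : (lmap σ x).order = x.order := by
  by_cases hx : x = 0
  · rw [hx, map_zero]
  refine (lead_spec (f := lmap σ x) ?_ ?_).1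
  · rw [lmap_coeff]
    intro h
    rw [map_eq_zero_iff σ σ.injective] at h
    exact (coeff_order_eq_zero.not.2 hx) h
  · intro m hm
    rw [lmap_coeff, coeff_eq_zero_of_lt_order hm, map_zero]

lemma lmap_leadingCoeff (σ : Ω ≃+* Ω) (x : HahnSeries ℤ Ω) :
    (lmap σ x).leadingCoeff = σ x.leadingCoeff := by
  rw [leadingCoeff_eq, leadingCoeff_eq, lmap_order, lmap_coeff]

lemma lmap_single (σ : Ω ≃+* Ω) (n : ℤ) (c : Ω) : lmap σ (single n c) = single n (σ c) := by
  ext m
  rw [lmap_coeff, coeff_single, coeff_single]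
  split_ifs <;> simp

lemma lmap_C (σ : Ω ≃+* Ω) (c : Ω) : lmap σ (C c) = C (σ c) := lmap_single σ 0 c

end Laurent

namespace TameData

variable {k' Ω D : Type*} [Field k'] [NormedField Ω] [Algebra k' Ω] [Group D]
  [MulSemiringAction D Ω] (T : TameData k' Ω D)

/-- The (rank one plus) valuation of a Laurent series. -/
noncomputable def V (f : HahnSeries ℤ Ω) : ℤ × ℝ := (f.order, Real.log ‖f.leadingCoeff‖)

lemma V_mul {f g : HahnSeries ℤ Ω} (hf : f ≠ 0) (hg : g ≠ 0) : V (f * g) = V f + V g := by
  unfold V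
  rw [order_mul hf hg, leadingCoeff_mul, norm_mul,
    Real.log_mul (norm_ne_zero_iff.2 (leadingCoeff_ne_zero.2 hf))
      (norm_ne_zero_iff.2 (leadingCoeff_ne_zero.2 hg))]
  rfl

lemma V_div {f g : HahnSeries ℤ Ω} (hf : f ≠ 0) (hg : g ≠ 0) : V (f / g) = V f - V g := by
  have h := V_mul (div_ne_zero hf hg) hg
  have h2 : f / g * g = f := by field_simp
  rw [h2] at h
  rw [h, add_sub_cancel_right]

lemma V_neg (f : HahnSeries ℤ Ω) : V (-f) = V f := by
  unfold V
  rw [order_neg, leadingCoeff_neg, norm_neg]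

include T in
lemma V_trichotomy {f g h : HahnSeries ℤ Ω} (hf : f ≠ 0) (hg : g ≠ 0)
    (hfg : f - g = h) (_hh : h ≠ 0) : V f = V g ∨ V h = V f ∨ V h = V g := by
  have hcf : f.coeff f.order ≠ 0 := coeff_order_eq_zero.not.2 hf
  have hcg : g.coeff g.order ≠ 0 := coeff_order_eq_zero.not.2 hg
  have hc : ∀ n, h.coeff n = f.coeff n - g.coeff n := fun n => by rw [← hfg, coeff_sub]
  rcases lt_trichotomy f.order g.order with hlt | heq | hgt
  · right; left
    have h1 : h.coeff f.order = f.coeff f.order := by
      rw [hc, coeff_eq_zero_of_lt_order hlt, sub_zero]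
    obtain ⟨h2, h3⟩ := lead_spec (f := h) (n := f.order) (by rw [h1]; exact hcf) (fun m hm => by
      rw [hc, coeff_eq_zero_of_lt_order hm, coeff_eq_zero_of_lt_order (hm.trans hlt), sub_zero])
    unfold V
    rw [h2, h3, h1, leadingCoeff_eq]
  · by_cases hlc : f.leadingCoeff = g.leadingCoeff
    · left
      unfold V
      rw [heq, hlc]
    · have h1 : h.coeff f.order = f.leadingCoeff - g.leadingCoeff := by
        rw [hc, leadingCoeff_eq, leadingCoeff_eq, heq]
      obtain ⟨h2, h3⟩ := lead_spec (f := h) (n := f.order)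
        (by rw [h1]; exact sub_ne_zero.2 hlc) (fun m hm => by
        rw [hc, coeff_eq_zero_of_lt_order hm, coeff_eq_zero_of_lt_order (heq ▸ hm), sub_zero])
      rcases T.norm_trichotomy (h1.symm.trans h3.symm) with h4 | h4 | h4
      · left
        unfold V
        rw [heq, h4]
      · right; left
        unfold V
        rw [h2, h4]
      · right; right
        unfold V
        rw [h2, h4, heq]
  · right; right
    have h1 : h.coeff g.order = - g.coeff g.order := by
      rw [hc, coeff_eq_zero_of_lt_order hgt, zero_sub]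
    obtain ⟨h2, h3⟩ := lead_spec (f := h) (n := g.order)
      (by rw [h1]; exact neg_ne_zero.2 hcg) (fun m hm => by
      rw [hc, coeff_eq_zero_of_lt_order hm, coeff_eq_zero_of_lt_order (hm.trans hgt), sub_zero])
    unfold V
    rw [h2, h3, h1, norm_neg, leadingCoeff_eq]

include T in
/-- The explicit form of the transfer of `{n, n'}`. -/
lemma quad_identity (b : Alt (ℤ × ℝ)) {x y d : HahnSeries ℤ Ω}
    (h1 : x + d ≠ 0) (h2 : x - d ≠ 0) (h3 : y + d ≠ 0) (h4 : y - d ≠ 0)
    (h5 : x - y ≠ 0) (h6 : x + y ≠ 0) :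
    b.B (V ((x + d) / (x - d))) (V ((y + d) / (y - d))) =
      b.B (V ((x ^ 2 - d ^ 2) / (y ^ 2 - d ^ 2))) (V ((x - y) / (x + y))) := by
  have e1 : x ^ 2 - d ^ 2 = (x + d) * (x - d) := by ring
  have e2 : y ^ 2 - d ^ 2 = (y + d) * (y - d) := by ring
  rw [e1, e2, V_div h1 h2, V_div h3 h4, V_div (mul_ne_zero h1 h2) (mul_ne_zero h3 h4),
    V_mul h1 h2, V_mul h3 h4, V_div h5 h6]
  have s1 := b.steinberg (T.V_trichotomy h1 h3 (by ring : (x + d) - (y + d) = x - y) h5)
  have s2 := b.steinberg (T.V_trichotomy h2 h4 (by ring : (x - d) - (y - d) = x - y) h5)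
  have s3 := b.steinberg (T.V_trichotomy h1 (neg_ne_zero.2 h4)
    (by ring : (x + d) - (-(y - d)) = x + y) h6)
  have s4 := b.steinberg (T.V_trichotomy h2 (neg_ne_zero.2 h3)
    (by ring : (x - d) - (-(y + d)) = x + y) h6)
  rw [V_neg] at s3 s4
  simp only [b.sub_left, b.sub_right, b.add_left, b.add_right]
  rw [s1, s2, s3, s4]
  ring

end TameData

end Pool.Agent.helper34.Cay
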