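import Pool.Agent.helper34.Cay.Ends

/-!
# The Line Theorem
-/

namespace Pool.Agent.helper34.Cay

open scoped Classical
open HahnSeries

lemma exists_subset {F : Type*} [AddCommGroup F] (a b : ZMod 3 → F) (ha : ∃ t, a t ≠ 0)
    (hb : ∃ t, b t ≠ 0) : ∃ s : Finset (ZMod 3), ∑ t ∈ s, a t ≠ 0 ∧ ∑ t ∈ s, b t ≠ 0 := by
  obtain ⟨t, ht⟩ := ha
  obtain ⟨t', ht'⟩ := hb
  by_cases h1 : b t = 0
  · by_cases h2 : a t' = 0
    · have hne : t ≠ t' := by
        rintro rfl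
        exact ht h2
      refine ⟨{t, t'}, ?_, ?_⟩
      · rw [Finset.sum_pair hne, h2, add_zero]; exact ht
      · rw [Finset.sum_pair hne, h1, zero_add]; exact ht'
    · exact ⟨{t'}, by rwa [Finset.sum_singleton], by rwa [Finset.sum_singleton]⟩
  · exact ⟨{t}, by rwa [Finset.sum_singleton], by rwa [Finset.sum_singleton]⟩

variable {k' Ω D : Type*} [Field k'] [NormedField Ω] [Algebra k' Ω] [Group D]
  [MulSemiringAction D Ω]

namespace TameData

variable (T : TameData k' Ω D)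

include T

lemma index_ne_zero (r : Ω) : (MulAction.stabilizer D r).index ≠ 0 := by
  rw [MulAction.index_stabilizer]
  exact Set.ncard_ne_zero_of_mem (MulAction.mem_orbit_self r) (T.finite_orbit r)

/-- local divisibility -/
lemma loc_three [IsAlgClosed k'] [CharZero k'] {r : Ω} (hr : r ≠ 0) {f g : HahnSeries ℤ Ω}
    (hf : f ≠ 0) (hg : g ≠ 0)
    (hff : ∀ σ ∈ MulAction.stabilizer D r, lmap (act Ω σ) f = f)
    (hgg : ∀ σ ∈ MulAction.stabilizer D r, lmap (act Ω σ) g = g)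
    (ho : (∃ σ ∈ MulAction.stabilizer D r, T.rho σ ≠ 0) → (3 : ℤ) ∣ f.order ∧ (3 : ℤ) ∣ g.order) :
    ∃ n : ℤ, ((MulAction.stabilizer D r).index : ℚ) * (T.altAt r).B (V f) (V g) = 3 * n := by
  have hf1 : ∀ σ ∈ MulAction.stabilizer D r, σ • f.leadingCoeff = f.leadingCoeff := by
    intro σ hσ
    conv_rhs => rw [← hff σ hσ]
    rw [lmap_leadingCoeff, act_apply]
  have hg1 : ∀ σ ∈ MulAction.stabilizer D r, σ • g.leadingCoeff = g.leadingCoeff := by
    intro σ hσ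
    conv_rhs => rw [← hgg σ hσ]
    rw [lmap_leadingCoeff, act_apply]
  have hr1 : ∀ σ ∈ MulAction.stabilizer D r, σ • r = r := fun σ hσ => hσ
  have hf0 := leadingCoeff_ne_zero.2 hf
  have hg0 := leadingCoeff_ne_zero.2 hg
  have hB : (T.altAt r).B (V f) (V g) = f.order * T.th g.leadingCoeff r -
      g.order * T.th f.leadingCoeff r := rfl
  rw [hB]
  by_cases h : ∃ σ ∈ MulAction.stabilizer D r, T.rho σ ≠ 0
  · obtain ⟨⟨a, ha⟩, ⟨b, hb⟩⟩ := ho h
    obtain ⟨m, hm⟩ := T.index_theta _ (T.index_ne_zero r) hg0 hr hg1 hr1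
    obtain ⟨n, hn⟩ := T.index_theta _ (T.index_ne_zero r) hf0 hr hf1 hr1
    refine ⟨a * m - b * n, ?_⟩
    rw [ha, hb]
    push_cast
    rw [← hm, ← hn]
    ring
  · push Not at h
    have hb : ∀ σ ∈ MulAction.stabilizer D r, σ • T.al 1 = T.al 1 := by
      intro σ hσ
      rw [T.smul_al, h σ hσ]
      simp
    obtain ⟨m, hm⟩ := T.index_theta_three _ (T.index_ne_zero r) hg0 hr hg1 hr1 hb
    obtain ⟨n, hn⟩ := T.index_theta_three _ (T.index_ne_zero r) hf0 hr hf1 hr1 hb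
    refine ⟨f.order * m - g.order * n, ?_⟩
    have e : ((MulAction.stabilizer D r).index : ℚ) *
        (f.order * T.th g.leadingCoeff r - g.order * T.th f.leadingCoeff r) =
        f.order * (((MulAction.stabilizer D r).index : ℚ) * T.th g.leadingCoeff r) -
        g.order * (((MulAction.stabilizer D r).index : ℚ) * T.th f.leadingCoeff r) := by ring
    rw [e, hm, hn]
    push_cast
    ring

end TameData

namespace LineData

open TameData

variable {T : TameData k' Ω D} {Δ : RatFunc Ω} (L : LineData T Δ)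

variable [IsAlgClosed Ω]

lemma ev_W {r : Option Ω} {δ : HahnSeries ℤ Ω} (hδ : δ ^ 2 = phi r Δ) (π : Fin 3)
    (s : Finset (ZMod 3)) : ev r δ hδ (L.W π s 0) = ∑ t ∈ s, HahnSeries.C (T.al π ^ t.val) *
      (1 + ev r δ hδ (L.XX π 1) * ev r δ hδ (L.XX π 2) *
        HahnSeries.C (algebraMap k' Ω (T.om ^ t.val)) +
        ev r δ hδ (L.XX π 2) * HahnSeries.C (algebraMap k' Ω (T.om ^ (2 * t).val))) := by
  unfold W ww cc
  rw [map_add, map_add, map_mul, map_mul, map_mul, ev_cQ, ev_cQ, ev_cQ]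
  unfold cf
  rw [map_sum, map_sum, map_sum, Finset.mul_sum, Finset.mul_sum, ← Finset.sum_add_distrib,
    ← Finset.sum_add_distrib]
  refine Finset.sum_congr rfl fun t _ => ?_
  have h0 : T.om ^ ((0 : ZMod 3) * t).val = 1 := by rw [zero_mul]; simp
  have e1 : (0 : ZMod 3) + 1 = 1 := rfl
  have e2 : (0 : ZMod 3) + 2 = 2 := rfl
  rw [h0, e1, e2, one_mul, map_one, mul_one, map_mul, map_mul]
  ring

lemma exists_a_ne [CharZero Ω] {r : Option Ω} {δ : HahnSeries ℤ Ω} (hδ : δ ^ 2 = phi r Δ)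
    (π : Fin 3) :
    ∃ t : ZMod 3, HahnSeries.C (T.al π ^ t.val) *
      (1 + ev r δ hδ (L.XX π 1) * ev r δ hδ (L.XX π 2) *
        HahnSeries.C (algebraMap k' Ω (T.om ^ t.val)) +
        ev r δ hδ (L.XX π 2) * HahnSeries.C (algebraMap k' Ω (T.om ^ (2 * t).val))) ≠ 0 := by
  by_contra hcon
  push Not at hcon
  have h1 : ∀ t : ZMod 3, (1 + ev r δ hδ (L.XX π 1) * ev r δ hδ (L.XX π 2) *
        HahnSeries.C (algebraMap k' Ω (T.om ^ t.val)) +
        ev r δ hδ (L.XX π 2) * HahnSeries.C (algebraMap k' Ω (T.om ^ (2 * t).val))) = 0 := by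
    intro t
    rcases mul_eq_zero.1 (hcon t) with h | h
    · exfalso
      have h2 : T.al π ^ t.val ≠ 0 := pow_ne_zero _ (T.al_ne π)
      exact h2 ((map_eq_zero_iff _ HahnSeries.C_injective).1 h)
    · exact h
  have t0 := h1 0
  have t1 := h1 1
  have t2 := h1 2
  have v0 : (0 : ZMod 3).val = 0 := rfl
  have v1 : (1 : ZMod 3).val = 1 := rfl
  have v2 : (2 : ZMod 3).val = 2 := rfl
  have m0 : (2 : ZMod 3) * 0 = 0 := rfl
  have m1 : (2 : ZMod 3) * 1 = 2 := rfl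
  have m2 : (2 : ZMod 3) * 2 = 1 := rfl
  rw [m0, v0] at t0
  rw [m1, v1, v2] at t1
  rw [m2, v1, v2] at t2
  have hs : HahnSeries.C (algebraMap k' Ω (T.om ^ 0)) + HahnSeries.C (algebraMap k' Ω (T.om ^ 1)) +
      HahnSeries.C (algebraMap k' Ω (T.om ^ 2)) = (0 : HahnSeries ℤ Ω) := by
    rw [← map_add, ← map_add, ← map_add, ← map_add, pow_zero, pow_one, T.om_sum, map_zero,
      map_zero]
  have h3 : (3 : HahnSeries ℤ Ω) = 0 := by
    linear_combination t0 + t1 + t2 -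
      (ev r δ hδ (L.XX π 1) * ev r δ hδ (L.XX π 2) + ev r δ hδ (L.XX π 2)) * hs
  have h4 : ((3 : HahnSeries ℤ Ω)).coeff 0 = 0 := by rw [h3, coeff_zero]
  have h5 : (3 : HahnSeries ℤ Ω) = HahnSeries.C (3 : Ω) := by
    rw [map_ofNat]
  rw [h5, hC_eq, coeff_single_same] at h4
  exact three_ne_zero h4

lemma exists_s [CharZero Ω] {r : Option Ω} {δ : HahnSeries ℤ Ω} (hδ : δ ^ 2 = phi r Δ)
    (π : Fin 3) :
    ∃ s : Finset (ZMod 3), QuadraticAlgebra.norm (L.W π s 0) ≠ 0 := by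
  obtain ⟨s, h1, h2⟩ := exists_subset _ _ (L.exists_a_ne hδ π) (L.exists_a_ne (neg_sq' hδ) π)
  refine ⟨s, fun h => ?_⟩
  rw [← L.ev_W hδ π s] at h1
  rw [← L.ev_W (neg_sq' hδ) π s] at h2
  have h3 := ev_mul_ev r δ hδ (L.W π s 0)
  rw [h, map_zero] at h3
  exact (mul_ne_zero h1 h2) h3

section Loc

variable {r : Ω} {δ : HahnSeries ℤ Ω} (hδ : δ ^ 2 = phi (some r) Δ)

omit [IsAlgClosed Ω] in
lemma map_stab {r : Ω} {σ : D} (hσ : σ ∈ MulAction.stabilizer D r) :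
    (some r).map (act Ω σ) = some r := by
  have : σ • r = r := hσ
  show some (σ • r) = some r
  rw [this]

include hδ in
lemma order_three' {π : Fin 3} {s : Finset (ZMod 3)}
    (hW : QuadraticAlgebra.norm (L.W π s 0) ≠ 0)
    (h : ∃ σ ∈ MulAction.stabilizer D r, T.rho σ ≠ 0) :
    (3 : ℤ) ∣ (ev (some r) δ hδ (L.N π s)).order := by
  obtain ⟨σ, hσ, hρ⟩ := h
  rcases lmap_sign _ (L.inv σ) (map_stab hσ) hδ with h1 | h1
  · exact L.order_three hδ (map_stab hσ) h1 hρ hW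
  · have h2 : σ * σ ∈ MulAction.stabilizer D r := mul_mem hσ hσ
    have h3 : lmap (act Ω (σ * σ)) δ = δ := by
      have h4 : lmap (act Ω (σ * σ)) δ = lmap (act Ω σ) (lmap (act Ω σ) δ) := by
        ext n
        rw [lmap_coeff, lmap_coeff, lmap_coeff, act_apply, act_apply, act_apply, mul_smul]
      rw [h4, h1, map_neg, h1, neg_neg]
    refine L.order_three hδ (map_stab h2) h3 ?_ hW
    rw [T.rho_mul]
    intro h4
    apply hρ
    funext i
    have h5 := congrFun h4 i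
    rw [Pi.add_apply] at h5
    revert h5
    show T.rho σ i + T.rho σ i = 0 → T.rho σ i = 0
    generalize T.rho σ i = a
    revert a
    decide

lemma V_flip {σ : D} (hσ : σ ∈ MulAction.stabilizer D r) (hf : lmap (act Ω σ) δ = -δ)
    (π : Fin 3) (s : Finset (ZMod 3)) :
    V (ev (some r) (-δ) (neg_sq' hδ) (L.N π s)) = V (ev (some r) δ hδ (L.N π s)) := by
  have h := lmap_ev_flip _ (L.inv σ) (map_stab hσ) hδ hf (L.N π s)
  rw [L.N_inv] at h
  rw [← h, T.V_lmap]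

/-- local divisibility for the quadratic law -/
lemma quad_loc [IsAlgClosed k'] [CharZero k'] (hr : r ≠ 0) {sa sc : Finset (ZMod 3)}
    (hWa : QuadraticAlgebra.norm (L.W 0 sa 0) ≠ 0) (hWc : QuadraticAlgebra.norm (L.W 2 sc 0) ≠ 0) :
    ∃ n : ℤ, ((MulAction.stabilizer D r).index : ℚ) * (T.altAt r).B
      (V (ev (some r) δ hδ (L.N 0 sa)) - V (ev (some r) (-δ) (neg_sq' hδ) (L.N 0 sa)))
      (V (ev (some r) δ hδ (L.N 2 sc)) - V (ev (some r) (-δ) (neg_sq' hδ) (L.N 2 sc))) =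
        3 * n := by
  by_cases h : ∃ σ ∈ MulAction.stabilizer D r, lmap (act Ω σ) δ = -δ
  · obtain ⟨σ, hσ, hf⟩ := h
    rw [L.V_flip hδ hσ hf, sub_self, (T.altAt r).zero_left]
    exact ⟨0, by simp⟩
  · push Not at h
    have hfix : ∀ σ ∈ MulAction.stabilizer D r, lmap (act Ω σ) δ = δ := by
      intro σ hσ
      rcases lmap_sign _ (L.inv σ) (map_stab hσ) hδ with h1 | h1
      · exact h1
      · exact absurd h1 (h σ hσ)
    have hfix' : ∀ σ ∈ MulAction.stabilizer D r, lmap (act Ω σ) (-δ) = -δ := by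
      intro σ hσ
      rw [map_neg, hfix σ hσ]
    have hNa := L.norm_N_ne hWa
    have hNc := L.norm_N_ne hWc
    have key : ∀ (δ₁ δ₂ : HahnSeries ℤ Ω) (h₁ : δ₁ ^ 2 = phi (some r) Δ)
        (h₂ : δ₂ ^ 2 = phi (some r) Δ)
        (_ : ∀ σ ∈ MulAction.stabilizer D r, lmap (act Ω σ) δ₁ = δ₁)
        (_ : ∀ σ ∈ MulAction.stabilizer D r, lmap (act Ω σ) δ₂ = δ₂),
        ∃ n : ℤ, ((MulAction.stabilizer D r).index : ℚ) * (T.altAt r).B
          (V (ev (some r) δ₁ h₁ (L.N 0 sa))) (V (ev (some r) δ₂ h₂ (L.N 2 sc))) = 3 * n := by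
      intro δ₁ δ₂ h₁ h₂ g₁ g₂
      refine T.loc_three hr (ev_ne_zero _ _ h₁ hNa) (ev_ne_zero _ _ h₂ hNc) ?_ ?_ ?_
      · intro σ hσ
        rw [lmap_ev_fix _ (L.inv σ) (map_stab hσ) h₁ (g₁ σ hσ), L.N_inv]
      · intro σ hσ
        rw [lmap_ev_fix _ (L.inv σ) (map_stab hσ) h₂ (g₂ σ hσ), L.N_inv]
      · intro hex
        exact ⟨L.order_three' h₁ hWa hex, L.order_three' h₂ hWc hex⟩
    obtain ⟨n1, hn1⟩ := key δ δ hδ hδ hfix hfix
    obtain ⟨n2, hn2⟩ := key δ (-δ) hδ (neg_sq' hδ) hfix hfix'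
    obtain ⟨n3, hn3⟩ := key (-δ) δ (neg_sq' hδ) hδ hfix' hfix
    obtain ⟨n4, hn4⟩ := key (-δ) (-δ) (neg_sq' hδ) (neg_sq' hδ) hfix' hfix'
    refine ⟨n1 - n2 - n3 + n4, ?_⟩
    rw [(T.altAt r).sub_left, (T.altAt r).sub_right, (T.altAt r).sub_right]
    push_cast
    linear_combination hn1 - hn2 - hn3 + hn4

include hδ in
/-- local divisibility for the linear law -/
lemma lin_loc [IsAlgClosed k'] [CharZero k'] (hr : r ≠ 0) {sa : Finset (ZMod 3)}
    (hWa : QuadraticAlgebra.norm (L.W 0 sa 0) ≠ 0) {c : Ω} (hc : c ≠ 0) (hcD : ∀ σ : D, σ • c = c) :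
    ∃ n : ℤ, ((MulAction.stabilizer D r).index : ℚ) *
      T.contr (QuadraticAlgebra.norm (L.N 0 sa)) (RatFunc.C c) r = 3 * n := by
  have hNa := L.norm_N_ne hWa
  have hinv : ∀ σ : D, hat (act Ω σ) (QuadraticAlgebra.norm (L.N 0 sa)) =
      QuadraticAlgebra.norm (L.N 0 sa) := by
    intro σ
    have h1 := congrArg QuadraticAlgebra.re (L.N_inv σ 0 sa)
    have h2 := congrArg QuadraticAlgebra.im (L.N_inv σ 0 sa)
    rw [hatQ_re] at h1
    rw [hatQ_im] at h2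
    rw [QuadraticAlgebra.norm_def]
    simp only [map_add, map_sub, map_mul, map_zero, h1, h2, L.inv σ]
  have hinvC : ∀ σ : D, hat (act Ω σ) (RatFunc.C c) = RatFunc.C c := by
    intro σ
    rw [hat_C, act_apply, hcD]
  have hc' : (RatFunc.C c : RatFunc Ω) ≠ 0 :=
    (map_ne_zero_iff _ (RingHom.injective _)).2 hc
  have hsq := hδ
  refine T.loc_three hr (phi_ne_zero _ hNa) (phi_ne_zero _ hc') ?_ ?_ ?_
  · intro σ hσ
    rw [← phi_hat, hinv, map_stab hσ]
  · intro σ hσ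
    rw [← phi_hat, hinvC, map_stab hσ]
  · intro hex
    constructor
    · rw [← ev_mul_ev (some r) δ hδ, order_mul (ev_ne_zero _ _ _ hNa)
        (ev_ne_zero _ _ (neg_sq' hδ) hNa)]
      exact dvd_add (L.order_three' hδ hWa hex) (L.order_three' (neg_sq' hδ) hWa hex)
    · rw [phi_C, hC_eq, order_single hc]
      exact dvd_zero _

end Loc

end LineData

end Pool.Agent.helper34.Cay
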