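import Pool.Agent.helper34.Cay.Frame

/-!
# The line through two points
-/

namespace Pool.Agent.helper34.Cay

open scoped Classical
open HahnSeries TameData

section Phi

variable {k Ω n K : Type*} [Field k] [Field Ω] [IsAlgClosed Ω] [Algebra k Ω] [Field K] [Algebra k K]
  [Fintype n] [DecidableEq n]

omit [IsAlgClosed Ω] in
lemma algebraMap_ratfunc (c : k) :
    algebraMap k (RatFunc Ω) c = RatFunc.C (algebraMap k Ω c) := by
  rw [IsScalarTower.algebraMap_apply k (Polynomial Ω) (RatFunc Ω),
    IsScalarTower.algebraMap_apply k Ω (Polynomial Ω), Polynomial.algebraMap_eq,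
    RatFunc.algebraMap_C]

/-- the line through two matrices -/
noncomputable def lineMat (A B : Matrix n n Ω) : Matrix n n (RatFunc Ω) :=
  Matrix.of fun i j => t0 Ω * RatFunc.C (A i j) + t1 Ω * RatFunc.C (B i j)

omit [Fintype n] [DecidableEq n] in
lemma reg_line_zero (A B : Matrix n n Ω) (i j : n) :
    Reg (phi (some 0) (lineMat A B i j)) (A i j) := by
  have h := (reg_zero_t0.mul (Reg.const (A i j))).add (reg_zero_t1.mul (Reg.const (B i j)))
  rw [one_mul, zero_mul, add_zero] at h
  show Reg (phi (some 0) (t0 Ω * RatFunc.C (A i j) + t1 Ω * RatFunc.C (B i j))) (A i j)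
  rw [map_add, map_mul, map_mul, phi_C, phi_C]
  exact h

omit [Fintype n] [DecidableEq n] in
lemma reg_line_inf (A B : Matrix n n Ω) (i j : n) :
    Reg (phi none (lineMat A B i j)) (B i j) := by
  have h := (reg_inf_t0.mul (Reg.const (A i j))).add (reg_inf_t1.mul (Reg.const (B i j)))
  rw [one_mul, zero_mul, zero_add] at h
  show Reg (phi none (t0 Ω * RatFunc.C (A i j) + t1 Ω * RatFunc.C (B i j))) (B i j)
  rw [map_add, map_mul, map_mul, phi_C, phi_C]
  exact h

omit [Fintype n] [DecidableEq n] in
/-- regularity of polynomials -/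
lemma reg_poly (r : Option Ω) (Y : Matrix n n (RatFunc Ω)) (y : Matrix n n Ω)
    (h : ∀ i j, Reg (phi r (Y i j)) (y i j)) (p : MvPolynomial (n × n) k) :
    Reg (phi r (MvPolynomial.aeval (ent Y) p)) (MvPolynomial.aeval (ent y) p) := by
  induction p using MvPolynomial.induction_on with
  | C c =>
    rw [MvPolynomial.aeval_C, MvPolynomial.aeval_C, algebraMap_ratfunc, phi_C]
    exact Reg.const _
  | add p q hp hq =>
    rw [map_add, map_add, map_add]
    exact hp.add hq
  | mul_X p ij hp =>
    rw [map_mul, map_mul, map_mul, MvPolynomial.aeval_X, MvPolynomial.aeval_X]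
    exact hp.mul (h ij.1 ij.2)

lemma line_rel [CharZero k] [Nonempty n] {X F : Matrix n n K}
    (hF : IsDominantEquivariant k X F) (ψ ψ' : K →ₐ[k] Ω) (p : MvPolynomial (n × n) k) :
    MvPolynomial.aeval (ent F) p = 0 ↔
      MvPolynomial.aeval (ent (lineMat (F.map ψ) (F.map ψ'))) p = 0 := by
  constructor
  · intro h
    refine vanish_trace (hF.dominant p h) ?_
    have h1 : (lineMat (F.map ψ) (F.map ψ')).trace =
        t0 Ω * RatFunc.C (ψ F.trace) + t1 Ω * RatFunc.C (ψ' F.trace) := by
      unfold Matrix.trace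
      rw [map_sum, map_sum, map_sum, map_sum, Finset.mul_sum, Finset.mul_sum,
        ← Finset.sum_add_distrib]
      rfl
    rw [h1, hF.trace_zero]
    simp only [map_zero, mul_zero, add_zero]
  · intro h
    have h1 := reg_poly (some 0) (lineMat (F.map ψ) (F.map ψ')) (F.map ψ)
      (reg_line_zero _ _) p
    rw [h, map_zero, ent_map] at h1
    have h2 : ψ (MvPolynomial.aeval (ent F) p) = 0 := (Reg.zero.unique h1).symm
    exact (map_eq_zero_iff _ ψ.injective).1 h2

/-- the field generated by the entries of `F` -/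
abbrev KY (k : Type*) {K n : Type*} [Field k] [Field K] [Algebra k K] (F : Matrix n n K) :
    IntermediateField k K := IntermediateField.adjoin k (Set.range (ent F))

/-- the entry of `F` as an element of the subfield -/
def entKY (F : Matrix n n K) (i j : n) : KY k F :=
  ⟨F i j, IntermediateField.subset_adjoin k _ ⟨(i, j), rfl⟩⟩

omit [IsAlgClosed Ω] [Fintype n] [DecidableEq n] in
/-- induction on the generated field -/
lemma KY_induction {F : Matrix n n K} {p : KY k F → Prop}
    (mem : ∀ i j, p (entKY F i j)) (alg : ∀ c : k, p (algebraMap k _ c))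
    (add : ∀ x y, p x → p y → p (x + y)) (inv : ∀ x, p x → p x⁻¹)
    (mul : ∀ x y, p x → p y → p (x * y)) (x : KY k F) : p x := by
  obtain ⟨x, hx⟩ := x
  induction hx using IntermediateField.adjoin_induction with
  | mem x hx =>
    obtain ⟨ij, rfl⟩ := hx
    exact mem ij.1 ij.2
  | algebraMap c => exact alg c
  | add x y hx' hy' hx hy => exact add ⟨x, hx'⟩ ⟨y, hy'⟩ hx hy
  | mul x y hx' hy' hx hy => exact mul ⟨x, hx'⟩ ⟨y, hy'⟩ hx hy
  | inv x hx' hx => exact inv ⟨x, hx'⟩ hx

/-- the homomorphism to rational functions attached to a line -/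
theorem exists_Phi [CharZero k] [Nonempty n] {X F : Matrix n n K}
    (hF : IsDominantEquivariant k X F) (ψ ψ' : K →ₐ[k] Ω) :
    ∃ Φ : KY k F →ₐ[k] RatFunc Ω,
      (∀ i j, Φ (entKY F i j) = lineMat (F.map ψ) (F.map ψ') i j) ∧
      (∀ x : KY k F, Reg (phi (some 0) (Φ x)) (ψ x)) ∧
      (∀ x : KY k F, Reg (phi none (Φ x)) (ψ' x)) := by
  obtain ⟨Φ, hΦ⟩ := exists_lift (ent F) (ent (lineMat (F.map ψ) (F.map ψ'))) (line_rel hF ψ ψ')
  have hΦ' : ∀ i j, Φ (entKY F i j) = lineMat (F.map ψ) (F.map ψ') i j := fun i j => hΦ (i, j)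
  have hreg : ∀ (r : Option Ω) (χ : K →ₐ[k] Ω)
      (_ : ∀ i j, Reg (phi r (lineMat (F.map ψ) (F.map ψ') i j)) (χ (F i j))),
      ∀ x : KY k F, Reg (phi r (Φ x)) (χ x) := by
    intro r χ hr
    refine KY_induction ?_ ?_ ?_ ?_ ?_
    · intro i j
      rw [hΦ']
      exact hr i j
    · intro c
      rw [AlgHom.commutes, algebraMap_ratfunc, phi_C]
      have : χ ((algebraMap k (KY k F) c : KY k F) : K) = algebraMap k Ω c := χ.commutes c
      rw [this]
      exact Reg.const _
    · intro x y hx hy
      rw [map_add, map_add]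
      have : χ ((x + y : KY k F) : K) = χ x + χ y := map_add χ _ _
      rw [this]
      exact hx.add hy
    · intro x hx
      by_cases h0 : x = 0
      · rw [h0, inv_zero]
        rw [h0] at hx
        exact hx
      · have h1 : χ (x : K) ≠ 0 := by
          intro h
          apply h0
          have := (map_eq_zero_iff _ χ.injective).1 h
          exact Subtype.ext this
        rw [map_inv₀, map_inv₀]
        have : χ ((x⁻¹ : KY k F) : K) = (χ x)⁻¹ := map_inv₀ χ _
        rw [this]
        exact hx.inv h1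
    · intro x y hx hy
      rw [map_mul, map_mul]
      have : χ ((x * y : KY k F) : K) = χ x * χ y := map_mul χ _ _
      rw [this]
      exact hx.mul hy
  exact ⟨Φ, hΦ', hreg (some 0) ψ (reg_line_zero _ _), hreg none ψ' (reg_line_inf _ _)⟩

end Phi

end Pool.Agent.helper34.Cay
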