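import Pool.Agent.helper34.Cay.LineCon

/-!
# The line data attached to two points, and the relation between the invariants of two points
-/

namespace Pool.Agent.helper34.Cay

open scoped Classical
open HahnSeries TameData

/-- Quadratic data over the subfield generated by the entries of `F`. -/
structure QD (k : Type*) {K n : Type*} [Field k] [Field K] [Algebra k K] (F : Matrix n n K) where
  d : KY k F
  δ : K
  Ψ : K →+* QuadraticAlgebra (KY k F) d 0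
  d_ne : d ≠ 0
  δ_ne : δ ≠ 0
  δ_sq : δ ^ 2 = d
  recon : ∀ x, ((Ψ x).re : K) + (Ψ x).im * δ = x
  base : ∀ y : KY k F, Ψ (y : K) = ⟨y, 0⟩

variable {k k' Ω D n K : Type*} [Field k] [IsAlgClosed k] [CharZero k] [Field k'] [Algebra k k']
  [IsAlgClosed k'] [CharZero k']
  [NormedField Ω] [IsAlgClosed Ω] [CharZero Ω] [Algebra k' Ω] [Algebra k Ω]
  [IsScalarTower k k' Ω] [Group D]
  [MulSemiringAction D Ω] [Fintype n] [DecidableEq n] [Field K] [Algebra k K]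

/-- constants as a ring homomorphism -/
noncomputable def cQh {Ω : Type*} [Field Ω] (Δ : RatFunc Ω) : Ω →+* Q Δ :=
  (algebraMap (RatFunc Ω) (Q Δ)).comp RatFunc.C

lemma cQh_eq {Ω : Type*} [Field Ω] (Δ : RatFunc Ω) (c : Ω) : cQh Δ c = cQ Δ c := rfl

namespace QD

variable {X F : Matrix n n K} (qd : QD k F)

/-- the value at a sheet -/
def val {Ω : Type*} [Field Ω] [Algebra k Ω] (ψ : K →ₐ[k] Ω) (s : Ω) (κ : K) : Ω :=
  ψ (qd.Ψ κ).re + ψ (qd.Ψ κ).im * s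

omit [IsAlgClosed k] [CharZero k] [NormedField Ω] [IsAlgClosed Ω] [CharZero Ω] [Algebra k Ω]
  [Fintype n] [DecidableEq n] [Field k'] [Algebra k k'] [IsAlgClosed k'] [CharZero k']
  [Algebra k' Ω] [IsScalarTower k k' Ω] [Group D] [MulSemiringAction D Ω] in
lemma val_plus {Ω : Type*} [Field Ω] [Algebra k Ω] (ψ : K →ₐ[k] Ω) (κ : K) :
    qd.val ψ (ψ qd.δ) κ = ψ κ := by
  unfold val
  rw [← map_mul, ← map_add, qd.recon]

end QD

section Line

variable {T : TameData k' Ω D} {fr : Frame k T n} {e : n ≃ H} {X F : Matrix n n K}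
  (P P' : Pt fr e X) (qd : QD k F)

/-- The homomorphism to rational functions, packaged. -/
structure LineHom (P P' : Pt fr e X) (F : Matrix n n K) where
  Φ : KY k F →ₐ[k] RatFunc Ω
  ent : ∀ i j, Φ (entKY F i j) = lineMat (F.map P.ψ) (F.map P'.ψ) i j
  reg0 : ∀ x : KY k F, Reg (phi (some 0) (Φ x)) (P.ψ x)
  regi : ∀ x : KY k F, Reg (phi none (Φ x)) (P'.ψ x)

namespace LineHom

variable {P P'} (lh : LineHom P P' F)

/-- the discriminant -/
noncomputable def Δ : RatFunc Ω := lh.Φ qd.d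

/-- the extension to the quadratic algebra -/
noncomputable def Φt : K →+* Q (lh.Δ qd) := (qmap (lh.Φ : KY k F →+* RatFunc Ω) qd.d).comp qd.Ψ

omit [IsAlgClosed k] [CharZero k] [IsAlgClosed k'] [CharZero k'] [CharZero Ω]
  [IsScalarTower k k' Ω] in
lemma Φt_re (κ : K) : (lh.Φt qd κ).re = lh.Φ (qd.Ψ κ).re := rfl

omit [IsAlgClosed k] [CharZero k] [IsAlgClosed k'] [CharZero k'] [CharZero Ω]
  [IsScalarTower k k' Ω] in
lemma Φt_im (κ : K) : (lh.Φt qd κ).im = lh.Φ (qd.Ψ κ).im := rfl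

omit [IsAlgClosed k'] [CharZero k'] [CharZero Ω] in
lemma hat_Φ (hX : IsFunctionFieldSL k X) (σ : D) (x : KY k F) :
    hat (act Ω σ) (lh.Φ x) = lh.Φ x := by
  induction x using KY_induction with
  | mem i j =>
    rw [lh.ent]
    show hat _ (t0 Ω * RatFunc.C (P.ψ (F i j)) + t1 Ω * RatFunc.C (P'.ψ (F i j))) =
      t0 Ω * RatFunc.C (P.ψ (F i j)) + t1 Ω * RatFunc.C (P'.ψ (F i j))
    rw [map_add, map_mul, map_mul, hat_t0, hat_t1, hat_C, hat_C, act_apply, act_apply,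
      P.smul_ψ hX, P'.smul_ψ hX]
  | alg c =>
    rw [AlgHom.commutes, algebraMap_ratfunc, hat_C, act_apply,
      IsScalarTower.algebraMap_apply k k' Ω, T.smul_const]
  | add x y hx hy => rw [map_add, map_add, hx, hy]
  | inv x hx => rw [map_inv₀, map_inv₀, hx]
  | mul x y hx hy => rw [map_mul, map_mul, hx, hy]

omit [IsAlgClosed k] [CharZero k] [IsAlgClosed k'] [CharZero k'] [CharZero Ω]
  [IsScalarTower k k' Ω] in
lemma Δ_ne : lh.Δ qd ≠ 0 := (map_ne_zero_iff _ lh.Φ.injective).2 qd.d_ne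

omit [IsAlgClosed k'] [CharZero k'] [CharZero Ω] in
lemma Δ_inv (hX : IsFunctionFieldSL k X) (σ : D) :
    hat (act Ω σ) (lh.Δ qd) = lh.Δ qd := lh.hat_Φ hX σ _

omit [IsAlgClosed k'] [CharZero k'] [CharZero Ω] in
lemma hatQ_Φt (hX : IsFunctionFieldSL k X) (σ : D) (κ : K) :
    hatQ (act Ω σ) (lh.Δ_inv qd hX σ) (lh.Φt qd κ) = lh.Φt qd κ := by
  apply QuadraticAlgebra.ext
  · rw [hatQ_re, Φt_re, lh.hat_Φ hX]
  · rw [hatQ_im, Φt_im, lh.hat_Φ hX]

/-- the frame over the quadratic algebra -/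
noncomputable def ZQ : Matrix n H (Q (lh.Δ qd)) := fr.Z.map (cQh (lh.Δ qd))

/-- the inverse frame over the quadratic algebra -/
noncomputable def WQ : Matrix H n (Q (lh.Δ qd)) := (fr.W e).map (cQh (lh.Δ qd))

/-- the transported generic element -/
noncomputable def M : Matrix H H (Q (lh.Δ qd)) :=
  lh.WQ qd * X.map (lh.Φt qd) * lh.ZQ qd

omit [IsAlgClosed k'] [CharZero k'] [CharZero Ω] [IsScalarTower k k' Ω] in
lemma ZQ_mul_WQ : lh.ZQ qd * lh.WQ qd = 1 := by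
  unfold ZQ WQ
  rw [← Matrix.map_mul, fr.Z_mul_W, Matrix.map_one _ (map_zero _) (map_one _)]

omit [IsAlgClosed k'] [CharZero k'] [CharZero Ω] [IsScalarTower k k' Ω] in
lemma WQ_mul_ZQ : lh.WQ qd * lh.ZQ qd = 1 := by
  unfold ZQ WQ
  rw [← Matrix.map_mul, fr.W_mul_Z, Matrix.map_one _ (map_zero _) (map_one _)]

omit [IsAlgClosed k'] [CharZero k'] [CharZero Ω] in
lemma hatQ_M (hX : IsFunctionFieldSL k X) (σ : D) (a b : H) :
    hatQ (act Ω σ) (lh.Δ_inv qd hX σ) (lh.M qd a b) = lh.M qd (a + T.rho σ) (b + T.rho σ) := by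
  unfold M
  rw [Matrix.mul_apply, Matrix.mul_apply, map_sum]
  refine Finset.sum_congr rfl fun j _ => ?_
  rw [map_mul, Matrix.mul_apply, Matrix.mul_apply, map_sum]
  congr 1
  · refine Finset.sum_congr rfl fun i _ => ?_
    rw [map_mul]
    congr 1
    · show hatQ _ _ (cQ _ _) = cQ _ _
      rw [hatQ_cQ, act_apply, fr.smul_W]
    · exact lh.hatQ_Φt qd hX σ _
  · show hatQ _ _ (cQ _ _) = cQ _ _
    rw [hatQ_cQ, act_apply, fr.smul_Z]

omit [IsAlgClosed k] [CharZero k] [IsAlgClosed k'] [CharZero k'] [CharZero Ω]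
  [IsScalarTower k k' Ω] in
/-- regularity at a sheet, general form -/
lemma reg_ev {r : Option Ω} {ψ : K →ₐ[k] Ω} (hr : ∀ x : KY k F, Reg (phi r (lh.Φ x)) (ψ x))
    {δr : HahnSeries ℤ Ω} (hδ : δr ^ 2 = phi r (lh.Δ qd)) {s : Ω} (hs : Reg δr s) (κ : K) :
    Reg (ev r δr hδ (lh.Φt qd κ)) (qd.val ψ s κ) := by
  rw [ev_apply, Φt_re, Φt_im]
  exact (hr _).add ((hr _).mul hs)

omit [IsAlgClosed k'] [CharZero k'] [CharZero Ω] [IsScalarTower k k' Ω] in
lemma reg_M {r : Option Ω} {ψ : K →ₐ[k] Ω} (hr : ∀ x : KY k F, Reg (phi r (lh.Φ x)) (ψ x))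
    {δr : HahnSeries ℤ Ω} (hδ : δr ^ 2 = phi r (lh.Δ qd)) {s : Ω} (hs : Reg δr s) (a b : H) :
    Reg (ev r δr hδ (lh.M qd a b)) ((fr.W e * X.map (qd.val ψ s) * fr.Z) a b) := by
  unfold M
  rw [Matrix.mul_apply, Matrix.mul_apply, map_sum]
  refine Reg.sum _ fun j _ => ?_
  rw [map_mul, Matrix.mul_apply, Matrix.mul_apply, map_sum]
  refine Reg.mul (Reg.sum _ fun i _ => ?_) ?_
  · rw [map_mul]
    refine Reg.mul ?_ (lh.reg_ev qd hr hδ hs _)
    show Reg (ev r δr hδ (cQ _ _)) _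
    rw [ev_cQ]
    exact Reg.const _
  · show Reg (ev r δr hδ (cQ _ _)) _
    rw [ev_cQ]
    exact Reg.const _

/-- the transported generic element is diagonal -/
lemma M_diag (hX : IsFunctionFieldSL k X) (hF : IsDominantEquivariant k X F) :
    lh.M qd = Matrix.diagonal fun h => lh.M qd h h := by
  -- transported `F`
  have hFt : ∀ i j, lh.Φt qd (F i j) = cQh (lh.Δ qd) (P.ψ (F i j)) * ⟨t0 Ω, 0⟩ +
      cQh (lh.Δ qd) (P'.ψ (F i j)) * ⟨t1 Ω, 0⟩ := by
    intro i j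
    have h1 : qd.Ψ (F i j) = ⟨entKY F i j, 0⟩ := qd.base (entKY F i j)
    apply QuadraticAlgebra.ext
    · rw [Φt_re, h1, lh.ent]
      show t0 Ω * RatFunc.C (P.ψ (F i j)) + t1 Ω * RatFunc.C (P'.ψ (F i j)) = _
      rw [QuadraticAlgebra.re_add, QuadraticAlgebra.re_mul, QuadraticAlgebra.re_mul]
      show _ = RatFunc.C (P.ψ (F i j)) * t0 Ω + _ * 0 * 0 +
        (RatFunc.C (P'.ψ (F i j)) * t1 Ω + _ * 0 * 0)
      ring
    · rw [Φt_im, h1, map_zero, QuadraticAlgebra.im_add, QuadraticAlgebra.im_mul,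
        QuadraticAlgebra.im_mul]
      show 0 = RatFunc.C (P.ψ (F i j)) * 0 + 0 * t0 Ω + 0 * 0 * 0 +
        (RatFunc.C (P'.ψ (F i j)) * 0 + 0 * t1 Ω + 0 * 0 * 0)
      ring
  have hFm : F.map (lh.Φt qd) = (⟨t0 Ω, 0⟩ : Q (lh.Δ qd)) • (F.map P.ψ).map (cQh (lh.Δ qd)) +
      (⟨t1 Ω, 0⟩ : Q (lh.Δ qd)) • (F.map P'.ψ).map (cQh (lh.Δ qd)) := by
    ext1 i j
    rw [Matrix.add_apply, Matrix.smul_apply, Matrix.smul_apply, smul_eq_mul, smul_eq_mul]
    show lh.Φt qd (F i j) = _ * cQh (lh.Δ qd) (P.ψ (F i j)) + _ * cQh (lh.Δ qd) (P'.ψ (F i j))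
    rw [hFt, mul_comm, mul_comm (cQh (lh.Δ qd) (P'.ψ (F i j)))]
  obtain ⟨a, ha⟩ : ∃ a, a = fun h => (fr.W e * F.map P.ψ * fr.Z) h h := ⟨_, rfl⟩
  obtain ⟨b, hb⟩ : ∃ b, b = fun h => (fr.W e * F.map P'.ψ * fr.Z) h h := ⟨_, rfl⟩
  have hainj : Function.Injective a := by rw [ha]; exact P.diag_F_injective hX hF
  have hcomm := hX.comm hF
  have hA : fr.W e * F.map P.ψ * fr.Z = Matrix.diagonal a := by
    rw [ha]; exact P.diag_F hX hcomm
  have hB : fr.W e * F.map P'.ψ * fr.Z = Matrix.diagonal b := by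
    rw [hb]; exact P'.diag_F hX hcomm
  have hA' : lh.WQ qd * (F.map P.ψ).map (cQh (lh.Δ qd)) * lh.ZQ qd =
      Matrix.diagonal fun h => cQh (lh.Δ qd) (a h) := by
    unfold WQ ZQ
    rw [← Matrix.map_mul, ← Matrix.map_mul, hA, Matrix.diagonal_map (map_zero _)]
  have hB' : lh.WQ qd * (F.map P'.ψ).map (cQh (lh.Δ qd)) * lh.ZQ qd =
      Matrix.diagonal fun h => cQh (lh.Δ qd) (b h) := by
    unfold WQ ZQ
    rw [← Matrix.map_mul, ← Matrix.map_mul, hB, Matrix.diagonal_map (map_zero _)]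
  obtain ⟨y, hy⟩ : ∃ y : H → Q (lh.Δ qd), y = fun h => (⟨t0 Ω, 0⟩ : Q (lh.Δ qd)) *
      cQh (lh.Δ qd) (a h) + (⟨t1 Ω, 0⟩ : Q (lh.Δ qd)) * cQh (lh.Δ qd) (b h) := ⟨_, rfl⟩
  have hN : lh.WQ qd * F.map (lh.Φt qd) * lh.ZQ qd = Matrix.diagonal y := by
    rw [hFm, Matrix.mul_add, Matrix.add_mul, Matrix.mul_smul, Matrix.mul_smul, Matrix.smul_mul,
      Matrix.smul_mul, hA', hB', hy, ← Matrix.diagonal_smul, ← Matrix.diagonal_smul,
      Matrix.diagonal_add]
    rfl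
  have hMN : lh.M qd * Matrix.diagonal y = Matrix.diagonal y * lh.M qd := by
    rw [← hN]
    unfold M
    have h1 : X.map (lh.Φt qd) * F.map (lh.Φt qd) = F.map (lh.Φt qd) * X.map (lh.Φt qd) := by
      rw [← Matrix.map_mul, ← Matrix.map_mul, hcomm]
    obtain ⟨X', hX'⟩ : ∃ X', X' = X.map (lh.Φt qd) := ⟨_, rfl⟩
    obtain ⟨F', hF'⟩ : ∃ F', F' = F.map (lh.Φt qd) := ⟨_, rfl⟩
    rw [← hX', ← hF'] at h1 ⊢
    have h2 := lh.ZQ_mul_WQ qd
    calc lh.WQ qd * X' * lh.ZQ qd * (lh.WQ qd * F' * lh.ZQ qd)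
        = lh.WQ qd * (X' * ((lh.ZQ qd * lh.WQ qd) * F')) * lh.ZQ qd := by
          simp only [Matrix.mul_assoc]
      _ = lh.WQ qd * (X' * F') * lh.ZQ qd := by rw [h2, Matrix.one_mul]
      _ = lh.WQ qd * (F' * X') * lh.ZQ qd := by rw [h1]
      _ = lh.WQ qd * (F' * ((lh.ZQ qd * lh.WQ qd) * X')) * lh.ZQ qd := by
          rw [h2, Matrix.one_mul]
      _ = lh.WQ qd * F' * lh.ZQ qd * (lh.WQ qd * X' * lh.ZQ qd) := by
          simp only [Matrix.mul_assoc]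
  ext1 i j
  by_cases hij : i = j
  · subst hij
    rw [Matrix.diagonal_apply_eq]
  · rw [Matrix.diagonal_apply_ne _ hij]
    have h1 := congrFun (congrFun hMN i) j
    rw [Matrix.mul_diagonal, Matrix.diagonal_mul] at h1
    have h2 : (y j - y i) * lh.M qd i j = 0 := by linear_combination h1
    -- the difference is invertible
    set f : RatFunc Ω := t0 Ω * RatFunc.C (a j - a i) + t1 Ω * RatFunc.C (b j - b i) with hf
    have hreg : Reg (phi (some 0) f) (a j - a i) := by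
      have h := (reg_zero_t0.mul (Reg.const (a j - a i))).add
        (reg_zero_t1.mul (Reg.const (b j - b i)))
      rw [one_mul, zero_mul, add_zero] at h
      rw [hf, map_add, map_mul, map_mul, phi_C, phi_C]
      exact h
    have hf0 : f ≠ 0 := by
      intro h0
      rw [h0, map_zero] at hreg
      have h3 := hreg.unique Reg.zero
      exact hij (hainj (sub_eq_zero.1 h3)).symm
    have hyf : y j - y i = algebraMap (RatFunc Ω) (Q (lh.Δ qd)) f := by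
      rw [hy, hf]
      have e0 : (⟨t0 Ω, 0⟩ : Q (lh.Δ qd)) = algebraMap (RatFunc Ω) (Q (lh.Δ qd)) (t0 Ω) := rfl
      have e1 : (⟨t1 Ω, 0⟩ : Q (lh.Δ qd)) = algebraMap (RatFunc Ω) (Q (lh.Δ qd)) (t1 Ω) := rfl
      have ec : ∀ c, cQh (lh.Δ qd) c = algebraMap (RatFunc Ω) (Q (lh.Δ qd)) (RatFunc.C c) :=
        fun c => rfl
      rw [e0, e1]
      simp only [ec, map_add, map_sub, map_mul]
      ring
    rw [hyf] at h2
    have hu : IsUnit (algebraMap (RatFunc Ω) (Q (lh.Δ qd)) f) :=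
      (isUnit_iff_ne_zero.2 hf0).map (algebraMap (RatFunc Ω) (Q (lh.Δ qd)))
    exact hu.mul_right_eq_zero.1 h2

omit [IsAlgClosed k'] [CharZero k'] [CharZero Ω] [IsScalarTower k k' Ω] in
lemma det_M (hX : IsFunctionFieldSL k X) : (lh.M qd).det = 1 := by
  have h1 : (lh.M qd).det = (X.map (lh.Φt qd)).det := by
    unfold M
    exact Matrix.det_conj_of_mul_eq_one (lh.WQ_mul_ZQ qd) (lh.ZQ_mul_WQ qd)
  rw [h1, ← RingHom.mapMatrix_apply, ← RingHom.map_det, hX.det_eq_one, map_one]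

/-- the line data -/
noncomputable def toLineData (hX : IsFunctionFieldSL k X) (hF : IsDominantEquivariant k X F) :
    LineData T (lh.Δ qd) where
  inv := lh.Δ_inv qd hX
  x h := lh.M qd h h
  prod_x := by
    have h1 := lh.det_M qd hX
    rw [lh.M_diag qd hX hF, Matrix.det_diagonal] at h1
    exact h1
  x_inv σ h := lh.hatQ_M qd hX σ h h

end LineHom

end Line

end Pool.Agent.helper34.Cay
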