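import Pool.Agent.helper34.Cay.Line

/-!
# The Line Theorem: conclusion
-/

namespace Pool.Agent.helper34.Cay

open scoped Classical
open HahnSeries

variable {k' Ω D : Type*} [Field k'] [NormedField Ω] [Algebra k' Ω] [Group D]
  [MulSemiringAction D Ω]

namespace LineData

open TameData

variable {T : TameData k' Ω D} {Δ : RatFunc Ω} (L : LineData T Δ)

variable [IsAlgClosed Ω]

lemma alt_identity (T : TameData k' Ω D) (b : Alt (ℤ × ℝ)) {r : Option Ω} {δ : HahnSeries ℤ Ω} (hδ : δ ^ 2 = phi r Δ)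
    {za zc : Q Δ} (hza : QuadraticAlgebra.norm za ≠ 0) (hzc : QuadraticAlgebra.norm zc ≠ 0)
    (hva : za.im ≠ 0) (hvc : zc.im ≠ 0) (h5 : za.re / za.im - zc.re / zc.im ≠ 0)
    (h6 : za.re / za.im + zc.re / zc.im ≠ 0) :
    b.B (V (phi r (((za.re / za.im) ^ 2 - Δ) / ((zc.re / zc.im) ^ 2 - Δ))))
      (V (phi r ((za.re / za.im - zc.re / zc.im) / (za.re / za.im + zc.re / zc.im)))) =
    b.B (V (ev r δ hδ za) - V (ev r (-δ) (neg_sq' hδ) za))
      (V (ev r δ hδ zc) - V (ev r (-δ) (neg_sq' hδ) zc)) := by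
  have hva' := phi_ne_zero r hva
  have hvc' := phi_ne_zero r hvc
  have ea : ev r δ hδ za = phi r za.im * (phi r (za.re / za.im) + δ) := by
    rw [ev_apply, map_div₀]; field_simp
  have ea' : ev r (-δ) (neg_sq' hδ) za = phi r za.im * (phi r (za.re / za.im) - δ) := by
    rw [ev_apply, map_div₀]; field_simp; ring
  have ec : ev r δ hδ zc = phi r zc.im * (phi r (zc.re / zc.im) + δ) := by
    rw [ev_apply, map_div₀]; field_simp
  have ec' : ev r (-δ) (neg_sq' hδ) zc = phi r zc.im * (phi r (zc.re / zc.im) - δ) := by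
    rw [ev_apply, map_div₀]; field_simp; ring
  have na := ev_ne_zero r δ hδ hza
  have na' := ev_ne_zero r (-δ) (neg_sq' hδ) hza
  have nc := ev_ne_zero r δ hδ hzc
  have nc' := ev_ne_zero r (-δ) (neg_sq' hδ) hzc
  rw [ea] at na
  rw [ea'] at na'
  rw [ec] at nc
  rw [ec'] at nc'
  have h1 := right_ne_zero_of_mul na
  have h2 := right_ne_zero_of_mul na'
  have h3 := right_ne_zero_of_mul nc
  have h4 := right_ne_zero_of_mul nc'
  have h5' : phi r (za.re / za.im) - phi r (zc.re / zc.im) ≠ 0 := by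
    rw [← map_sub]; exact phi_ne_zero r h5
  have h6' : phi r (za.re / za.im) + phi r (zc.re / zc.im) ≠ 0 := by
    rw [← map_add]; exact phi_ne_zero r h6
  have key := T.quad_identity b h1 h2 h3 h4 h5' h6'
  rw [ea, ea', ec, ec', V_mul hva' h1, V_mul hva' h2, V_mul hvc' h3, V_mul hvc' h4,
    add_sub_add_left_eq_sub, add_sub_add_left_eq_sub, ← V_div h1 h2, ← V_div h3 h4, key]
  rw [map_div₀ (phi r) ((za.re / za.im) ^ 2 - Δ), map_sub, map_pow, map_sub, map_pow, ← hδ,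
    map_div₀ (phi r) (za.re / za.im - zc.re / zc.im), map_sub, map_add]

omit [IsAlgClosed Ω] in
/-- contribution at an end in terms of valuations -/
lemma altZ_formula (T : TameData k' Ω D) {p m q n : HahnSeries ℤ Ω} :
    (T.altZ).B (V p - V m) (V q - V n) =
      2 * ((T.va p.leadingCoeff - T.va m.leadingCoeff) * (T.vc q.leadingCoeff - T.vc n.leadingCoeff) -
        (T.vc p.leadingCoeff - T.vc m.leadingCoeff) *
          (T.va q.leadingCoeff - T.va n.leadingCoeff)) := by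
  show 2 * T.Th (Real.log ‖p.leadingCoeff‖ - Real.log ‖m.leadingCoeff‖)
    (Real.log ‖q.leadingCoeff‖ - Real.log ‖n.leadingCoeff‖) = _
  unfold Th va vc
  rw [map_sub, map_sub, map_sub, map_sub]

lemma zmod3_of_eq {a b : ZMod 3} {m : ℤ} (h : (a.val : ℚ) = b.val + 3 * m) : a = b := by
  have h1 : ((a.val : ℤ) : ℤ) = (b.val : ℤ) + 3 * m := by exact_mod_cast h
  have h2 := congrArg (Int.cast : ℤ → ZMod 3) h1
  push_cast at h2
  have h3 : (3 : ZMod 3) = 0 := rfl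
  rw [h3, zero_mul, add_zero, ZMod.natCast_zmod_val, ZMod.natCast_zmod_val] at h2
  exact h2

section Main

variable [IsAlgClosed k'] [CharZero k'] [CharZero Ω]
  {δ0 δi : HahnSeries ℤ Ω} (h0 : δ0 ^ 2 = phi (some 0) Δ) (hi : δi ^ 2 = phi none Δ)
  (f0 : ∀ σ : D, lmap (act Ω σ) δ0 = δ0) (fi : ∀ σ : D, lmap (act Ω σ) δi = δi)
  {j0p j0m jip jim : ZMod 3}
  (e0p : T.res (ev (some 0) δ0 h0 (L.x 0)).leadingCoeff ^ 9 = T.om ^ j0p.val)
  (e0m : T.res (ev (some 0) (-δ0) (neg_sq' h0) (L.x 0)).leadingCoeff ^ 9 = T.om ^ j0m.val)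
  (eip : T.res (ev none δi hi (L.x 0)).leadingCoeff ^ 9 = T.om ^ jip.val)
  (eim : T.res (ev none (-δi) (neg_sq' hi) (L.x 0)).leadingCoeff ^ 9 = T.om ^ jim.val)

omit [IsAlgClosed k'] [CharZero k'] [CharZero Ω] [IsAlgClosed Ω] in
lemma r0 (σ : D) : (some (0 : Ω)).map (act Ω σ) = some 0 := by
  show some (σ • (0 : Ω)) = some 0
  rw [smul_zero]

omit [IsAlgClosed k'] [CharZero k'] [CharZero Ω] [IsAlgClosed Ω] in
lemma ri (σ : D) : (none : Option Ω).map (act Ω σ) = none := rfl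

omit [IsAlgClosed k'] [CharZero k'] [CharZero Ω] [IsAlgClosed Ω] in
lemma neg_fix {δ : HahnSeries ℤ Ω} (f : ∀ σ : D, lmap (act Ω σ) δ = δ) (σ : D) :
    lmap (act Ω σ) (-δ) = -δ := by rw [map_neg, f]

include h0 hi f0 fi e0p e0m eip eim

omit [CharZero Ω] in
/-- the linear law -/
lemma linear_law (hΔ : Δ ≠ 0) {sa : Finset (ZMod 3)} [CharZero Ω]
    (hWa : QuadraticAlgebra.norm (L.W 0 sa 0) ≠ 0) : j0p + j0m = jip + jim := by
  obtain ⟨⟨a1, ha1⟩, -⟩ := L.ends h0 r0 f0 hWa j0p e0p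
  obtain ⟨⟨a2, ha2⟩, -⟩ := L.ends (neg_sq' h0) r0 (neg_fix f0) hWa j0m e0m
  obtain ⟨⟨a3, ha3⟩, -⟩ := L.ends hi ri fi hWa jip eip
  obtain ⟨⟨a4, ha4⟩, -⟩ := L.ends (neg_sq' hi) ri (neg_fix fi) hWa jim eim
  rw [if_pos rfl] at ha1 ha2 ha3 ha4
  have hNa := L.norm_N_ne hWa
  set c : Ω := T.al 2 ^ 3 with hc
  have hc0 : c ≠ 0 := pow_ne_zero _ (T.al_ne 2)
  have hcD : ∀ σ : D, σ • c = c := by
    intro σ
    rw [hc, smul_pow', T.smul_al, mul_pow, ← map_pow, ← pow_mul, mul_comm _ 3, pow_mul, T.om_pow,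
      one_pow, map_one, one_mul]
  have hc' : (RatFunc.C c : RatFunc Ω) ≠ 0 :=
    (map_ne_zero_iff _ (RingHom.injective _)).2 hc0
  have hinv : ∀ σ : D, hat (act Ω σ) (QuadraticAlgebra.norm (L.N 0 sa)) =
      QuadraticAlgebra.norm (L.N 0 sa) := by
    intro σ
    have h1 := congrArg QuadraticAlgebra.re (L.N_inv σ 0 sa)
    have h2 := congrArg QuadraticAlgebra.im (L.N_inv σ 0 sa)
    rw [hatQ_re] at h1
    rw [hatQ_im] at h2
    rw [QuadraticAlgebra.norm_def]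
    simp only [map_add, map_sub, map_mul, map_zero, h1, h2, L.inv σ]
  have hinvC : ∀ σ : D, hat (act Ω σ) (RatFunc.C c) = RatFunc.C c := by
    intro σ
    rw [hat_C, act_apply, hcD]
  obtain ⟨n, hn⟩ := T.contrZ_three hNa hc' hinv hinvC (by
    intro r hr
    obtain ⟨δ, hδ⟩ := exists_sqrt_phi (some r) hΔ
    exact L.lin_loc hδ hr hWa hc0 hcD)
  have hva : T.va c = 0 := by
    rw [hc, T.va_pow]
    have : T.va (T.al 2) = 0 := by
      have := T.pa_al 2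
      rw [if_neg (by decide)] at this
      exact this
    rw [this, mul_zero]
  have hvc : T.vc c = 1 := by
    rw [hc, T.vc_pow]
    have : T.vc (T.al 2) = 1 / 3 := by
      have := T.pc_al 2
      rw [if_pos rfl] at this
      exact this
    rw [this]
    norm_num
  have hform : ∀ (r : Option Ω) (δ : HahnSeries ℤ Ω) (hδ : δ ^ 2 = phi r Δ),
      T.altZ.B (V (phi r (QuadraticAlgebra.norm (L.N 0 sa)))) (V (phi r (RatFunc.C c))) =
        2 * (T.va (ev r δ hδ (L.N 0 sa)).leadingCoeff +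
          T.va (ev r (-δ) (neg_sq' hδ) (L.N 0 sa)).leadingCoeff) := by
    intro r δ hδ
    rw [← ev_mul_ev r δ hδ, V_C _ hc0, ← T.va_mul
      (leadingCoeff_ne_zero.2 (ev_ne_zero _ _ hδ hNa))
      (leadingCoeff_ne_zero.2 (ev_ne_zero _ _ (neg_sq' hδ) hNa)), ← leadingCoeff_mul]
    show 2 * T.Th _ (Real.log ‖c‖) = _
    unfold Th
    have e1 : T.pa (Real.log ‖c‖) = 0 := hva
    have e2 : T.pc (Real.log ‖c‖) = 1 := hvc
    rw [e1, e2, mul_zero, sub_zero, mul_one]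
    rfl
  unfold contrZ at hn
  rw [hform _ δ0 h0, hform _ δi hi, ha1, ha2, ha3, ha4] at hn
  have h1 : (2 * (((j0p.val : ℤ) + 3 * a1) + ((j0m.val : ℤ) + 3 * a2)) -
      2 * (((jip.val : ℤ) + 3 * a3) + ((jim.val : ℤ) + 3 * a4)) : ℤ) = 3 * n := by
    exact_mod_cast hn
  have h2 := congrArg (Int.cast : ℤ → ZMod 3) h1
  push_cast at h2
  have h3 : (3 : ZMod 3) = 0 := rfl
  have h4 : (2 : ZMod 3) = -1 := rfl
  simp only [h3, h4, zero_mul, add_zero, ZMod.natCast_zmod_val] at h2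
  linear_combination -h2

omit [CharZero Ω] in
/-- the quadratic law -/
lemma quad_law (hΔ : Δ ≠ 0) {sa sc : Finset (ZMod 3)} [CharZero Ω]
    (hWa : QuadraticAlgebra.norm (L.W 0 sa 0) ≠ 0)
    (hWc : QuadraticAlgebra.norm (L.W 2 sc 0) ≠ 0) : (j0p - j0m) ^ 2 = (jip - jim) ^ 2 := by
  obtain ⟨⟨a1, ha1⟩, ⟨b1, hb1⟩⟩ := L.ends h0 r0 f0 hWa j0p e0p
  obtain ⟨⟨a2, ha2⟩, ⟨b2, hb2⟩⟩ := L.ends (neg_sq' h0) r0 (neg_fix f0) hWa j0m e0m
  obtain ⟨⟨a3, ha3⟩, ⟨b3, hb3⟩⟩ := L.ends hi ri fi hWa jip eip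
  obtain ⟨⟨a4, ha4⟩, ⟨b4, hb4⟩⟩ := L.ends (neg_sq' hi) ri (neg_fix fi) hWa jim eim
  obtain ⟨⟨c1, hc1⟩, ⟨d1, hd1⟩⟩ := L.ends h0 r0 f0 hWc j0p e0p
  obtain ⟨⟨c2, hc2⟩, ⟨d2, hd2⟩⟩ := L.ends (neg_sq' h0) r0 (neg_fix f0) hWc j0m e0m
  obtain ⟨⟨c3, hc3⟩, ⟨d3, hd3⟩⟩ := L.ends hi ri fi hWc jip eip
  obtain ⟨⟨c4, hc4⟩, ⟨d4, hd4⟩⟩ := L.ends (neg_sq' hi) ri (neg_fix fi) hWc jim eim
  rw [if_pos rfl] at ha1 ha2 ha3 ha4 hd1 hd2 hd3 hd4
  rw [if_neg (by decide)] at hb1 hb2 hb3 hb4 hc1 hc2 hc3 hc4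
  have hNa := L.norm_N_ne hWa
  have hNc := L.norm_N_ne hWc
  -- degenerate conclusion
  have hdeg : j0p = j0m → jip = jim → (j0p - j0m) ^ 2 = (jip - jim) ^ 2 := by
    rintro rfl rfl
    rw [sub_self, sub_self]
  by_cases hva : (L.N 0 sa).im = 0
  · have e : ∀ (r : Option Ω) (δ : HahnSeries ℤ Ω) (hδ : δ ^ 2 = phi r Δ),
        ev r δ hδ (L.N 0 sa) = ev r (-δ) (neg_sq' hδ) (L.N 0 sa) := by
      intro r δ hδ
      rw [ev_apply, ev_apply, hva, map_zero, zero_mul, zero_mul]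
    apply hdeg
    · rw [e _ δ0 h0, ha2] at ha1
      exact (zmod3_of_eq (m := a1 - a2) (by push_cast; linarith)).symm
    · rw [e _ δi hi, ha4] at ha3
      exact (zmod3_of_eq (m := a3 - a4) (by push_cast; linarith)).symm
  by_cases hvc : (L.N 2 sc).im = 0
  · have e : ∀ (r : Option Ω) (δ : HahnSeries ℤ Ω) (hδ : δ ^ 2 = phi r Δ),
        ev r δ hδ (L.N 2 sc) = ev r (-δ) (neg_sq' hδ) (L.N 2 sc) := by
      intro r δ hδ
      rw [ev_apply, ev_apply, hvc, map_zero, zero_mul, zero_mul]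
    apply hdeg
    · rw [e _ δ0 h0, hd2] at hd1
      exact (zmod3_of_eq (m := d1 - d2) (by push_cast; linarith)).symm
    · rw [e _ δi hi, hd4] at hd3
      exact (zmod3_of_eq (m := d3 - d4) (by push_cast; linarith)).symm
  by_cases h5 : (L.N 0 sa).re / (L.N 0 sa).im - (L.N 2 sc).re / (L.N 2 sc).im = 0
  · have e : ∀ (r : Option Ω) (δ : HahnSeries ℤ Ω) (hδ : δ ^ 2 = phi r Δ),
        T.va (ev r δ hδ (L.N 0 sa)).leadingCoeff +
          T.va (ev r (-δ) (neg_sq' hδ) (L.N 2 sc)).leadingCoeff =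
        T.va (ev r (-δ) (neg_sq' hδ) (L.N 0 sa)).leadingCoeff +
          T.va (ev r δ hδ (L.N 2 sc)).leadingCoeff := by
      intro r δ hδ
      rw [← T.va_mul (leadingCoeff_ne_zero.2 (ev_ne_zero _ _ hδ hNa))
        (leadingCoeff_ne_zero.2 (ev_ne_zero _ _ (neg_sq' hδ) hNc)), ← leadingCoeff_mul,
        ← T.va_mul (leadingCoeff_ne_zero.2 (ev_ne_zero _ _ (neg_sq' hδ) hNa))
        (leadingCoeff_ne_zero.2 (ev_ne_zero _ _ hδ hNc)), ← leadingCoeff_mul]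
      congr 2
      have h7 : (L.N 0 sa).re * (L.N 2 sc).im = (L.N 2 sc).re * (L.N 0 sa).im := by
        field_simp at h5
        linear_combination h5
      have h8 := congrArg (phi r) h7
      rw [map_mul, map_mul] at h8
      simp only [ev_apply]
      linear_combination (-2 * δ) * h8
    have e0 := e _ δ0 h0
    have ei := e _ δi hi
    rw [ha1, ha2, hc1, hc2] at e0
    rw [ha3, ha4, hc3, hc4] at ei
    apply hdeg
    · exact zmod3_of_eq (m := a2 - a1 + c1 - c2) (by push_cast; linarith)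
    · exact zmod3_of_eq (m := a4 - a3 + c3 - c4) (by push_cast; linarith)
  by_cases h6 : (L.N 0 sa).re / (L.N 0 sa).im + (L.N 2 sc).re / (L.N 2 sc).im = 0
  · have e : ∀ (r : Option Ω) (δ : HahnSeries ℤ Ω) (hδ : δ ^ 2 = phi r Δ),
        T.va (ev r δ hδ (L.N 0 sa)).leadingCoeff +
          T.va (ev r δ hδ (L.N 2 sc)).leadingCoeff =
        T.va (ev r (-δ) (neg_sq' hδ) (L.N 0 sa)).leadingCoeff +
          T.va (ev r (-δ) (neg_sq' hδ) (L.N 2 sc)).leadingCoeff := by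
      intro r δ hδ
      rw [← T.va_mul (leadingCoeff_ne_zero.2 (ev_ne_zero _ _ hδ hNa))
        (leadingCoeff_ne_zero.2 (ev_ne_zero _ _ hδ hNc)), ← leadingCoeff_mul,
        ← T.va_mul (leadingCoeff_ne_zero.2 (ev_ne_zero _ _ (neg_sq' hδ) hNa))
        (leadingCoeff_ne_zero.2 (ev_ne_zero _ _ (neg_sq' hδ) hNc)), ← leadingCoeff_mul]
      congr 2
      have h7 : (L.N 0 sa).re * (L.N 2 sc).im = -(L.N 2 sc).re * (L.N 0 sa).im := by
        field_simp at h6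
        linear_combination h6
      have h8 := congrArg (phi r) h7
      rw [map_mul, map_mul, map_neg] at h8
      simp only [ev_apply]
      linear_combination (2 * δ) * h8
    have e0 := e _ δ0 h0
    have ei := e _ δi hi
    rw [ha1, ha2, hc1, hc2] at e0
    rw [ha3, ha4, hc3, hc4] at ei
    apply hdeg
    · exact zmod3_of_eq (m := a2 - a1 + c2 - c1) (by push_cast; linarith)
    · exact zmod3_of_eq (m := a4 - a3 + c4 - c3) (by push_cast; linarith)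
  -- the generic case
  have hreim : ∀ (π : Fin 3) (s : Finset (ZMod 3)) (σ : D),
      hat (act Ω σ) (L.N π s).re = (L.N π s).re ∧ hat (act Ω σ) (L.N π s).im = (L.N π s).im :=
    fun π s σ => ⟨congrArg QuadraticAlgebra.re (L.N_inv σ π s),
      congrArg QuadraticAlgebra.im (L.N_inv σ π s)⟩
  have hfne : ∀ (z : Q Δ), QuadraticAlgebra.norm z ≠ 0 → z.im ≠ 0 → (z.re / z.im) ^ 2 - Δ ≠ 0 := by
    intro z hz hzi h
    apply hz
    rw [QuadraticAlgebra.norm_def]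
    field_simp at h
    linear_combination h
  have hX0 : (((L.N 0 sa).re / (L.N 0 sa).im) ^ 2 - Δ) / (((L.N 2 sc).re / (L.N 2 sc).im) ^ 2 - Δ)
      ≠ 0 := div_ne_zero (hfne _ hNa hva) (hfne _ hNc hvc)
  have hY0 : ((L.N 0 sa).re / (L.N 0 sa).im - (L.N 2 sc).re / (L.N 2 sc).im) /
      ((L.N 0 sa).re / (L.N 0 sa).im + (L.N 2 sc).re / (L.N 2 sc).im) ≠ 0 := div_ne_zero h5 h6
  obtain ⟨n, hn⟩ := T.contrZ_three hX0 hY0 (by
      intro σ
      simp only [map_div₀, map_sub, map_pow, (hreim _ _ σ).1, (hreim _ _ σ).2, L.inv σ]) (by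
      intro σ
      simp only [map_div₀, map_sub, map_add, (hreim _ _ σ).1, (hreim _ _ σ).2]) (by
    intro r hr
    obtain ⟨δ, hδ⟩ := exists_sqrt_phi (some r) hΔ
    unfold contr
    rw [alt_identity T _ hδ hNa hNc hva hvc h5 h6]
    exact L.quad_loc hδ hr hWa hWc)
  unfold contrZ at hn
  rw [alt_identity T _ h0 hNa hNc hva hvc h5 h6,
    alt_identity T _ hi hNa hNc hva hvc h5 h6, altZ_formula, altZ_formula,
    ha1, ha2, ha3, ha4, hb1, hb2, hb3, hb4, hc1, hc2, hc3, hc4, hd1, hd2, hd3, hd4] at hn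
  simp only [zero_add] at hn
  have h1 : (2 * (((j0p.val : ℤ) + 3 * a1 - ((j0m.val : ℤ) + 3 * a2)) *
      ((j0p.val : ℤ) + 3 * d1 - ((j0m.val : ℤ) + 3 * d2)) -
        (3 * b1 - 3 * b2) * (3 * c1 - 3 * c2)) -
      2 * (((jip.val : ℤ) + 3 * a3 - ((jim.val : ℤ) + 3 * a4)) *
      ((jip.val : ℤ) + 3 * d3 - ((jim.val : ℤ) + 3 * d4)) -
        (3 * b3 - 3 * b4) * (3 * c3 - 3 * c4)) : ℤ) = 3 * n := by
    exact_mod_cast hn
  have h2 := congrArg (Int.cast : ℤ → ZMod 3) h1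
  push_cast at h2
  have h3 : (3 : ZMod 3) = 0 := rfl
  have h4 : (2 : ZMod 3) = -1 := rfl
  simp only [h3, h4, zero_mul, add_zero, ZMod.natCast_zmod_val, sub_zero] at h2
  linear_combination -h2

/-- The Line Theorem. -/
theorem line_thm (hΔ : Δ ≠ 0) : (j0p - j0m) ^ 2 = (jip - jim) ^ 2 ∧ j0p + j0m = jip + jim := by
  obtain ⟨sa, hWa⟩ := L.exists_s h0 0
  obtain ⟨sc, hWc⟩ := L.exists_s h0 2
  exact ⟨L.quad_law h0 hi f0 fi e0p e0m eip eim hΔ hWa hWc,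
    L.linear_law h0 hi f0 fi e0p e0m eip eim hΔ hWa⟩

end Main

end LineData

end Pool.Agent.helper34.Cay
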