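import Pool.Agent.helper34.Cay.TwoPoints
import Pool.Agent.helper34.Cay.Field3

/-!
# The main theorem
-/

namespace Pool.Agent.helper34.Cay

open scoped Classical
open HahnSeries TameData

universe u v w

/-- There is no dominant equivariant rational map of degree at most two. -/
theorem main {k : Type u} {n : Type v} {K : Type w} [Field k] [IsAlgClosed k] [CharZero k]
    [Fintype n] [DecidableEq n] (e : n ≃ H) [Field K] [Algebra k K] {X F : Matrix n n K}
    (hX : IsFunctionFieldSL k X) (hF : IsDominantEquivariant k X F) :
    2 < Module.rank (KY k F) K := by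
  by_contra hcon
  push Not at hcon
  have hcharK : CharZero (KY k F) := charZero_of_injective_algebraMap (algebraMap k (KY k F)).injective
  obtain ⟨d, δ, Ψ, hd, hδ, hδ2, hrec, hbase⟩ := exists_quad hcon
  let qd : QD k F := ⟨d, δ, Ψ, hd, hδ, hδ2, hrec, hbase⟩
  -- the big constant field
  let R := MvPolynomial (Option n × H) k
  let k' := AlgebraicClosure (FractionRing R)
  have hchark' : CharZero k' := charZero_of_injective_algebraMap (algebraMap k k').injective
  let μ : Option n × H → k' := fun p => algebraMap (FractionRing R) k'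
    (algebraMap R (FractionRing R) (MvPolynomial.X p))
  have hμ : Function.Injective (MvPolynomial.aeval μ : MvPolynomial (Option n × H) k →ₐ[k] k') := by
    have h1 : (MvPolynomial.aeval μ : MvPolynomial (Option n × H) k →ₐ[k] k') =
        (IsScalarTower.toAlgHom k (FractionRing R) k').comp
          (IsScalarTower.toAlgHom k R (FractionRing R)) := by
      apply MvPolynomial.algHom_ext
      intro p
      rw [MvPolynomial.aeval_X]
      rfl
    rw [h1]
    exact (algebraMap (FractionRing R) k').injective.comp (IsFractionRing.injective R _)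
  -- roots of unity
  obtain ⟨ζ, hζ⟩ := HasEnoughRootsOfUnity.exists_primitiveRoot k 27
  have hζ9 : IsPrimitiveRoot (ζ ^ 9) 3 := hζ.pow (by norm_num) (by norm_num)
  have hw : IsPrimitiveRoot (algebraMap k k' (ζ ^ 9)) 3 :=
    hζ9.map_of_injective (algebraMap k k').injective
  obtain ⟨Ω, D, i1, i2, i3, i4, T, h1, h2, hom, hal, hind⟩ := exists_tame k'
    (w := algebraMap k k' (ζ ^ 9)) hw.pow_eq_one (hw.ne_one (by norm_num))
  let i5 : Algebra k Ω := ((algebraMap k' Ω).comp (algebraMap k k')).toAlgebra
  have i6 : IsScalarTower k k' Ω := IsScalarTower.of_algebraMap_eq fun x => rfl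
  let fr : Frame k T n :=
    { ε := T.eps μ
      smul_ε := T.smul_eps μ
      inj := T.eps_injective μ hind hμ
      lam := T.lam μ none 0
      lam_ne := T.lam_zero_ne μ hμ none
      ε_none := fun h => T.eps_sub_lt μ hal (none, h) }
  refine no_qd qd hX hF (ζ := ζ) hζ.pow_eq_one ?_ fr e
  rw [hom, map_pow]

end Pool.Agent.helper34.Cay
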