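import Pool.Agent.helper34.Cay.Recip

/-!
# Orbits of places and the resulting divisibility of the contribution of `0` and `∞`
-/

namespace Pool.Agent.helper34.Cay

open scoped Classical
open HahnSeries

section Hat

variable {Ω : Type*} [Field Ω]

lemma ratfunc_hom_ext {L : Type*} [Field L] {f g : RatFunc Ω →+* L}
    (hC : ∀ c, f (RatFunc.C c) = g (RatFunc.C c)) (hX : f RatFunc.X = g RatFunc.X) : f = g := by
  have h : f.comp (algebraMap (Polynomial Ω) (RatFunc Ω)) =
      g.comp (algebraMap (Polynomial Ω) (RatFunc Ω)) := by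
    apply Polynomial.ringHom_ext
    · intro c
      rw [RingHom.comp_apply, RingHom.comp_apply, RatFunc.algebraMap_C, hC]
    · rw [RingHom.comp_apply, RingHom.comp_apply, RatFunc.algebraMap_X, hX]
  exact IsLocalization.ringHom_ext (nonZeroDivisors (Polynomial Ω)) h

/-- Coefficientwise action on rational functions. -/
noncomputable def hat (σ : Ω ≃+* Ω) : RatFunc Ω →+* RatFunc Ω :=
  RatFunc.mapRingHom (Polynomial.mapRingHom (σ : Ω →+* Ω)) (by
    intro P hP
    rw [Submonoid.mem_comap]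
    apply mem_nonZeroDivisors_of_ne_zero
    rw [Polynomial.coe_mapRingHom]
    exact (Polynomial.map_ne_zero_iff (σ : Ω →+* Ω).injective).2 (nonZeroDivisors.ne_zero hP))

lemma hat_algebraMap (σ : Ω ≃+* Ω) (P : Polynomial Ω) :
    hat σ (algebraMap _ _ P) = algebraMap _ _ (P.map (σ : Ω →+* Ω)) := by
  unfold hat
  rw [RatFunc.coe_mapRingHom_eq_coe_map, RatFunc.algebraMap_apply, RatFunc.map_apply_div]
  simp

lemma hat_C (σ : Ω ≃+* Ω) (c : Ω) : hat σ (RatFunc.C c) = RatFunc.C (σ c) := by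
  rw [← RatFunc.algebraMap_C, hat_algebraMap, Polynomial.map_C, RatFunc.algebraMap_C]
  rfl

lemma hat_X (σ : Ω ≃+* Ω) : hat σ RatFunc.X = RatFunc.X := by
  rw [← RatFunc.algebraMap_X, hat_algebraMap, Polynomial.map_X]

variable [IsAlgClosed Ω]

lemma lmap_tt (σ : Ω ≃+* Ω) (r : Option Ω) : lmap σ (tt r) = tt (r.map σ) := by
  rcases r with _ | r
  · show lmap σ (single (-2) 1) = single (-2) 1
    rw [lmap_single, map_one]
  · show lmap σ (HahnSeries.C r + single 2 1) = HahnSeries.C (σ r) + single 2 1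
    rw [map_add, lmap_C, lmap_single, map_one]

lemma phi_hat (σ : Ω ≃+* Ω) (r : Option Ω) (f : RatFunc Ω) :
    phi (r.map σ) (hat σ f) = lmap σ (phi r f) := by
  have h : (phi (r.map σ)).comp (hat σ) = (lmap σ).comp (phi r) := by
    apply ratfunc_hom_ext
    · intro c
      rw [RingHom.comp_apply, RingHom.comp_apply, hat_C, phi_C, phi_C, lmap_C]
    · rw [RingHom.comp_apply, RingHom.comp_apply, hat_X, phi_X, phi_X, lmap_tt]
  exact DFunLike.congr_fun h f

end Hat

namespace TameData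

variable {k' Ω D : Type*} [Field k'] [NormedField Ω] [Algebra k' Ω] [Group D]
  [MulSemiringAction D Ω] (T : TameData k' Ω D)

/-- The automorphism attached to an element of the group. -/
abbrev act (Ω : Type*) {D : Type*} [NormedField Ω] [Group D] [MulSemiringAction D Ω] (σ : D) :
    Ω ≃+* Ω := MulSemiringAction.toRingEquiv D Ω σ

omit T in
omit [Field k'] [Algebra k' Ω] in
lemma act_apply (σ : D) (x : Ω) : act Ω σ x = σ • x := rfl

include T

lemma V_lmap (σ : D) (f : HahnSeries ℤ Ω) : V (lmap (act Ω σ) f) = V f := by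
  unfold V
  rw [lmap_order, lmap_leadingCoeff, act_apply, T.norm_smul]

variable [IsAlgClosed Ω]

lemma contr_smul {f g : RatFunc Ω} (hf : ∀ σ : D, hat (act Ω σ) f = f)
    (hg : ∀ σ : D, hat (act Ω σ) g = g) (σ : D) (r : Ω) :
    T.contr f g (σ • r) = T.contr f g r := by
  unfold contr
  have h1 : ∀ f : RatFunc Ω, (∀ σ : D, hat (act Ω σ) f = f) →
      V (phi (some (σ • r)) f) = V (phi (some r) f) := by
    intro f hf
    have h2 : phi (some (σ • r)) f = lmap (act Ω σ) (phi (some r) f) := by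
      rw [← phi_hat, hf]
      rfl
    rw [h2, T.V_lmap]
  rw [h1 f hf, h1 g hg]
  unfold altAt
  simp only [T.norm_smul]

lemma sum_stable (c : Ω → ℚ) (hc : ∀ (σ : D) r, c (σ • r) = c r)
    (h : ∀ r : Ω, r ≠ 0 → ∃ n : ℤ, (Nat.card (MulAction.orbit D r) : ℚ) * c r = 3 * n) :
    ∀ (N : ℕ) (S : Finset Ω), S.card ≤ N → (∀ r ∈ S, r ≠ 0) → (∀ r ∈ S, ∀ σ : D, σ • r ∈ S) →
      ∃ n : ℤ, ∑ r ∈ S, c r = 3 * n := by
  intro N
  induction N with
  | zero =>
    intro S hS _ _
    have : S = ∅ := Finset.card_eq_zero.1 (Nat.le_zero.1 hS)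
    exact ⟨0, by rw [this]; simp⟩
  | succ N ih =>
    intro S hS h0 hst
    by_cases hne : S.Nonempty
    · obtain ⟨r, hr⟩ := hne
      set O : Finset Ω := (T.finite_orbit r).toFinset with hO
      have hOmem : ∀ x, x ∈ O ↔ ∃ σ : D, σ • r = x := by
        intro x
        rw [hO, Set.Finite.mem_toFinset, MulAction.mem_orbit_iff]
      have hOS : O ⊆ S := by
        intro x hx
        obtain ⟨σ, rfl⟩ := (hOmem x).1 hx
        exact hst r hr σ
      have hOr : r ∈ O := (hOmem r).2 ⟨1, one_smul _ _⟩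
      have hcardO : (O.card : ℚ) = Nat.card (MulAction.orbit D r) := by
        rw [hO, Nat.card_coe_set_eq, Set.ncard_eq_toFinset_card _ (T.finite_orbit r)]
      have hsumO : ∑ x ∈ O, c x = (O.card : ℚ) * c r := by
        rw [← nsmul_eq_mul, ← Finset.sum_const]
        refine Finset.sum_congr rfl fun x hx => ?_
        obtain ⟨σ, rfl⟩ := (hOmem x).1 hx
        exact hc σ r
      obtain ⟨n1, hn1⟩ := h r (h0 r hr)
      obtain ⟨n2, hn2⟩ := ih (S \ O) (by
        rw [Finset.card_sdiff_of_subset hOS]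
        have : 0 < O.card := Finset.card_pos.2 ⟨r, hOr⟩
        omega) (fun x hx => h0 x (Finset.mem_sdiff.1 hx).1) (by
        intro x hx σ
        rw [Finset.mem_sdiff] at hx ⊢
        refine ⟨hst x hx.1 σ, fun hx' => hx.2 ?_⟩
        obtain ⟨τ, hτ⟩ := (hOmem _).1 hx'
        refine (hOmem _).2 ⟨σ⁻¹ * τ, ?_⟩
        rw [mul_smul, hτ, inv_smul_smul])
      refine ⟨n2 + n1, ?_⟩
      rw [← Finset.sum_sdiff hOS, hn2, hsumO, hcardO, hn1]
      push_cast
      ring
    · rw [Finset.not_nonempty_iff_eq_empty] at hne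
      exact ⟨0, by rw [hne]; simp⟩

/-- The main consequence of reciprocity. -/
theorem contrZ_three {f g : RatFunc Ω} (hf0 : f ≠ 0) (hg0 : g ≠ 0)
    (hf : ∀ σ : D, hat (act Ω σ) f = f) (hg : ∀ σ : D, hat (act Ω σ) g = g)
    (h : ∀ r : Ω, r ≠ 0 → ∃ n : ℤ,
      ((MulAction.stabilizer D r).index : ℚ) * T.contr f g r = 3 * n) :
    ∃ n : ℤ, T.contrZ f g = 3 * n := by
  obtain ⟨S₀, hS₀⟩ := T.rec_all f hf0 g hg0
  set S : Finset Ω := (S₀.biUnion fun r => (T.finite_orbit r).toFinset).filter (· ≠ 0) with hS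
  have hmem : ∀ x, x ∈ S ↔ (∃ r ∈ S₀, ∃ σ : D, σ • r = x) ∧ x ≠ 0 := by
    intro x
    rw [hS, Finset.mem_filter, Finset.mem_biUnion]
    simp only [Set.Finite.mem_toFinset, MulAction.mem_orbit_iff]
  have h1 := hS₀ S (fun r hr => ((hmem r).1 hr).2)
    (fun r hr hr0 => (hmem r).2 ⟨⟨r, hr, 1, one_smul _ _⟩, hr0⟩)
  obtain ⟨n, hn⟩ := T.sum_stable (T.contr f g) (T.contr_smul hf hg) (by
    intro r hr
    obtain ⟨n, hn⟩ := h r hr
    exact ⟨n, by rw [← hn, MulAction.index_stabilizer, Nat.card_coe_set_eq]⟩) S.card S le_rfl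
    (fun r hr => ((hmem r).1 hr).2) (by
    intro r hr σ
    obtain ⟨⟨x, hx, τ, rfl⟩, h0⟩ := (hmem r).1 hr
    exact (hmem _).2 ⟨⟨x, hx, σ * τ, mul_smul _ _ _⟩, smul_ne_zero' σ h0⟩)
  refine ⟨-n, ?_⟩
  rw [hn] at h1
  push_cast
  linarith

end TameData

end Pool.Agent.helper34.Cay
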