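import Pool.Agent.helper34.Cay.Sqrt

/-!
# The quadratic algebra over the field of rational functions and its local evaluations
-/

namespace Pool.Agent.helper34.Cay

open scoped Classical
open HahnSeries

section Quad

variable {Ω : Type*} [Field Ω]

/-- The quadratic algebra `Ω(s)[√Δ]`. -/
abbrev Q (Δ : RatFunc Ω) : Type _ := QuadraticAlgebra (RatFunc Ω) Δ 0

variable {Δ : RatFunc Ω}

/-- constants -/
noncomputable def cQ (Δ : RatFunc Ω) (c : Ω) : Q Δ := ⟨RatFunc.C c, 0⟩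

/-- coefficientwise action on the quadratic algebra -/
noncomputable def hatQ (σ : Ω ≃+* Ω) (hσ : hat σ Δ = Δ) : Q Δ →+* Q Δ where
  toFun z := ⟨hat σ z.re, hat σ z.im⟩
  map_one' := by
    ext
    · exact map_one (hat σ)
    · exact map_zero (hat σ)
  map_zero' := by ext <;> simp
  map_add' x y := by ext <;> simp
  map_mul' x y := by
    ext
    · simp [hσ]
    · simp

lemma hatQ_re (σ : Ω ≃+* Ω) (hσ : hat σ Δ = Δ) (z : Q Δ) : (hatQ σ hσ z).re = hat σ z.re := rfl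
lemma hatQ_im (σ : Ω ≃+* Ω) (hσ : hat σ Δ = Δ) (z : Q Δ) : (hatQ σ hσ z).im = hat σ z.im := rfl

lemma hatQ_cQ (σ : Ω ≃+* Ω) (hσ : hat σ Δ = Δ) (c : Ω) :
    hatQ σ hσ (cQ Δ c) = cQ Δ (σ c) := by
  ext
  · rw [hatQ_re]; exact hat_C σ c
  · rw [hatQ_im]; exact map_zero _

lemma cQ_mul (a b : Ω) : cQ Δ (a * b) = cQ Δ a * cQ Δ b := by
  ext <;> simp [cQ]

lemma cQ_one : cQ Δ (1 : Ω) = 1 := by
  ext
  · exact map_one RatFunc.C
  · rfl

variable [IsAlgClosed Ω]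

/-- Evaluation at a point of the double cover. -/
noncomputable def ev (r : Option Ω) (δ : HahnSeries ℤ Ω) (hδ : δ ^ 2 = phi r Δ) :
    Q Δ →+* HahnSeries ℤ Ω where
  toFun z := phi r z.re + phi r z.im * δ
  map_one' := by
    rw [QuadraticAlgebra.re_one, QuadraticAlgebra.im_one, map_one, map_zero, zero_mul, add_zero]
  map_zero' := by simp
  map_add' x y := by
    simp only [QuadraticAlgebra.re_add, QuadraticAlgebra.im_add, map_add]
    ring
  map_mul' x y := by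
    simp only [QuadraticAlgebra.re_mul, QuadraticAlgebra.im_mul, map_add, map_mul, map_zero]
    rw [← hδ]
    ring

lemma ev_apply (r : Option Ω) (δ : HahnSeries ℤ Ω) (hδ : δ ^ 2 = phi r Δ) (z : Q Δ) :
    ev r δ hδ z = phi r z.re + phi r z.im * δ := rfl

lemma neg_sq' {r : Option Ω} {δ : HahnSeries ℤ Ω} (hδ : δ ^ 2 = phi r Δ) :
    (-δ) ^ 2 = phi r Δ := by rw [neg_sq, hδ]

lemma ev_mul_ev (r : Option Ω) (δ : HahnSeries ℤ Ω) (hδ : δ ^ 2 = phi r Δ) (z : Q Δ) :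
    ev r δ hδ z * ev r (-δ) (neg_sq' hδ) z = phi r (QuadraticAlgebra.norm z) := by
  rw [ev_apply, ev_apply, QuadraticAlgebra.norm_def]
  simp only [map_add, map_sub, map_mul, map_zero]
  rw [← hδ]
  ring

lemma ev_cQ (r : Option Ω) (δ : HahnSeries ℤ Ω) (hδ : δ ^ 2 = phi r Δ) (c : Ω) :
    ev r δ hδ (cQ Δ c) = HahnSeries.C c := by
  rw [ev_apply]
  show phi r (RatFunc.C c) + phi r 0 * δ = _
  rw [phi_C, map_zero, zero_mul, add_zero]

lemma ev_ne_zero (r : Option Ω) (δ : HahnSeries ℤ Ω) (hδ : δ ^ 2 = phi r Δ) {z : Q Δ}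
    (hz : QuadraticAlgebra.norm z ≠ 0) : ev r δ hδ z ≠ 0 := by
  intro h
  have := ev_mul_ev r δ hδ z
  rw [h, zero_mul] at this
  exact phi_ne_zero r hz this.symm

lemma lmap_sq (σ : Ω ≃+* Ω) (hσ : hat σ Δ = Δ) {r : Option Ω} (hr : r.map σ = r)
    {δ : HahnSeries ℤ Ω} (hδ : δ ^ 2 = phi r Δ) : (lmap σ δ) ^ 2 = phi r Δ := by
  rw [← map_pow, hδ, ← phi_hat, hσ, hr]

lemma lmap_ev (σ : Ω ≃+* Ω) (hσ : hat σ Δ = Δ) {r : Option Ω} (hr : r.map σ = r)
    {δ : HahnSeries ℤ Ω} (hδ : δ ^ 2 = phi r Δ) (z : Q Δ) :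
    lmap σ (ev r δ hδ z) = ev r (lmap σ δ) (lmap_sq σ hσ hr hδ) (hatQ σ hσ z) := by
  rw [ev_apply, ev_apply, map_add, map_mul, hatQ_re, hatQ_im, ← phi_hat, ← phi_hat, hr]

lemma ev_congr {r : Option Ω} {δ δ' : HahnSeries ℤ Ω} (h : δ = δ') (hδ : δ ^ 2 = phi r Δ)
    (hδ' : δ' ^ 2 = phi r Δ) (z : Q Δ) : ev r δ hδ z = ev r δ' hδ' z := by
  subst h; rfl

lemma lmap_sign (σ : Ω ≃+* Ω) (hσ : hat σ Δ = Δ) {r : Option Ω} (hr : r.map σ = r)
    {δ : HahnSeries ℤ Ω} (hδ : δ ^ 2 = phi r Δ) : lmap σ δ = δ ∨ lmap σ δ = -δ := by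
  have h := lmap_sq σ hσ hr hδ
  rw [← hδ] at h
  exact sq_eq_sq_iff_eq_or_eq_neg.1 h

lemma lmap_ev_fix (σ : Ω ≃+* Ω) (hσ : hat σ Δ = Δ) {r : Option Ω} (hr : r.map σ = r)
    {δ : HahnSeries ℤ Ω} (hδ : δ ^ 2 = phi r Δ) (hf : lmap σ δ = δ) (z : Q Δ) :
    lmap σ (ev r δ hδ z) = ev r δ hδ (hatQ σ hσ z) := by
  rw [lmap_ev σ hσ hr hδ, ev_congr hf]

lemma lmap_ev_flip (σ : Ω ≃+* Ω) (hσ : hat σ Δ = Δ) {r : Option Ω} (hr : r.map σ = r)
    {δ : HahnSeries ℤ Ω} (hδ : δ ^ 2 = phi r Δ) (hf : lmap σ δ = -δ) (z : Q Δ) :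
    lmap σ (ev r δ hδ z) = ev r (-δ) (neg_sq' hδ) (hatQ σ hσ z) := by
  rw [lmap_ev σ hσ hr hδ, ev_congr hf]

end Quad

/-! ### The combinatorics of the cyclic structure -/

section Cyc

variable {A : Type*} [CommRing A]

/-- The Hilbert 90 type element. -/
def ww (X c : ZMod 3 → A) (i : ZMod 3) : A :=
  c i + X (i + 1) * X (i + 2) * c (i + 1) + X (i + 2) * c (i + 2)

lemma prod_zmod3 (X : ZMod 3 → A) (i : ZMod 3) (h : X 0 * X 1 * X 2 = 1) :
    X i * X (i + 1) * X (i + 2) = 1 := by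
  fin_cases i
  · exact h
  · show X 1 * X 2 * X 0 = 1
    rw [← h]; ring
  · show X 2 * X 0 * X 1 = 1
    rw [← h]; ring

lemma ww_succ (X c : ZMod 3 → A) (h : X 0 * X 1 * X 2 = 1) (i : ZMod 3) :
    ww X c (i + 1) = X i * ww X c i := by
  unfold ww
  have e1 : i + 1 + 1 = i + 2 := by ring
  have e2 : i + 1 + 2 = i := by
    have : (3 : ZMod 3) = 0 := rfl
    linear_combination this
  have h3 := prod_zmod3 X i h
  rw [e1, e2]
  linear_combination (-c (i + 1)) * h3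

/-- The norm element. -/
def nn (X c : ZMod 3 → A) : A := ww X c 0 * ww X c 1 * ww X c 2

lemma nn_eq (X c : ZMod 3 → A) (h : X 0 * X 1 * X 2 = 1) :
    nn X c = ww X c 0 ^ 3 * X 0 ^ 2 * X 1 := by
  have h1 : ww X c 1 = X 0 * ww X c 0 := ww_succ X c h 0
  have h2 : ww X c 2 = X 1 * ww X c 1 := ww_succ X c h 1
  unfold nn
  rw [h2, h1]
  ring

lemma ww_map {B : Type*} [CommRing B] (f : A →+* B) (X c : ZMod 3 → A) (i : ZMod 3) :
    f (ww X c i) = ww (fun i => f (X i)) (fun i => f (c i)) i := by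
  unfold ww
  simp only [map_add, map_mul]

lemma nn_map {B : Type*} [CommRing B] (f : A →+* B) (X c : ZMod 3 → A) :
    f (nn X c) = nn (fun i => f (X i)) (fun i => f (c i)) := by
  unfold nn
  simp only [map_mul, ww_map]

lemma ww_shift (X c : ZMod 3 → A) (j i : ZMod 3) :
    ww (fun i => X (i + j)) (fun i => c (i + j)) i = ww X c (i + j) := by
  unfold ww
  have e1 : i + 1 + j = i + j + 1 := by ring
  have e2 : i + 2 + j = i + j + 2 := by ring
  simp only [e1, e2]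

lemma nn_shift (X c : ZMod 3 → A) (j : ZMod 3) :
    nn (fun i => X (i + j)) (fun i => c (i + j)) = nn X c := by
  unfold nn
  rw [ww_shift, ww_shift, ww_shift]
  fin_cases j
  · show ww X c 0 * ww X c 1 * ww X c 2 = _
    rfl
  · show ww X c 1 * ww X c 2 * ww X c 0 = _
    ring
  · show ww X c 2 * ww X c 0 * ww X c 1 = _
    ring

lemma const_of_shift {α : Type*} (M : ZMod 3 → α) {c : ZMod 3} (hc : c ≠ 0)
    (h : ∀ j, M (j + c) = M j) : M 1 = M 0 ∧ M 2 = M 0 := by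
  fin_cases c
  · exact absurd rfl hc
  · have h0 : M 1 = M 0 := h 0
    have h1 : M 2 = M 1 := h 1
    exact ⟨h0, h1.trans h0⟩
  · have h0 : M 2 = M 0 := h 0
    have h1 : M 0 = M 1 := h 1
    exact ⟨h1.symm, h0⟩

end Cyc

/-! ### Sums over fibres -/

/-- fibre sums -/
def fib {A : Type*} [AddCommMonoid A] (m : H → A) (π : Fin 3) (i : ZMod 3) : A :=
  ∑ h ∈ Finset.univ.filter (fun h : H => h π = i), m h

lemma fib_shift {A : Type*} [AddCommMonoid A] (m : H → A) (g : H) (π : Fin 3) (i : ZMod 3) :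
    fib (fun h => m (h + g)) π i = fib m π (i + g π) := by
  unfold fib
  refine Finset.sum_bij' (fun h _ => h + g) (fun h _ => h - g) ?_ ?_ ?_ ?_ ?_
  · intro h hh
    rw [Finset.mem_filter] at hh ⊢
    exact ⟨Finset.mem_univ _, by rw [Pi.add_apply, hh.2]⟩
  · intro h hh
    rw [Finset.mem_filter] at hh ⊢
    exact ⟨Finset.mem_univ _, by rw [Pi.sub_apply, hh.2, add_sub_cancel_right]⟩
  · intro h _
    exact add_sub_cancel_right h g
  · intro h _
    exact sub_add_cancel h g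
  · intro h _
    rfl

lemma fib_total {A : Type*} [AddCommMonoid A] (m : H → A) (π : Fin 3) :
    fib m π 0 + fib m π 1 + fib m π 2 = ∑ h, m h := by
  have h1 : ∑ i : ZMod 3, fib m π i = ∑ h, m h := by
    unfold fib
    exact Finset.sum_fiberwise _ _ _
  rw [← h1]
  exact (Fin.sum_univ_three (fun i : Fin 3 => fib m π i)).symm

lemma three_dvd_fib_of_zero (m : H → ℤ) {g : H} (hg : g ≠ 0) (hm : ∀ h, m (h + g) = m h)
    (π : Fin 3) (hπ : g π = 0) (i : ZMod 3) : (3 : ℤ) ∣ fib m π i := by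
  obtain ⟨κ, hκ⟩ := Function.ne_iff.1 hg
  have hκ' : g κ ≠ 0 := hκ
  let M : ZMod 3 → ℤ := fun j => fib (fun h => if h π = i then m h else 0) κ j
  have hM : ∀ j, M (j + g κ) = M j := by
    intro j
    show fib _ κ (j + g κ) = fib _ κ j
    rw [← fib_shift]
    congr 1
    funext h
    rw [hm, Pi.add_apply, hπ, add_zero]
  obtain ⟨h1, h2⟩ := const_of_shift M hκ' hM
  have h3 : fib m π i = M 0 + M 1 + M 2 := by
    show _ = fib _ κ 0 + fib _ κ 1 + fib _ κ 2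
    rw [fib_total, fib, Finset.sum_filter]
  rw [h3, h1, h2]
  exact ⟨M 0, by ring⟩

lemma three_dvd_order (m : H → ℤ) {g : H} (hg : g ≠ 0) (hm : ∀ h, m (h + g) = m h)
    (π : Fin 3) : (3 : ℤ) ∣ 2 * fib m π 0 + fib m π 1 := by
  by_cases hπ : g π = 0
  · have h0 := three_dvd_fib_of_zero m hg hm π hπ 0
    have h1 := three_dvd_fib_of_zero m hg hm π hπ 1
    exact dvd_add (h0.mul_left 2) h1
  · have hM : ∀ j, fib m π (j + g π) = fib m π j := by
      intro j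
      rw [← fib_shift]
      simp only [hm]
    obtain ⟨h1, _⟩ := const_of_shift (fib m π) hπ hM
    rw [h1]
    exact ⟨fib m π 0, by ring⟩

end Pool.Agent.helper34.Cay
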