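import Pool.Agent.helper34.Cay.Laurent

/-!
# Reciprocity on the projective line over a valued algebraically closed field
-/

namespace Pool.Agent.helper34.Cay

open scoped Classical
open HahnSeries

section Places

variable {Ω : Type*} [Field Ω]

/-- The image of the coordinate in the local field at a place (`none` is the place at infinity). -/
noncomputable def tt : Option Ω → HahnSeries ℤ Ω
  | some r => HahnSeries.C r + single 2 1
  | none => single (-2) 1

/-- The local embedding of polynomials. -/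
noncomputable def phiP (r : Option Ω) : (Polynomial Ω) →+* HahnSeries ℤ Ω :=
  Polynomial.eval₂RingHom HahnSeries.C (tt r)

lemma phiP_C (r : Option Ω) (c : Ω) : phiP r (Polynomial.C c) = HahnSeries.C c := by
  unfold phiP
  rw [Polynomial.coe_eval₂RingHom, Polynomial.eval₂_C]

lemma phiP_X (r : Option Ω) : phiP r Polynomial.X = tt r := by
  unfold phiP
  rw [Polynomial.coe_eval₂RingHom, Polynomial.eval₂_X]

lemma hC_eq (c : Ω) : (HahnSeries.C c : HahnSeries ℤ Ω) = single 0 c := rfl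

lemma phiP_sub_same (r : Ω) : phiP (some r) (Polynomial.X - Polynomial.C r) = single 2 1 := by
  rw [map_sub, phiP_X, phiP_C]
  unfold tt
  ring

lemma lead_phiP_sub_ne {r a : Ω} (h : r ≠ a) :
    (phiP (some r) (Polynomial.X - Polynomial.C a)).order = 0 ∧ (phiP (some r) (Polynomial.X - Polynomial.C a)).leadingCoeff = r - a := by
  have h1 : ∀ n, (phiP (some r) (Polynomial.X - Polynomial.C a)).coeff n =
      (if n = 0 then r else 0) + (if n = 2 then 1 else 0) - (if n = 0 then a else 0) := by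
    intro n
    rw [map_sub, phiP_X, phiP_C]
    show (HahnSeries.C r + single 2 1 - HahnSeries.C a : HahnSeries ℤ Ω).coeff n = _
    rw [coeff_sub, coeff_add, hC_eq, hC_eq, coeff_single, coeff_single, coeff_single]
    congr
  have h2 : (phiP (some r) (Polynomial.X - Polynomial.C a)).coeff 0 = r - a := by
    rw [h1]; simp
  obtain ⟨h3, h4⟩ := lead_spec (f := phiP (some r) (Polynomial.X - Polynomial.C a)) (n := 0)
    (by rw [h2]; exact sub_ne_zero.2 h) (fun m hm => by
      rw [h1, if_neg hm.ne, if_neg (by omega), if_neg hm.ne]; ring)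
  exact ⟨h3, by rw [h4, h2]⟩

lemma lead_phiP_inf (a : Ω) :
    (phiP none (Polynomial.X - Polynomial.C a)).order = -2 ∧ (phiP none (Polynomial.X - Polynomial.C a)).leadingCoeff = 1 := by
  have h1 : ∀ n, (phiP none (Polynomial.X - Polynomial.C a)).coeff n =
      (if n = -2 then 1 else 0) - (if n = 0 then a else 0) := by
    intro n
    rw [map_sub, phiP_X, phiP_C]
    show (single (-2) 1 - HahnSeries.C a : HahnSeries ℤ Ω).coeff n = _
    rw [coeff_sub, hC_eq, coeff_single, coeff_single]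
    congr
  have h2 : (phiP none (Polynomial.X - Polynomial.C a)).coeff (-2) = 1 := by
    rw [h1]; simp
  obtain ⟨h3, h4⟩ := lead_spec (f := phiP none (Polynomial.X - Polynomial.C a)) (n := -2)
    (by rw [h2]; exact one_ne_zero) (fun m hm => by
      rw [h1, if_neg hm.ne, if_neg (by omega)]; ring)
  exact ⟨h3, by rw [h4, h2]⟩

lemma phiP_sub_ne_zero (r : Option Ω) (a : Ω) : phiP r (Polynomial.X - Polynomial.C a) ≠ 0 := by
  rcases r with _ | r
  · have h := (lead_phiP_inf a).2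
    intro h0
    rw [h0, leadingCoeff_zero] at h
    exact zero_ne_one h
  · by_cases h : r = a
    · subst h
      rw [phiP_sub_same]
      exact single_ne_zero one_ne_zero
    · have h1 := (lead_phiP_sub_ne h).2
      intro h0
      rw [h0, leadingCoeff_zero] at h1
      exact (sub_ne_zero.2 h) h1.symm

lemma phiP_ne_zero [IsAlgClosed Ω] (r : Option Ω) {P : (Polynomial Ω)} (hP : P ≠ 0) : phiP r P ≠ 0 := by
  have h := (IsAlgClosed.splits P).eq_prod_roots
  rw [h, map_mul, phiP_C, map_multiset_prod]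
  refine mul_ne_zero ?_ ?_
  · exact (map_ne_zero_iff _ (RingHom.injective _)).2 (Polynomial.leadingCoeff_ne_zero.2 hP)
  · rw [Multiset.map_map]
    refine Multiset.prod_ne_zero ?_
    intro h0
    obtain ⟨a, _, ha⟩ := Multiset.mem_map.1 h0
    exact phiP_sub_ne_zero r a ha

variable [IsAlgClosed Ω]

/-- The local embedding of rational functions. -/
noncomputable def phi (r : Option Ω) : RatFunc Ω →+* HahnSeries ℤ Ω :=
  RatFunc.liftRingHom (phiP r) (by
    intro P hP
    rw [Submonoid.mem_comap]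
    exact mem_nonZeroDivisors_of_ne_zero (phiP_ne_zero r (nonZeroDivisors.ne_zero hP)))

lemma phi_algebraMap (r : Option Ω) (P : (Polynomial Ω)) : phi r (algebraMap _ _ P) = phiP r P :=
  RatFunc.liftRingHom_algebraMap _ _ _

lemma phi_C (r : Option Ω) (c : Ω) : phi r (RatFunc.C c) = HahnSeries.C c := by
  rw [← RatFunc.algebraMap_C, phi_algebraMap, phiP_C]

lemma phi_X (r : Option Ω) : phi r RatFunc.X = tt r := by
  rw [← RatFunc.algebraMap_X, phi_algebraMap, phiP_X]

lemma phi_sub (r : Option Ω) (a : Ω) : phi r (RatFunc.X - RatFunc.C a) = phiP r (Polynomial.X - Polynomial.C a) := by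
  rw [map_sub, phi_X, phi_C, map_sub, phiP_X, phiP_C]

lemma phi_ne_zero (r : Option Ω) {f : RatFunc Ω} (hf : f ≠ 0) : phi r f ≠ 0 :=
  (map_ne_zero_iff _ (RingHom.injective _)).2 hf

lemma X_sub_C_ne_zero' (a : Ω) : (RatFunc.X - RatFunc.C a : RatFunc Ω) ≠ 0 := by
  intro h
  have := congrArg (phi none) h
  rw [phi_sub, map_zero] at this
  exact phiP_sub_ne_zero none a this

/-- induction principle for nonzero rational functions -/
lemma ratfunc_induction {p : RatFunc Ω → Prop} (hC : ∀ c : Ω, c ≠ 0 → p (RatFunc.C c))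
    (hX : ∀ a : Ω, p (RatFunc.X - RatFunc.C a))
    (hmul : ∀ f g : RatFunc Ω, f ≠ 0 → g ≠ 0 → p f → p g → p (f * g))
    (hdiv : ∀ f g : RatFunc Ω, f ≠ 0 → g ≠ 0 → p f → p g → p (f / g)) :
    ∀ f : RatFunc Ω, f ≠ 0 → p f := by
  have hpoly : ∀ P : (Polynomial Ω), P ≠ 0 → p (algebraMap _ _ P) := by
    intro P hP
    have h := (IsAlgClosed.splits P).eq_prod_roots
    have hprod : ∀ s : Multiset Ω, (algebraMap (Polynomial Ω) (RatFunc Ω) (s.map fun a => Polynomial.X - Polynomial.C a).prod) ≠ 0 ∧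
        p (algebraMap (Polynomial Ω) (RatFunc Ω) (s.map fun a => Polynomial.X - Polynomial.C a).prod) := by
      intro s
      induction s using Multiset.induction_on with
      | empty =>
        rw [Multiset.map_zero, Multiset.prod_zero, map_one]
        exact ⟨one_ne_zero, by simpa using hC 1 one_ne_zero⟩
      | cons a s ih =>
        rw [Multiset.map_cons, Multiset.prod_cons, map_mul]
        have e : algebraMap (Polynomial Ω) (RatFunc Ω) (Polynomial.X - Polynomial.C a) = RatFunc.X - RatFunc.C a := by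
          rw [map_sub, RatFunc.algebraMap_X, RatFunc.algebraMap_C]
        rw [e]
        exact ⟨mul_ne_zero (X_sub_C_ne_zero' a) ih.1,
          hmul _ _ (X_sub_C_ne_zero' a) ih.1 (hX a) ih.2⟩
    rw [h, map_mul, RatFunc.algebraMap_C]
    have hlc : P.leadingCoeff ≠ 0 := Polynomial.leadingCoeff_ne_zero.2 hP
    have hlc' : (RatFunc.C P.leadingCoeff : RatFunc Ω) ≠ 0 :=
      (map_ne_zero_iff _ (RingHom.injective _)).2 hlc
    exact hmul _ _ hlc' (hprod _).1 (hC _ hlc) (hprod _).2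
  intro f hf
  rw [← RatFunc.num_div_denom f]
  have h1 : f.num ≠ 0 := RatFunc.num_ne_zero hf
  have h2 : f.denom ≠ 0 := RatFunc.denom_ne_zero f
  have h1' : algebraMap (Polynomial Ω) (RatFunc Ω) f.num ≠ 0 :=
    (map_ne_zero_iff _ (IsFractionRing.injective _ _)).2 h1
  have h2' : algebraMap (Polynomial Ω) (RatFunc Ω) f.denom ≠ 0 :=
    (map_ne_zero_iff _ (IsFractionRing.injective _ _)).2 h2
  exact hdiv _ _ h1' h2' (hpoly _ h1) (hpoly _ h2)

end Places

namespace TameData

variable {k' Ω D : Type*} [Field k'] [NormedField Ω] [Algebra k' Ω] [Group D]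
  [MulSemiringAction D Ω] (T : TameData k' Ω D)

include T

/-- The alternating form on the value group. -/
noncomputable def Th (x y : ℝ) : ℚ := T.pa x * T.pc y - T.pc x * T.pa y

lemma Th_add_left (x y z : ℝ) : T.Th (x + y) z = T.Th x z + T.Th y z := by
  unfold Th; rw [map_add, map_add]; ring

lemma Th_add_right (x y z : ℝ) : T.Th x (y + z) = T.Th x y + T.Th x z := by
  unfold Th; rw [map_add, map_add]; ring

lemma Th_self (x : ℝ) : T.Th x x = 0 := by unfold Th; ring

lemma Th_symm (x y : ℝ) : T.Th x y = - T.Th y x := by unfold Th; ring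

lemma Th_zero_left (y : ℝ) : T.Th 0 y = 0 := by unfold Th; rw [map_zero, map_zero]; ring

lemma Th_zero_right (y : ℝ) : T.Th y 0 = 0 := by unfold Th; rw [map_zero, map_zero]; ring

lemma th_eq (x y : Ω) : T.th x y = T.Th (Real.log ‖x‖) (Real.log ‖y‖) := rfl

/-- the form at a nonzero point `z` -/
noncomputable def altAt (z : Ω) : Alt (ℤ × ℝ) where
  B x y := x.1 * T.Th y.2 (Real.log ‖z‖) - y.1 * T.Th x.2 (Real.log ‖z‖)
  add_left x y w := by
    simp only [Prod.fst_add, Prod.snd_add, T.Th_add_left]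
    push_cast
    ring
  add_right x y w := by
    simp only [Prod.fst_add, Prod.snd_add, T.Th_add_left]
    push_cast
    ring
  self x := by ring

/-- the form at `0` and `∞` -/
noncomputable def altZ : Alt (ℤ × ℝ) where
  B x y := 2 * T.Th x.2 y.2
  add_left x y w := by
    simp only [Prod.snd_add, T.Th_add_left]
    ring
  add_right x y w := by
    simp only [Prod.snd_add, T.Th_add_right]
    ring
  self x := by rw [T.Th_self]; ring

variable [IsAlgClosed Ω]

/-- The contribution of the point `r ≠ 0`. -/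
noncomputable def contr (f g : RatFunc Ω) (r : Ω) : ℚ :=
  (T.altAt r).B (V (phi (some r) f)) (V (phi (some r) g))

/-- The contribution of `0` and `∞`. -/
noncomputable def contrZ (f g : RatFunc Ω) : ℚ :=
  T.altZ.B (V (phi (some 0) f)) (V (phi (some 0) g)) -
    T.altZ.B (V (phi none f)) (V (phi none g))

/-- The reciprocity law for a pair of functions. -/
def Rec (f g : RatFunc Ω) : Prop :=
  ∃ S₀ : Finset Ω, ∀ S : Finset Ω, (∀ r ∈ S, r ≠ 0) → (∀ r ∈ S₀, r ≠ 0 → r ∈ S) →
    ∑ r ∈ S, T.contr f g r + T.contrZ f g = 0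

omit T in
omit [Field k'] [Algebra k' Ω] [Group D] [MulSemiringAction D Ω] in
lemma V_phi_mul (r : Option Ω) {f g : RatFunc Ω} (hf : f ≠ 0) (hg : g ≠ 0) :
    V (phi r (f * g)) = V (phi r f) + V (phi r g) := by
  rw [map_mul, V_mul (phi_ne_zero r hf) (phi_ne_zero r hg)]

omit T in
omit [Field k'] [Algebra k' Ω] [Group D] [MulSemiringAction D Ω] in
lemma V_phi_div (r : Option Ω) {f g : RatFunc Ω} (hf : f ≠ 0) (hg : g ≠ 0) :
    V (phi r (f / g)) = V (phi r f) - V (phi r g) := by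
  rw [map_div₀, V_div (phi_ne_zero r hf) (phi_ne_zero r hg)]

lemma Rec.symm {f g : RatFunc Ω} (h : T.Rec f g) : T.Rec g f := by
  obtain ⟨S₀, h⟩ := h
  refine ⟨S₀, fun S h1 h2 => ?_⟩
  have h3 := h S h1 h2
  have h4 : ∀ r, T.contr g f r = - T.contr f g r := fun r => (T.altAt r).symm _ _
  have h5 : T.contrZ g f = - T.contrZ f g := by
    unfold contrZ
    rw [T.altZ.symm, T.altZ.symm (V (phi none g))]
    ring
  simp only [h4, h5, Finset.sum_neg_distrib]
  linarith

lemma Rec.mul {f₁ f₂ g : RatFunc Ω} (h1 : f₁ ≠ 0) (h2 : f₂ ≠ 0) (hr1 : T.Rec f₁ g)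
    (hr2 : T.Rec f₂ g) : T.Rec (f₁ * f₂) g := by
  obtain ⟨S₁, hS₁⟩ := hr1
  obtain ⟨S₂, hS₂⟩ := hr2
  refine ⟨S₁ ∪ S₂, fun S h3 h4 => ?_⟩
  have e1 := hS₁ S h3 fun r hr => h4 r (Finset.mem_union_left _ hr)
  have e2 := hS₂ S h3 fun r hr => h4 r (Finset.mem_union_right _ hr)
  have h5 : ∀ r, T.contr (f₁ * f₂) g r = T.contr f₁ g r + T.contr f₂ g r := fun r => by
    unfold contr
    rw [V_phi_mul _ h1 h2, (T.altAt r).add_left]
  have h6 : T.contrZ (f₁ * f₂) g = T.contrZ f₁ g + T.contrZ f₂ g := by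
    unfold contrZ
    rw [V_phi_mul _ h1 h2, V_phi_mul _ h1 h2, T.altZ.add_left, T.altZ.add_left]
    ring
  simp only [h5, h6, Finset.sum_add_distrib]
  linarith

lemma Rec.div {f₁ f₂ g : RatFunc Ω} (h1 : f₁ ≠ 0) (h2 : f₂ ≠ 0) (hr1 : T.Rec f₁ g)
    (hr2 : T.Rec f₂ g) : T.Rec (f₁ / f₂) g := by
  obtain ⟨S₁, hS₁⟩ := hr1
  obtain ⟨S₂, hS₂⟩ := hr2
  refine ⟨S₁ ∪ S₂, fun S h3 h4 => ?_⟩
  have e1 := hS₁ S h3 fun r hr => h4 r (Finset.mem_union_left _ hr)
  have e2 := hS₂ S h3 fun r hr => h4 r (Finset.mem_union_right _ hr)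
  have h5 : ∀ r, T.contr (f₁ / f₂) g r = T.contr f₁ g r - T.contr f₂ g r := fun r => by
    unfold contr
    rw [V_phi_div _ h1 h2, (T.altAt r).sub_left]
  have h6 : T.contrZ (f₁ / f₂) g = T.contrZ f₁ g - T.contrZ f₂ g := by
    unfold contrZ
    rw [V_phi_div _ h1 h2, V_phi_div _ h1 h2, T.altZ.sub_left, T.altZ.sub_left]
    ring
  simp only [h5, h6, Finset.sum_sub_distrib]
  linarith

omit T in
lemma V_C (r : Option Ω) {c : Ω} (hc : c ≠ 0) : V (phi r (RatFunc.C c)) = (0, Real.log ‖c‖) := by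
  rw [phi_C, hC_eq]
  unfold V
  rw [order_single hc, leadingCoeff_of_single]

omit T in
lemma V_sub_same (r : Ω) : V (phi (some r) (RatFunc.X - RatFunc.C r)) = (2, 0) := by
  rw [phi_sub, phiP_sub_same]
  unfold V
  rw [order_single one_ne_zero, leadingCoeff_of_single, norm_one, Real.log_one]

omit T in
lemma V_sub_ne {r a : Ω} (h : r ≠ a) :
    V (phi (some r) (RatFunc.X - RatFunc.C a)) = (0, Real.log ‖r - a‖) := by
  rw [phi_sub]
  unfold V
  rw [(lead_phiP_sub_ne h).1, (lead_phiP_sub_ne h).2]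

omit T in
lemma V_sub_inf (a : Ω) : V (phi none (RatFunc.X - RatFunc.C a)) = (-2, 0) := by
  rw [phi_sub]
  unfold V
  rw [(lead_phiP_inf a).1, (lead_phiP_inf a).2, norm_one, Real.log_one]

lemma rec_C_C {c d : Ω} (hc : c ≠ 0) (hd : d ≠ 0) : T.Rec (RatFunc.C c) (RatFunc.C d) := by
  refine ⟨∅, fun S _ _ => ?_⟩
  have h1 : ∀ r, T.contr (RatFunc.C c) (RatFunc.C d) r = 0 := fun r => by
    unfold contr
    rw [V_C _ hc, V_C _ hd]
    show ((0 : ℤ) : ℚ) * _ - ((0 : ℤ) : ℚ) * _ = 0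
    push_cast
    ring
  have h2 : T.contrZ (RatFunc.C c) (RatFunc.C d) = 0 := by
    unfold contrZ
    rw [V_C _ hc, V_C _ hd, V_C _ hc, V_C _ hd, sub_self]
  simp [h1, h2]

lemma rec_X_C (a : Ω) {c : Ω} (hc : c ≠ 0) : T.Rec (RatFunc.X - RatFunc.C a) (RatFunc.C c) := by
  refine ⟨{a}, fun S hS hS' => ?_⟩
  have h0 : ∀ r ∈ S, r ≠ a → T.contr (RatFunc.X - RatFunc.C a) (RatFunc.C c) r = 0 := by
    intro r _ hr
    unfold contr
    rw [V_sub_ne hr, V_C _ hc]
    show ((0 : ℤ) : ℚ) * _ - ((0 : ℤ) : ℚ) * _ = 0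
    push_cast
    ring
  by_cases ha : a = 0
  · have h1 : ∑ r ∈ S, T.contr (RatFunc.X - RatFunc.C a) (RatFunc.C c) r = 0 :=
      Finset.sum_eq_zero fun r hr => h0 r hr (ha ▸ hS r hr)
    rw [h1]
    subst ha
    unfold contrZ
    rw [V_sub_same, V_C _ hc, V_sub_inf, V_C _ hc]
    show 0 + (2 * T.Th 0 _ - 2 * T.Th 0 _) = 0
    rw [T.Th_zero_left]; ring
  · have h1 : ∑ r ∈ S, T.contr (RatFunc.X - RatFunc.C a) (RatFunc.C c) r =
        T.contr (RatFunc.X - RatFunc.C a) (RatFunc.C c) a :=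
      Finset.sum_eq_single_of_mem a (hS' a (Finset.mem_singleton_self a) ha) h0
    rw [h1]
    unfold contr contrZ
    rw [V_sub_same, V_C _ hc, V_sub_inf, V_C _ hc, V_C _ hc, V_sub_ne (Ne.symm ha)]
    show ((2 : ℤ) : ℚ) * T.Th (Real.log ‖c‖) (Real.log ‖a‖) - ((0 : ℤ) : ℚ) * _ +
      (2 * T.Th (Real.log ‖0 - a‖) (Real.log ‖c‖) - 2 * T.Th 0 (Real.log ‖c‖)) = 0
    rw [T.Th_zero_left (Real.log ‖c‖), zero_sub, norm_neg, T.Th_symm (Real.log ‖c‖)]
    push_cast
    ring

lemma rec_X_X (a c : Ω) : T.Rec (RatFunc.X - RatFunc.C a) (RatFunc.X - RatFunc.C c) := by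
  by_cases hac : a = c
  · subst hac
    refine ⟨∅, fun S _ _ => ?_⟩
    have h1 : ∀ r, T.contr (RatFunc.X - RatFunc.C a) (RatFunc.X - RatFunc.C a) r = 0 :=
      fun r => (T.altAt r).self _
    have h2 : T.contrZ (RatFunc.X - RatFunc.C a) (RatFunc.X - RatFunc.C a) = 0 := by
      unfold contrZ
      rw [T.altZ.self, T.altZ.self, sub_self]
    simp [h1, h2]
  refine ⟨{a, c}, fun S hS hS' => ?_⟩
  have h0 : ∀ r, r ≠ a → r ≠ c →
      T.contr (RatFunc.X - RatFunc.C a) (RatFunc.X - RatFunc.C c) r = 0 := by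
    intro r hr hr'
    unfold contr
    rw [V_sub_ne hr, V_sub_ne hr']
    show ((0 : ℤ) : ℚ) * _ - ((0 : ℤ) : ℚ) * _ = 0
    push_cast
    ring
  have hinf : T.altZ.B (V (phi none (RatFunc.X - RatFunc.C a)))
      (V (phi none (RatFunc.X - RatFunc.C c))) = 0 := by
    rw [V_sub_inf, V_sub_inf]
    exact T.altZ.self _
  have hcontr_a : T.contr (RatFunc.X - RatFunc.C a) (RatFunc.X - RatFunc.C c) a =
      2 * T.Th (Real.log ‖a - c‖) (Real.log ‖a‖) := by
    unfold contr
    rw [V_sub_same, V_sub_ne hac]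
    show ((2 : ℤ) : ℚ) * T.Th (Real.log ‖a - c‖) (Real.log ‖a‖) - ((0 : ℤ) : ℚ) * _ = _
    push_cast
    ring
  have hcontr_c : T.contr (RatFunc.X - RatFunc.C a) (RatFunc.X - RatFunc.C c) c =
      - (2 * T.Th (Real.log ‖a - c‖) (Real.log ‖c‖)) := by
    unfold contr
    rw [V_sub_same, V_sub_ne (Ne.symm hac)]
    show ((0 : ℤ) : ℚ) * _ - ((2 : ℤ) : ℚ) * T.Th (Real.log ‖c - a‖) (Real.log ‖c‖) = _
    rw [norm_sub_rev]
    push_cast
    ring
  by_cases ha : a = 0
  · have hc0 : c ≠ 0 := fun h => hac (ha.trans h.symm)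
    have h1 : ∑ r ∈ S, T.contr (RatFunc.X - RatFunc.C a) (RatFunc.X - RatFunc.C c) r =
        T.contr (RatFunc.X - RatFunc.C a) (RatFunc.X - RatFunc.C c) c :=
      Finset.sum_eq_single_of_mem c (hS' c (by simp) hc0)
        fun r hr hrc => h0 r (ha ▸ hS r hr) hrc
    rw [h1, hcontr_c]
    unfold contrZ
    rw [hinf]
    subst ha
    rw [V_sub_same]
    show _ + (2 * T.Th 0 _ - 0) = 0
    rw [T.Th_zero_left, zero_sub, norm_neg, T.Th_self]
    ring
  · by_cases hc0 : c = 0
    · have h1 : ∑ r ∈ S, T.contr (RatFunc.X - RatFunc.C a) (RatFunc.X - RatFunc.C c) r =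
          T.contr (RatFunc.X - RatFunc.C a) (RatFunc.X - RatFunc.C c) a :=
        Finset.sum_eq_single_of_mem a (hS' a (by simp) ha)
          fun r hr hra => h0 r hra (hc0 ▸ hS r hr)
      rw [h1, hcontr_a]
      unfold contrZ
      rw [hinf]
      subst hc0
      rw [V_sub_same]
      show _ + (2 * T.Th _ 0 - 0) = 0
      rw [T.Th_zero_right, sub_zero, T.Th_self]
      ring
    · have h1 : ∑ r ∈ S, T.contr (RatFunc.X - RatFunc.C a) (RatFunc.X - RatFunc.C c) r =
          ∑ r ∈ ({a, c} : Finset Ω), T.contr (RatFunc.X - RatFunc.C a) (RatFunc.X - RatFunc.C c) r := by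
        symm
        refine Finset.sum_subset ?_ ?_
        · intro r hr
          rw [Finset.mem_insert, Finset.mem_singleton] at hr
          rcases hr with rfl | rfl
          · exact hS' _ (by simp) ha
          · exact hS' _ (by simp) hc0
        · intro r _ hr
          rw [Finset.mem_insert, Finset.mem_singleton, not_or] at hr
          exact h0 r hr.1 hr.2
      rw [h1, Finset.sum_pair hac, hcontr_a, hcontr_c]
      unfold contrZ
      rw [hinf, V_sub_ne (Ne.symm ha), V_sub_ne (Ne.symm hc0)]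
      show _ + (2 * T.Th (Real.log ‖0 - a‖) (Real.log ‖0 - c‖) - 0) = 0
      rw [zero_sub, zero_sub, norm_neg, norm_neg]
      rcases T.norm_trichotomy (rfl : a - c = a - c) with h2 | h2 | h2
      · rw [h2, T.Th_self]; ring
      · rw [h2, T.Th_self]; ring
      · rw [h2, T.Th_self, T.Th_symm (Real.log ‖c‖)]; ring

/-- The reciprocity law. -/
theorem rec_all : ∀ f : RatFunc Ω, f ≠ 0 → ∀ g : RatFunc Ω, g ≠ 0 → T.Rec f g := by
  refine ratfunc_induction ?_ ?_ ?_ ?_
  · intro c hc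
    refine ratfunc_induction ?_ ?_ ?_ ?_
    · exact fun d hd => T.rec_C_C hc hd
    · exact fun a => Rec.symm T (T.rec_X_C a hc)
    · exact fun f g hf hg h1 h2 => Rec.symm T (Rec.mul T hf hg (Rec.symm T h1) (Rec.symm T h2))
    · exact fun f g hf hg h1 h2 => Rec.symm T (Rec.div T hf hg (Rec.symm T h1) (Rec.symm T h2))
  · intro a
    refine ratfunc_induction ?_ ?_ ?_ ?_
    · exact fun d hd => T.rec_X_C a hd
    · exact fun c => T.rec_X_X a c
    · exact fun f g hf hg h1 h2 => Rec.symm T (Rec.mul T hf hg (Rec.symm T h1) (Rec.symm T h2))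
    · exact fun f g hf hg h1 h2 => Rec.symm T (Rec.div T hf hg (Rec.symm T h1) (Rec.symm T h2))
  · exact fun f₁ f₂ h1 h2 h3 h4 g hg => Rec.mul T h1 h2 (h3 g hg) (h4 g hg)
  · exact fun f₁ f₂ h1 h2 h3 h4 g hg => Rec.div T h1 h2 (h3 g hg) (h4 g hg)

end TameData

end Pool.Agent.helper34.Cay
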