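import Pool.Agent.helper34.Cay.LineThm
import Pool.Agent.helper34.Cay.Family
import Pool.Agent.helper34.Cay.Eps

/-!
# Regular elements of the local fields
-/

namespace Pool.Agent.helper34.Cay

open scoped Classical
open HahnSeries

variable {Ω : Type*} [Field Ω]

/-- `f` is a power series with constant coefficient `a`. -/
def Reg (f : HahnSeries ℤ Ω) (a : Ω) : Prop :=
  ∃ p : PowerSeries Ω, HahnSeries.ofPowerSeries ℤ Ω p = f ∧ PowerSeries.constantCoeff p = a

namespace Reg

variable {f g : HahnSeries ℤ Ω} {a b : Ω}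

lemma add (hf : Reg f a) (hg : Reg g b) : Reg (f + g) (a + b) := by
  obtain ⟨p, rfl, rfl⟩ := hf
  obtain ⟨q, rfl, rfl⟩ := hg
  exact ⟨p + q, by rw [map_add], by rw [map_add]⟩

lemma mul (hf : Reg f a) (hg : Reg g b) : Reg (f * g) (a * b) := by
  obtain ⟨p, rfl, rfl⟩ := hf
  obtain ⟨q, rfl, rfl⟩ := hg
  exact ⟨p * q, by rw [map_mul], by rw [map_mul]⟩

lemma neg (hf : Reg f a) : Reg (-f) (-a) := by
  obtain ⟨p, rfl, rfl⟩ := hf
  exact ⟨-p, by rw [map_neg], by rw [map_neg]⟩

lemma sub (hf : Reg f a) (hg : Reg g b) : Reg (f - g) (a - b) := by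
  rw [sub_eq_add_neg, sub_eq_add_neg]
  exact hf.add hg.neg

lemma zero : Reg (0 : HahnSeries ℤ Ω) 0 := ⟨0, by rw [map_zero], by rw [map_zero]⟩

lemma one : Reg (1 : HahnSeries ℤ Ω) 1 := ⟨1, by rw [map_one], by rw [map_one]⟩

lemma const (c : Ω) : Reg (HahnSeries.C c) c :=
  ⟨PowerSeries.C c, HahnSeries.ofPowerSeries_C c, PowerSeries.constantCoeff_C c⟩

lemma sum {ι : Type*} (s : Finset ι) {f : ι → HahnSeries ℤ Ω} {a : ι → Ω}
    (h : ∀ i ∈ s, Reg (f i) (a i)) : Reg (∑ i ∈ s, f i) (∑ i ∈ s, a i) := by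
  induction s using Finset.induction_on with
  | empty => exact zero
  | insert i s hi ih =>
    rw [Finset.sum_insert hi, Finset.sum_insert hi]
    exact (h i (Finset.mem_insert_self _ _)).add (ih fun j hj => h j (Finset.mem_insert_of_mem hj))

lemma inv (hf : Reg f a) (ha : a ≠ 0) : Reg f⁻¹ a⁻¹ := by
  obtain ⟨p, rfl, rfl⟩ := hf
  refine ⟨p⁻¹, ?_, PowerSeries.constantCoeff_inv p⟩
  apply eq_inv_of_mul_eq_one_left
  rw [← map_mul, PowerSeries.inv_mul_cancel p ha, map_one]

lemma coeff_neg' (hf : Reg f a) {m : ℤ} (hm : m < 0) : f.coeff m = 0 := by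
  obtain ⟨p, rfl, rfl⟩ := hf
  rw [HahnSeries.ofPowerSeries_apply]
  apply HahnSeries.embDomain_of_notMem_range
  rintro ⟨n, hn⟩
  have : (n : ℤ) = m := hn
  omega

lemma coeff_zero' (hf : Reg f a) : f.coeff 0 = a := by
  obtain ⟨p, rfl, rfl⟩ := hf
  have := HahnSeries.ofPowerSeries_apply_coeff (Γ := ℤ) p 0
  rw [Nat.cast_zero] at this
  rw [this, PowerSeries.coeff_zero_eq_constantCoeff]

lemma of_coeff (h : ∀ m < 0, f.coeff m = 0) (h0 : f.coeff 0 = a) : Reg f a := by
  refine ⟨PowerSeries.mk fun n => f.coeff n, ?_, ?_⟩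
  · ext m
    rcases lt_or_ge m 0 with hm | hm
    · rw [h m hm]
      exact coeff_neg' (f := ofPowerSeries ℤ Ω _) ⟨_, rfl, rfl⟩ hm
    · obtain ⟨n, rfl⟩ := Int.eq_ofNat_of_zero_le hm
      rw [HahnSeries.ofPowerSeries_apply_coeff, PowerSeries.coeff_mk]
  · rw [← PowerSeries.coeff_zero_eq_constantCoeff_apply, PowerSeries.coeff_mk]
    exact h0

lemma lead (hf : Reg f a) (ha : a ≠ 0) : f.order = 0 ∧ f.leadingCoeff = a := by
  obtain ⟨h1, h2⟩ := lead_spec (f := f) (n := 0) (by rw [hf.coeff_zero']; exact ha)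
    (fun m hm => hf.coeff_neg' hm)
  exact ⟨h1, by rw [h2, hf.coeff_zero']⟩

lemma unique (hf : Reg f a) (hg : Reg f b) : a = b := by
  rw [← hf.coeff_zero', ← hg.coeff_zero']

lemma ne_zero (hf : Reg f a) (ha : a ≠ 0) : f ≠ 0 := by
  rintro rfl
  exact ha (hf.unique zero)

end Reg

lemma reg_tau : Reg (single 2 (1 : Ω)) 0 := by
  apply Reg.of_coeff
  · intro m hm
    exact coeff_single_of_ne (by omega)
  · exact coeff_single_of_ne (by omega)

section Coord

variable [IsAlgClosed Ω]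

/-- the first coordinate function on the line -/
noncomputable def t0 (Ω : Type*) [Field Ω] : RatFunc Ω := 1 / (1 + RatFunc.X)

/-- the second coordinate function on the line -/
noncomputable def t1 (Ω : Type*) [Field Ω] : RatFunc Ω := RatFunc.X / (1 + RatFunc.X)

lemma reg_zero_t0 : Reg (phi (some 0) (t0 Ω)) 1 := by
  unfold t0
  rw [map_div₀, map_one, map_add, map_one, phi_X]
  have h1 : Reg (1 + tt (some (0 : Ω))) (1 + 0) := by
    refine Reg.one.add ?_
    show Reg (HahnSeries.C 0 + single 2 1) 0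
    rw [map_zero, zero_add]
    exact reg_tau
  rw [add_zero] at h1
  have h2 := h1.inv one_ne_zero
  rw [inv_one] at h2
  rw [one_div]
  exact h2

lemma reg_zero_t1 : Reg (phi (some 0) (t1 Ω)) 0 := by
  unfold t1
  rw [map_div₀, map_add, map_one, phi_X]
  have h0 : Reg (tt (some (0 : Ω))) 0 := by
    show Reg (HahnSeries.C 0 + single 2 1) 0
    rw [map_zero, zero_add]
    exact reg_tau
  have h1 : Reg (1 + tt (some (0 : Ω))) (1 + 0) := Reg.one.add h0
  rw [add_zero] at h1
  have h2 := h1.inv one_ne_zero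
  rw [div_eq_mul_inv]
  have h3 := h0.mul h2
  rw [zero_mul] at h3
  exact h3

omit [IsAlgClosed Ω] in
lemma tt_none_inv : (tt (none : Option Ω)) * single 2 1 = 1 := by
  show single (-2) 1 * single 2 1 = 1
  rw [single_mul_single]
  norm_num

lemma reg_inf_t0 : Reg (phi none (t0 Ω)) 0 := by
  unfold t0
  rw [map_div₀, map_one, map_add, map_one, phi_X]
  have h1 : Reg (single 2 1 + 1 : HahnSeries ℤ Ω) (0 + 1) := reg_tau.add Reg.one
  rw [zero_add] at h1
  have h2 : (1 : HahnSeries ℤ Ω) / (1 + tt none) = single 2 1 * (single 2 1 + 1)⁻¹ := by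
    have h3 := tt_none_inv (Ω := Ω)
    have h4 : (single 2 (1 : Ω) + 1 : HahnSeries ℤ Ω) ≠ 0 := h1.ne_zero one_ne_zero
    have h5 : (single 2 (1 : Ω) : HahnSeries ℤ Ω) ≠ 0 := single_ne_zero one_ne_zero
    have h6 : (1 + tt (none : Option Ω)) * single 2 1 = single 2 1 + 1 := by
      rw [add_mul, h3, one_mul]
    have h7 : (1 + tt (none : Option Ω)) ≠ 0 := by
      intro h
      rw [h, zero_mul] at h6
      exact h4 h6.symm
    rw [← h6, mul_inv]
    field_simp
  rw [h2]
  have h3 := reg_tau.mul (h1.inv one_ne_zero)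
  rw [zero_mul] at h3
  exact h3

lemma reg_inf_t1 : Reg (phi none (t1 Ω)) 1 := by
  have h1 : t1 Ω = 1 - t0 Ω := by
    unfold t0 t1
    have : (1 + RatFunc.X : RatFunc Ω) ≠ 0 := by
      intro h
      have h2 := congrArg (phi (some 0)) h
      rw [map_add, map_one, phi_X, map_zero] at h2
      have h3 : Reg (1 + tt (some (0 : Ω))) (1 + 0) := by
        refine Reg.one.add ?_
        show Reg (HahnSeries.C 0 + single 2 1) 0
        rw [map_zero, zero_add]
        exact reg_tau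
      rw [h2] at h3
      have := h3.unique Reg.zero
      simp at this
    field_simp
    ring
  rw [h1, map_sub, map_one]
  have h2 := (Reg.one (Ω := Ω)).sub reg_inf_t0
  rw [sub_zero] at h2
  exact h2

omit [IsAlgClosed Ω] in
lemma hat_t0 (σ : Ω ≃+* Ω) : hat σ (t0 Ω) = t0 Ω := by
  unfold t0
  rw [map_div₀, map_one, map_add, map_one, hat_X]

omit [IsAlgClosed Ω] in
lemma hat_t1 (σ : Ω ≃+* Ω) : hat σ (t1 Ω) = t1 Ω := by
  unfold t1
  rw [map_div₀, map_add, map_one, hat_X]

end Coord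

end Pool.Agent.helper34.Cay
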