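import Pool.Agent.helper34.Cay.Orbit

/-!
# Square roots in the local fields
-/

namespace Pool.Agent.helper34.Cay

open scoped Classical
open HahnSeries

variable {Ω : Type*} [Field Ω]

lemma sqrt_one_add [CharZero Ω] (u : HahnSeries ℤ Ω) (hu : 0 < u.orderTop) :
    ∃ g : HahnSeries ℤ Ω, g ^ 2 = 1 + u := by
  refine ⟨PowerSeries.heval u (PowerSeries.binomialSeries Ω (1 / 2 : ℚ)), ?_⟩
  rw [pow_two, ← map_mul, ← PowerSeries.binomialSeries_add]
  have h1 : (1 / 2 : ℚ) + 1 / 2 = ((1 : ℕ) : ℚ) := by norm_num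
  rw [h1, PowerSeries.binomialSeries_nat, pow_one, map_add, map_one, PowerSeries.heval_X u hu]

lemma exists_sqrt [CharZero Ω] [IsAlgClosed Ω] {f : HahnSeries ℤ Ω} (hf : f ≠ 0)
    (he : Even f.order) : ∃ g : HahnSeries ℤ Ω, g ^ 2 = f := by
  obtain ⟨m, hm⟩ := he
  have hlc : f.leadingCoeff ≠ 0 := leadingCoeff_ne_zero.2 hf
  obtain ⟨c, hc⟩ := IsAlgClosed.exists_pow_nat_eq f.leadingCoeff (n := 2) (by norm_num)
  have hc0 : c ≠ 0 := by
    rintro rfl
    apply hlc
    rw [← hc]; ring
  obtain ⟨s, hs⟩ : ∃ s : HahnSeries ℤ Ω, s = single m c := ⟨_, rfl⟩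
  have hs2 : s ^ 2 = single f.order f.leadingCoeff := by
    rw [hs, pow_two, single_mul_single, hm, ← hc, pow_two]
  have hs0 : s ^ 2 ≠ 0 := by
    rw [hs2]
    exact single_ne_zero hlc
  obtain ⟨u, hu⟩ : ∃ u : HahnSeries ℤ Ω, u = f / s ^ 2 - 1 := ⟨_, rfl⟩
  have hu0 : 0 < u.orderTop := by
    have hus : u = (f - s ^ 2) / s ^ 2 := by
      rw [hu, sub_div, div_self hs0]
    by_cases h0 : f - s ^ 2 = 0
    · rw [hus, h0, zero_div, orderTop_zero]
      exact WithTop.coe_lt_top _
    · have hune : u ≠ 0 := by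
        rw [hus]; exact div_ne_zero h0 hs0
      rw [← order_eq_orderTop_of_ne_zero hune]
      have h1 : u.order = (f - s ^ 2).order - f.order := by
        rw [hus, order_div' h0 hs0, hs2, order_single hlc]
      have h2 : f.order < (f - s ^ 2).order := by
        by_contra hcon
        push Not at hcon
        have h3 : (f - s ^ 2).coeff (f - s ^ 2).order = 0 := by
          rw [coeff_sub]
          conv_lhs => rw [hs2]
          rw [coeff_single]
          split_ifs with h4
          · rw [h4, leadingCoeff_eq, sub_self]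
          · rw [sub_zero]
            rw [hs2] at hcon
            exact coeff_eq_zero_of_lt_order (lt_of_le_of_ne hcon h4)
        exact (coeff_order_eq_zero.not.2 h0) h3
      rw [h1]
      exact_mod_cast (by linarith : (0 : ℤ) < (f - s ^ 2).order - f.order)
  obtain ⟨g, hg⟩ := sqrt_one_add u hu0
  refine ⟨g * s, ?_⟩
  rw [mul_pow, hg, hu, add_sub_cancel, div_mul_cancel₀ _ hs0]

variable [IsAlgClosed Ω]

lemma phi_even (r : Option Ω) : ∀ f : RatFunc Ω, f ≠ 0 → Even (phi r f).order := by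
  refine ratfunc_induction ?_ ?_ ?_ ?_
  · intro c hc
    rw [phi_C, hC_eq, order_single hc]
    exact ⟨0, rfl⟩
  · intro a
    rw [phi_sub]
    rcases r with _ | r
    · rw [(lead_phiP_inf a).1]
      exact ⟨-1, rfl⟩
    · by_cases h : r = a
      · subst h
        rw [phiP_sub_same, order_single one_ne_zero]
        exact ⟨1, rfl⟩
      · rw [(lead_phiP_sub_ne h).1]
        exact ⟨0, rfl⟩
  · intro f g hf hg h1 h2
    rw [map_mul, order_mul (phi_ne_zero r hf) (phi_ne_zero r hg)]
    exact h1.add h2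
  · intro f g hf hg h1 h2
    rw [map_div₀, order_div' (phi_ne_zero r hf) (phi_ne_zero r hg)]
    exact h1.sub h2

lemma exists_sqrt_phi [CharZero Ω] (r : Option Ω) {f : RatFunc Ω} (hf : f ≠ 0) :
    ∃ g : HahnSeries ℤ Ω, g ^ 2 = phi r f :=
  exists_sqrt (phi_ne_zero r hf) (phi_even r f hf)

end Pool.Agent.helper34.Cay
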