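import Pool.Agent.helper34.Cay.LineFin
import Pool.Agent.helper34.Cay.Field2

/-!
# The relation between the invariants of two points
-/

namespace Pool.Agent.helper34.Cay

open scoped Classical
open HahnSeries TameData

variable {k k' Ω D n K : Type*} [Field k] [IsAlgClosed k] [CharZero k] [Field k'] [Algebra k k']
  [IsAlgClosed k'] [CharZero k']
  [NormedField Ω] [IsAlgClosed Ω] [CharZero Ω] [Algebra k' Ω] [Algebra k Ω]
  [IsScalarTower k k' Ω] [Group D]
  [MulSemiringAction D Ω] [Fintype n] [DecidableEq n] [Field K] [Algebra k K]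

section

variable {T : TameData k' Ω D} {fr : Frame k T n} {e : n ≃ H} {X F : Matrix n n K}
  {P P' : Pt fr e X} (qd : QD k F) (lh : LineHom P P' F)

/-- the distinguished square root at an end -/
lemma exists_sqrt_end {r : Option Ω} {ψ : K →ₐ[k] Ω}
    (hr : ∀ x : KY k F, Reg (phi r (lh.Φ x)) (ψ x)) (hinv : ∀ (σ : D) (κ : K), σ • ψ κ = ψ κ)
    (hX : IsFunctionFieldSL k X) (hfix : ∀ σ : D, r.map (act Ω σ) = r) :
    ∃ δr : HahnSeries ℤ Ω, δr ^ 2 = phi r (lh.Δ qd) ∧ Reg δr (ψ qd.δ) ∧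
      ∀ σ : D, lmap (act Ω σ) δr = δr := by
  have hΔ := lh.Δ_ne qd
  obtain ⟨g, hg⟩ := exists_sqrt_phi r hΔ
  have hψδ : ψ qd.δ ≠ 0 := (map_ne_zero_iff _ ψ.injective).2 qd.δ_ne
  have hreg : Reg (phi r (lh.Δ qd)) (ψ qd.δ ^ 2) := by
    rw [← map_pow, qd.δ_sq]
    exact hr _
  obtain ⟨ho, hl⟩ := hreg.lead (pow_ne_zero 2 hψδ)
  have hg0 : g ≠ 0 := by
    rintro rfl
    rw [zero_pow two_ne_zero] at hg
    exact phi_ne_zero r hΔ hg.symm
  rw [← hg, pow_two, order_mul hg0 hg0] at ho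
  rw [← hg, pow_two, leadingCoeff_mul, ← pow_two] at hl
  have hgo : g.order = 0 := by omega
  have hgreg : Reg g g.leadingCoeff := by
    apply Reg.of_coeff
    · intro m hm
      exact coeff_eq_zero_of_lt_order (by rw [hgo]; exact hm)
    · rw [leadingCoeff_eq, hgo]
  have hfin : ∀ δr : HahnSeries ℤ Ω, δr ^ 2 = phi r (lh.Δ qd) → Reg δr (ψ qd.δ) →
      ∀ σ : D, lmap (act Ω σ) δr = δr := by
    intro δr h1 h2 σ
    rcases lmap_sign _ (lh.Δ_inv qd hX σ) (hfix σ) h1 with h | h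
    · exact h
    · exfalso
      have h3 := congrArg (fun f => HahnSeries.coeff f 0) h
      simp only [lmap_coeff, coeff_neg] at h3
      rw [h2.coeff_zero', act_apply, hinv] at h3
      have h4 : (2 : Ω) * ψ qd.δ = 0 := by linear_combination h3
      rcases mul_eq_zero.1 h4 with h5 | h5
      · exact two_ne_zero h5
      · exact hψδ h5
  rcases sq_eq_sq_iff_eq_or_eq_neg.1 hl with h | h
  · rw [h] at hgreg
    exact ⟨g, hg, hgreg, hfin g hg hgreg⟩
  · have h2 : Reg (-g) (ψ qd.δ) := by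
      have := hgreg.neg
      rw [h, neg_neg] at this
      exact this
    have h3 : (-g) ^ 2 = phi r (lh.Δ qd) := by rw [neg_sq, hg]
    exact ⟨-g, h3, h2, hfin (-g) h3 h2⟩

/-- the invariant of the conjugate sheet at a point -/
noncomputable def minv (P : Pt fr e X) (qd : QD k F) : k' :=
  T.res ((fr.W e * X.map (qd.val P.ψ (-P.ψ qd.δ)) * fr.Z) 0 0) ^ 9

/-- leading coefficient at a sheet over an end -/
lemma lead_end {r : Option Ω} {ψ : K →ₐ[k] Ω}
    (hr : ∀ x : KY k F, Reg (phi r (lh.Φ x)) (ψ x))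
    (hX : IsFunctionFieldSL k X) (hF : IsDominantEquivariant k X F)
    (hfix : ∀ σ : D, r.map (act Ω σ) = r) {δr : HahnSeries ℤ Ω}
    (hδ : δr ^ 2 = phi r (lh.Δ qd)) {s : Ω} (hs : Reg δr s)
    (hinv : ∀ σ : D, lmap (act Ω σ) δr = δr) :
    (ev r δr hδ ((lh.toLineData qd hX hF).x 0)).leadingCoeff =
      (fr.W e * X.map (qd.val ψ s) * fr.Z) 0 0 := by
  have h1 := (lh.toLineData qd hX hF).ends_order hδ hfix hinv 0
  have h2 : Reg (ev r δr hδ ((lh.toLineData qd hX hF).x 0))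
      ((fr.W e * X.map (qd.val ψ s) * fr.Z) 0 0) := lh.reg_M qd hr hδ hs 0 0
  rw [leadingCoeff_eq, h1, h2.coeff_zero']

/-- the residue is a 27th root of unity -/
lemma res_pow_end {Δ : RatFunc Ω} (L : LineData T Δ) {r : Option Ω} {δ : HahnSeries ℤ Ω}
    (hδ : δ ^ 2 = phi r Δ)
    (hr : ∀ σ : D, r.map (act Ω σ) = r) (hf : ∀ σ : D, lmap (act Ω σ) δ = δ) :
    ∃ j : ZMod 3, T.res (ev r δ hδ (L.x 0)).leadingCoeff ^ 9 = T.om ^ j.val := by
  apply cube_root_unity T.om_pow T.om_ne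
  have h1 : ∏ h, (ev r δ hδ (L.x h)).leadingCoeff = 1 := by
    rw [← leadingCoeff_prod', ← map_prod, L.prod_x, map_one, leadingCoeff_one]
  have h2 := (T.res_prod Finset.univ (fun h => (ev r δ hδ (L.x h)).leadingCoeff)
    fun h _ => (L.ends_norm hδ hr hf h).le).1
  rw [h1, T.res_one, Finset.prod_congr rfl fun h _ => L.ends_res hδ hr hf h, Finset.prod_const,
    Finset.card_univ, card_H] at h2
  rw [← pow_mul]
  exact h2.symm

/-- plus sheet at an end -/
lemma plus_value (P : Pt fr e X) :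
    (fr.W e * X.map (qd.val P.ψ (P.ψ qd.δ)) * fr.Z) 0 0 = fr.x e P.z 0 := by
  have h1 : X.map (qd.val P.ψ (P.ψ qd.δ)) = X.map P.ψ := by
    ext i j
    exact qd.val_plus P.ψ _
  rw [h1, P.map_X]
  have h2 : fr.W e * (fr.Z * Matrix.diagonal (fr.x e P.z) * fr.W e) * fr.Z =
      Matrix.diagonal (fr.x e P.z) := by
    have h3 := fr.W_mul_Z e
    calc fr.W e * (fr.Z * Matrix.diagonal (fr.x e P.z) * fr.W e) * fr.Z
        = (fr.W e * fr.Z) * Matrix.diagonal (fr.x e P.z) * (fr.W e * fr.Z) := by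
          simp only [Matrix.mul_assoc]
      _ = _ := by rw [h3, Matrix.one_mul, Matrix.mul_one]
  rw [h2, Matrix.diagonal_apply_eq]

/-- The relation between two points. -/
theorem two_points (hX : IsFunctionFieldSL k X) (hF : IsDominantEquivariant k X F)
    (P P' : Pt fr e X) {a b : ZMod 3} (ha : algebraMap k k' P.z ^ 9 = T.om ^ a.val)
    (hb : algebraMap k k' P'.z ^ 9 = T.om ^ b.val) :
    ∃ j j' : ZMod 3, minv P qd = T.om ^ j.val ∧ minv P' qd = T.om ^ j'.val ∧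
      (a - j) ^ 2 = (b - j') ^ 2 ∧ a + j = b + j' := by
  have hne : Nonempty n := ⟨e.symm 0⟩
  obtain ⟨Φ, h1, h2, h3⟩ := exists_Phi hF P.ψ P'.ψ
  let lh : LineHom P P' F := ⟨Φ, h1, h2, h3⟩
  have hr0 : ∀ σ : D, (some (0 : Ω)).map (act Ω σ) = some 0 := LineData.r0
  have hri : ∀ σ : D, (none : Option Ω).map (act Ω σ) = none := LineData.ri
  obtain ⟨δ0, h0, r0, f0⟩ := exists_sqrt_end qd lh lh.reg0 (P.smul_ψ hX) hX hr0
  obtain ⟨δi, hi, ri, fi⟩ := exists_sqrt_end qd lh lh.regi (P'.smul_ψ hX) hX hri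
  set L := lh.toLineData qd hX hF with hL
  have f0' : ∀ σ : D, lmap (act Ω σ) (-δ0) = -δ0 := LineData.neg_fix f0
  have fi' : ∀ σ : D, lmap (act Ω σ) (-δi) = -δi := LineData.neg_fix fi
  have l0p := lead_end qd lh lh.reg0 hX hF hr0 h0 r0 f0
  have l0m := lead_end qd lh lh.reg0 hX hF hr0 (neg_sq' h0) r0.neg f0'
  have lip := lead_end qd lh lh.regi hX hF hri hi ri fi
  have lim := lead_end qd lh lh.regi hX hF hri (neg_sq' hi) ri.neg fi'
  rw [plus_value, ← hL] at l0p lip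
  rw [← hL] at l0m lim
  obtain ⟨j, hj⟩ := res_pow_end L (neg_sq' h0) hr0 f0'
  obtain ⟨j', hj'⟩ := res_pow_end L (neg_sq' hi) hri fi'
  have e0p : T.res (ev (some 0) δ0 h0 (L.x 0)).leadingCoeff ^ 9 = T.om ^ a.val := by
    rw [l0p, fr.res_x e P.z_ne, ha]
  have eip : T.res (ev none δi hi (L.x 0)).leadingCoeff ^ 9 = T.om ^ b.val := by
    rw [lip, fr.res_x e P'.z_ne, hb]
  obtain ⟨h4, h5⟩ := L.line_thm h0 hi f0 fi e0p hj eip hj' (lh.Δ_ne qd)
  refine ⟨j, j', ?_, ?_, h4, h5⟩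
  · unfold minv
    rw [← l0m, hj]
  · unfold minv
    rw [← lim, hj']

/-- Three points lead to a contradiction. -/
theorem no_qd (qd : QD k F) (hX : IsFunctionFieldSL k X) (hF : IsDominantEquivariant k X F)
    {ζ : k} (hζ : ζ ^ 27 = 1) (hom : algebraMap k k' ζ ^ 9 = T.om) (fr : Frame k T n) (e : n ≃ H) :
    False := by
  obtain ⟨P0, hP0⟩ := exists_pt fr e hX (z := 1) (one_pow 27)
  obtain ⟨P1, hP1⟩ := exists_pt fr e hX hζ
  obtain ⟨P2, hP2⟩ := exists_pt fr e hX (z := ζ ^ 2) (by rw [← pow_mul, mul_comm, pow_mul, hζ, one_pow])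
  have h0 : algebraMap k k' P0.z ^ 9 = T.om ^ (0 : ZMod 3).val := by
    rw [hP0, map_one, one_pow]; simp
  have h1 : algebraMap k k' P1.z ^ 9 = T.om ^ (1 : ZMod 3).val := by
    rw [hP1, hom]
    have : (1 : ZMod 3).val = 1 := rfl
    rw [this, pow_one]
  have h2 : algebraMap k k' P2.z ^ 9 = T.om ^ (2 : ZMod 3).val := by
    rw [hP2, map_pow, ← pow_mul, mul_comm, pow_mul, hom]
    rfl
  obtain ⟨a, b, ha, hb, h3, h4⟩ := two_points qd hX hF P0 P1 h0 h1
  obtain ⟨a', c, ha', hc, h5, h6⟩ := two_points qd hX hF P0 P2 h0 h2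
  have haa : a' = a := T.om_val_inj (ha'.symm.trans ha)
  subst haa
  revert h3 h4 h5 h6
  clear ha hb hc ha'
  revert a' b c
  decide

end

end Pool.Agent.helper34.Cay
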